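import Pool.Agent.RZ.Defs

set_option autoImplicit false

/-! Small facts used by all modules -/

namespace Pool.Agent.RZ

theorem BAS_nat {n : ℕ} (hn : n ≠ 0) (h : ∀ p : ℕ, p.Prime → p ∣ n → p % 8 = 1 ∨ p % 8 = 7) :
    n % 8 = 1 ∨ n % 8 = 7 := by
  induction n using Nat.recOnMul with
  | zero => exact absurd rfl hn
  | one => left; rfl
  | prime p hp => exact h p hp dvd_rfl
  | mul a b iha ihb =>
    have ha0 : a ≠ 0 := left_ne_zero_of_mul hn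
    have hb0 : b ≠ 0 := right_ne_zero_of_mul hn
    have ha := iha ha0 fun p hp hpa => h p hp (hpa.mul_right b)
    have hb := ihb hb0 fun p hp hpb => h p hp (hpb.mul_left a)
    rw [Nat.mul_mod]
    rcases ha with ha | ha <;> rcases hb with hb | hb <;> rw [ha, hb] <;> simp

theorem BAS_int {n : ℤ} (hn : n ≠ 0)
    (h : ∀ p : ℕ, p.Prime → (p : ℤ) ∣ n → p % 8 = 1 ∨ p % 8 = 7) : n % 8 = 1 ∨ n % 8 = 7 := by
  have h1 : n.natAbs % 8 = 1 ∨ n.natAbs % 8 = 7 := by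
    refine BAS_nat (Int.natAbs_ne_zero.2 hn) fun p hp hpn => h p hp ?_
    exact Int.natCast_dvd.2 hpn
  omega

/-- a divisor (up to sign) of a member of the family is `±1` modulo `8` -/
theorem dvd_mod8 {m : ℕ} (hm : Fam m) {d : ℤ} (hd : d ∣ m) : d % 8 = 1 ∨ d % 8 = 7 := by
  have hm0 : m ≠ 0 := by have := hm.one_lt; omega
  refine BAS_int ?_ fun p hp hpd => hm.pr p ?_
  · rintro rfl
    rw [zero_dvd_iff] at hd
    exact hm0 (by exact_mod_cast hd)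
  · rw [Nat.mem_primeFactors]
    exact ⟨hp, by exact_mod_cast hpd.trans hd, hm0⟩

/-- an odd number all of whose primes are `±1` modulo `8` has square `1` modulo `16` -/
theorem sq_mod16 {n : ℤ} (h2 : ¬ (2 : ℤ) ∣ n)
    (h : ∀ p : ℕ, p.Prime → (p : ℤ) ∣ n → p % 8 = 1 ∨ p % 8 = 7) : n ^ 2 % 16 = 1 := by
  have hn : n ≠ 0 := by rintro rfl; exact h2 (dvd_zero _)
  have h1 := BAS_int hn h
  have h3 : n % 16 = 1 ∨ n % 16 = 7 ∨ n % 16 = 9 ∨ n % 16 = 15 := by omega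
  rw [pow_two, Int.mul_emod]
  rcases h3 with h3 | h3 | h3 | h3 <;> rw [h3] <;> norm_num

/-- if `2` is a square modulo `p`, in the form `Y² ≡ 2 X²` with `p ∤ X`, then `p = ±1 mod 8` -/
theorem two_res {p : ℕ} (hp : p.Prime) (hp2 : p ≠ 2) {X Y : ℤ} (hX : ¬ (p : ℤ) ∣ X)
    (h : (p : ℤ) ∣ Y ^ 2 - 2 * X ^ 2) : p % 8 = 1 ∨ p % 8 = 7 := by
  have : Fact p.Prime := ⟨hp⟩
  rw [← ZMod.exists_sq_eq_two_iff hp2]
  have hX' : (X : ZMod p) ≠ 0 := by
    intro h0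
    exact hX ((ZMod.intCast_zmod_eq_zero_iff_dvd X p).1 h0)
  have h' : (Y : ZMod p) ^ 2 - 2 * (X : ZMod p) ^ 2 = 0 := by
    have := (ZMod.intCast_zmod_eq_zero_iff_dvd _ p).2 h
    push_cast at this
    exact this
  refine ⟨(Y : ZMod p) / X, ?_⟩
  field_simp
  linear_combination -h'

/-- `jacobiSym x p = 1` from `x y² ≡ z²`, `p ∤ x z` -/
theorem jac_one {p : ℕ} (hp : p.Prime) {x y z : ℤ} (hz : ¬ (p : ℤ) ∣ z)
    (h : (p : ℤ) ∣ x * y ^ 2 - z ^ 2) : jacobiSym x p = 1 := by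
  have : Fact p.Prime := ⟨hp⟩
  rw [← jacobiSym.legendreSym.to_jacobiSym]
  have hz' : (z : ZMod p) ≠ 0 := by
    intro h0
    exact hz ((ZMod.intCast_zmod_eq_zero_iff_dvd z p).1 h0)
  have h' : (x : ZMod p) * (y : ZMod p) ^ 2 - (z : ZMod p) ^ 2 = 0 := by
    have := (ZMod.intCast_zmod_eq_zero_iff_dvd _ p).2 h
    push_cast at this
    exact this
  have hy' : (y : ZMod p) ≠ 0 := by
    intro h0
    rw [h0] at h'
    apply hz'
    have : (z : ZMod p) ^ 2 = 0 := by linear_combination -h'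
    exact pow_eq_zero_iff (two_ne_zero) |>.1 this
  have hx' : (x : ZMod p) ≠ 0 := by
    intro h0
    rw [h0] at h'
    apply hz'
    have : (z : ZMod p) ^ 2 = 0 := by linear_combination -h'
    exact pow_eq_zero_iff (two_ne_zero) |>.1 this
  rw [legendreSym.eq_one_iff p hx']
  refine ⟨(z : ZMod p) / y, ?_⟩
  field_simp
  linear_combination h'

/-- `(2 / p) = 1` in the family -/
theorem jac_two {p : ℕ} (hp : p.Prime) (h8 : p % 8 = 1 ∨ p % 8 = 7) : jacobiSym 2 p = 1 := by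
  have : Fact p.Prime := ⟨hp⟩
  have hp2 : p ≠ 2 := by rintro rfl; omega
  rw [← jacobiSym.legendreSym.to_jacobiSym]
  have h20 : ((2 : ℤ) : ZMod p) ≠ 0 := by
    intro h0
    have h1 : (p : ℤ) ∣ 2 := (ZMod.intCast_zmod_eq_zero_iff_dvd 2 p).1 h0
    have h2 : p ∣ 2 := by exact_mod_cast h1
    exact hp2 ((Nat.prime_dvd_prime_iff_eq hp Nat.prime_two).1 h2)
  rw [legendreSym.eq_one_iff p h20]
  have := (ZMod.exists_sq_eq_two_iff hp2).2 h8
  exact_mod_cast this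

/-- factorisation of `u v = a k²` with `u`, `v` coprime and `a` squarefree:
`u = a₁ r²`, `v = a₂ s²`, `a₁ a₂ = a`, `(r s)² = k²` -/
theorem split_sq {u v a k : ℤ} (h : u * v = a * k ^ 2) (hc : IsCoprime u v) (ha : Squarefree a)
    (hk : k ≠ 0) : ∃ a₁ a₂ r s : ℤ, u = a₁ * r ^ 2 ∧ v = a₂ * s ^ 2 ∧ a₁ * a₂ = a ∧ r * s = k := by
  have _ := ha
  obtain ⟨x, y, ⟨u', hu⟩, ⟨v', hv⟩, hxy⟩ := exists_dvd_and_dvd_of_dvd_mul
    (Dvd.intro_left a h.symm : k ^ 2 ∣ u * v)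
  have hcop : IsCoprime x y := by
    refine (hc.of_isCoprime_of_dvd_left ⟨u', hu⟩).of_isCoprime_of_dvd_right ⟨v', hv⟩
  have hg : Int.gcd x y = 1 := Int.isCoprime_iff_gcd_eq_one.1 hcop
  obtain ⟨r, hr⟩ := Int.sq_of_gcd_eq_one hg hxy.symm
  have hg' : Int.gcd y x = 1 := by rw [Int.gcd_comm]; exact hg
  obtain ⟨s, hs⟩ := Int.sq_of_gcd_eq_one hg' (by rw [mul_comm]; exact hxy.symm)
  obtain ⟨a₁, ha₁⟩ : ∃ a₁, u = a₁ * r ^ 2 := by
    rcases hr with hr | hr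
    · exact ⟨u', by rw [hu, hr]; ring⟩
    · exact ⟨-u', by rw [hu, hr]; ring⟩
  obtain ⟨a₂, ha₂⟩ : ∃ a₂, v = a₂ * s ^ 2 := by
    rcases hs with hs | hs
    · exact ⟨v', by rw [hv, hs]; ring⟩
    · exact ⟨-v', by rw [hv, hs]; ring⟩
  have hrs : (r * s) ^ 2 = k ^ 2 ∨ (r * s) ^ 2 = - k ^ 2 := by
    rcases hr with hr | hr <;> rcases hs with hs | hs
    · left; rw [hxy, hr, hs]; ring
    · right; rw [hxy, hr, hs]; ring
    · right; rw [hxy, hr, hs]; ring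
    · left; rw [hxy, hr, hs]; ring
  have hk2 : 0 < k ^ 2 := by positivity
  have hrs2 : (r * s) ^ 2 = k ^ 2 := by
    rcases hrs with h1 | h1
    · exact h1
    · exfalso
      have := sq_nonneg (r * s)
      linarith
  have haa : a₁ * a₂ = a := by
    have h1 : (a₁ * a₂) * k ^ 2 = a * k ^ 2 := by
      rw [← h, ha₁, ha₂, ← hrs2]; ring
    exact mul_right_cancel₀ hk2.ne' h1
  rcases sq_eq_sq_iff_eq_or_eq_neg.1 hrs2 with h1 | h1
  · exact ⟨a₁, a₂, r, s, ha₁, ha₂, haa, h1⟩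
  · exact ⟨a₁, a₂, -r, s, by rw [ha₁]; ring, ha₂, haa, by rw [neg_mul, h1]; ring⟩

end Pool.Agent.RZ
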