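import Pool.Agent.RZ.Defs
import Pool.Agent.TLW.Tun

set_option autoImplicit false

/-! From the Tunnell digit (equivalently `det B = 1`) to `Nice m`.

Proof. Enumerate the primes of `m` as `p : Fin (k+1) → ℕ`; by `TQG.fin` (the theorem behind
`TunnellRedei`, see also `TLW/Tun.lean`) `gT m = 1` gives `det B = 1`, `B = A` with column 0 replaced
by `λ`, `A` the Redei matrix with zero row sums. Then the columns `1..k` of `A` are independent:
`A x = 0` gives `x = 0` or `x = 1` (the all-one vector), i.e. `Nice.ker` (`x` = indicator of the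
primes of `d`); `Aᵀ x = 0` and `x·λ = 0` give `Bᵀ x = 0`, `x = 0`, i.e. `Nice.kerT` (`x·λ = 0` iff `d = ±1`
modulo 16); `A x = λ` would make column 0 of `B` a combination of the columns `1..k`, i.e.
`Nice.noR`. -/

namespace Pool.Agent.RZ

open Finset Pool.Agent.TQG

/-- sign -/
def la_sg (x : ZMod 2) : ℤ := if x = 0 then 1 else -1

theorem la_zt (x : ZMod 2) : x = 0 ∨ x = 1 := by revert x; decide

theorem la_sg_add (x y : ZMod 2) : la_sg (x + y) = la_sg x * la_sg y := by
  revert x y; decide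

theorem la_sg_zero : la_sg 0 = 1 := by decide

theorem la_sg_one : la_sg 1 = -1 := by decide

theorem la_sg_eq {x : ZMod 2} (h : la_sg x = 1) : x = 0 := by
  revert x; decide

theorem la_sg_sum {ι : Type*} (s : Finset ι) (f : ι → ZMod 2) :
    la_sg (∑ i ∈ s, f i) = ∏ i ∈ s, la_sg (f i) := by
  classical
  induction s using Finset.induction_on with
  | empty => simp [la_sg_zero]
  | insert a s ha ih => rw [Finset.sum_insert ha, Finset.prod_insert ha, la_sg_add, ih]

theorem la_jac_prod_left {ι : Type*} (s : Finset ι) (f : ι → ℕ) (q : ℕ) :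
    jacobiSym ((∏ i ∈ s, f i : ℕ) : ℤ) q = ∏ i ∈ s, jacobiSym (f i : ℤ) q := by
  classical
  induction s using Finset.induction_on with
  | empty => simp [jacobiSym.one_left]
  | insert a s ha ih =>
    rw [Finset.prod_insert ha, Finset.prod_insert ha, Nat.cast_mul, jacobiSym.mul_left, ih]

theorem la_jac_prod_right {ι : Type*} (s : Finset ι) (f : ι → ℕ) (hf : ∀ i ∈ s, f i ≠ 0)
    (q : ℤ) : jacobiSym q (∏ i ∈ s, f i) = ∏ i ∈ s, jacobiSym q (f i) := by
  classical
  induction s using Finset.induction_on with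
  | empty => simp [jacobiSym.one_right]
  | insert a s ha ih =>
    have h1 : f a ≠ 0 := hf a (Finset.mem_insert_self _ _)
    have h2 : ∏ i ∈ s, f i ≠ 0 :=
      Finset.prod_ne_zero_iff.2 fun i hi => hf i (Finset.mem_insert_of_mem hi)
    rw [Finset.prod_insert ha, Finset.prod_insert ha, jacobiSym.mul_right' q h1 h2,
      ih fun i hi => hf i (Finset.mem_insert_of_mem hi)]

theorem la_ee {q i : ℕ} (hq : q.Prime) (hi : i.Prime) (hne : i ≠ q) :
    jacobiSym (i : ℤ) q = la_sg (ee q i) := by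
  have h1 : jacobiSym (i : ℤ) q = 1 ∨ jacobiSym (i : ℤ) q = -1 := by
    refine jacobiSym.eq_one_or_neg_one ?_
    rw [Int.isCoprime_iff_gcd_eq_one.symm.trans Nat.isCoprime_iff_coprime]
    exact (Nat.coprime_primes hi hq).2 hne
  unfold ee
  rcases h1 with h | h
  · rw [h, if_neg (by norm_num), la_sg_zero]
  · rw [h, if_pos rfl, la_sg_one]

section setup

variable {k : ℕ} (p : Fin (k + 1) → ℕ)

/-- indicator vector -/
def la_x (d : ℕ) : Fin (k + 1) → ZMod 2 := fun i => if p i ∣ d then 1 else 0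

/-- the Redei matrix -/
abbrev la_A : Matrix (Fin (k + 1)) (Fin (k + 1)) (ZMod 2) := lap fun j i => ee (p j) (p i)

theorem la_row (x : Fin (k + 1) → ZMod 2) (j : Fin (k + 1)) :
    (la_A p).mulVec x j = ∑ i ∈ univ.erase j, ee (p j) (p i) * (x i + x j) := by
  unfold Matrix.mulVec dotProduct la_A lap
  rw [← Finset.add_sum_erase _ _ (Finset.mem_univ j)]
  simp only [Matrix.of_apply, if_true]
  have h1 : ∀ i ∈ univ.erase j, (if j = i then ∑ l ∈ univ.erase j, ee (p j) (p l)
      else ee (p j) (p i)) * x i = ee (p j) (p i) * x i := by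
    intro i hi
    rw [if_neg (Finset.mem_erase.1 hi).1.symm]
  rw [Finset.sum_congr rfl h1, Finset.sum_mul, ← Finset.sum_add_distrib]
  refine Finset.sum_congr rfl fun i _ => ?_
  ring

theorem la_col (x : Fin (k + 1) → ZMod 2) (i : Fin (k + 1)) :
    Matrix.vecMul x (la_A p) i =
      x i * ∑ l ∈ univ.erase i, ee (p i) (p l) + ∑ j ∈ univ.erase i, x j * ee (p j) (p i) := by
  unfold Matrix.vecMul dotProduct la_A lap
  rw [← Finset.add_sum_erase _ _ (Finset.mem_univ i)]
  simp only [Matrix.of_apply, if_true]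
  congr 1
  refine Finset.sum_congr rfl fun j hj => ?_
  rw [if_neg (Finset.mem_erase.1 hj).1]

theorem la_row_one (j : Fin (k + 1)) : (la_A p).mulVec (fun _ => 1) j = 0 := by
  rw [la_row]
  refine Finset.sum_eq_zero fun i _ => ?_
  rw [CharTwo.add_self_eq_zero, mul_zero]

end setup

/-- the enumeration with all its properties -/
theorem la_enum {m : ℕ} (hm : Fam m) (h : Pool.Agent.TLW.gT m = 1) :
    ∃ (k : ℕ) (p : Fin (k + 1) → ℕ), (∀ i, (p i).Prime) ∧ Function.Injective p ∧
      (∀ i, p i ∣ m) ∧ (∀ q : ℕ, q.Prime → q ∣ m → ∃ i, p i = q) ∧ ∏ i, p i = m ∧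
      ((la_A p).updateCol 0 fun i => lam (p i)).det = 1 := by
  classical
  have hm0 : m ≠ 0 := by have := hm.one_lt; omega
  have hne : m.primeFactors.Nonempty := by
    rw [Nat.nonempty_primeFactors]; exact hm.one_lt
  obtain ⟨k, hk⟩ : ∃ k, m.primeFactors.card = k + 1 :=
    ⟨m.primeFactors.card - 1, by have := hne.card_pos; omega⟩
  set e : Fin (k + 1) ≃ {x // x ∈ m.primeFactors} :=
    (Fintype.equivFinOfCardEq (by rw [Fintype.card_coe, hk])).symm with he
  set p : Fin (k + 1) → ℕ := fun i => (e i : ℕ) with hp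
  have hmem : ∀ i, p i ∈ m.primeFactors := fun i => (e i).2
  have hpr : ∀ i, (p i).Prime := fun i => Nat.prime_of_mem_primeFactors (hmem i)
  have hinj : Function.Injective p := fun i j hij => e.injective (Subtype.ext hij)
  have hprod : ∏ i, p i = m := by
    rw [hp, Equiv.prod_comp e (fun x => (x : ℕ)), Finset.prod_coe_sort m.primeFactors fun x => x]
    exact Nat.prod_primeFactors_of_squarefree hm.sqf
  refine ⟨k, p, hpr, hinj, fun i => Nat.dvd_of_mem_primeFactors (hmem i), ?_, hprod, ?_⟩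
  · intro q hq hqm
    refine ⟨e.symm ⟨q, Nat.mem_primeFactors.2 ⟨hq, hqm, hm0⟩⟩, ?_⟩
    rw [hp]
    simp
  · have hfin := Pool.Agent.TQG.fin k p hpr hinj (fun i => hm.pr _ (hmem i))
      (by rw [hprod]; exact hm.mod8)
    rw [hprod] at hfin
    rcases la_zt ((la_A p).updateCol 0 fun i => lam (p i)).det with h0 | h0
    swap
    · exact h0
    exfalso
    unfold Pool.Agent.TLW.gT at h
    rw [hk] at h
    have hc : (2 * (Pool.Agent.H24.cardC (2 * m) : ℤ) - (Pool.Agent.H24.cardD (2 * m) : ℤ)) ≡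
        2 ^ (k + 1 + 2) [ZMOD 2 ^ (k + 1 + 3)] := by
      by_contra hc
      rw [if_neg hc] at h
      norm_num at h
    have h0' : ((lap fun j i => ee (p j) (p i)).updateCol 0 fun i => lam (p i)).det = 0 := h0
    rw [h0', ZMod.val_zero, Nat.cast_zero, mul_zero] at hfin
    have h1 := hfin.symm.trans hc
    have h2 := Int.modEq_iff_dvd.1 h1
    rw [sub_zero] at h2
    have h3 := Int.le_of_dvd (by positivity) h2
    have h4 : (2 : ℤ) ^ (k + 4) = 2 * 2 ^ (k + 3) := by ring
    have h5 : (0 : ℤ) < 2 ^ (k + 3) := by positivity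
    have h6 : (2 : ℤ) ^ (k + 1 + 2) = 2 ^ (k + 3) := by ring
    rw [h4, h6] at h3
    linarith

section main

variable {m k : ℕ} {p : Fin (k + 1) → ℕ}

/-- divisors as products -/
theorem la_prod (hm : Squarefree m) (hpr : ∀ i, (p i).Prime) (hinj : Function.Injective p)
    (hall : ∀ q : ℕ, q.Prime → q ∣ m → ∃ i, p i = q) {d : ℕ} (hd : d ∣ m) (hm0 : m ≠ 0) :
    ∏ i, (if p i ∣ d then p i else 1) = d := by
  classical
  have hd0 : d ≠ 0 := fun h => hm0 (by rw [h] at hd; exact zero_dvd_iff.1 hd)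
  rw [← Finset.prod_filter]
  conv_rhs => rw [← Nat.prod_primeFactors_of_squarefree (hm.squarefree_of_dvd hd)]
  refine Finset.prod_bij (fun i _ => p i) ?_ ?_ ?_ ?_
  · intro i hi
    exact Nat.mem_primeFactors.2 ⟨hpr i, (Finset.mem_filter.1 hi).2, hd0⟩
  · intro i _ j _ hij
    exact hinj hij
  · intro q hq
    obtain ⟨i, hi⟩ := hall q (Nat.prime_of_mem_primeFactors hq)
      ((Nat.dvd_of_mem_primeFactors hq).trans hd)
    exact ⟨i, Finset.mem_filter.2 ⟨Finset.mem_univ _, by
      rw [hi]; exact Nat.dvd_of_mem_primeFactors hq⟩, hi⟩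
  · intro i _; rfl

theorem la_dvd_div (hm : Squarefree m) {q d : ℕ} (hq : q.Prime) (hd : d ∣ m) (hm0 : m ≠ 0)
    (hqm : q ∣ m) : q ∣ m / d ↔ ¬ q ∣ d := by
  obtain ⟨e, rfl⟩ := hd
  have hd0 : 0 < d := Nat.pos_of_ne_zero (left_ne_zero_of_mul hm0)
  rw [Nat.mul_div_cancel_left _ hd0]
  constructor
  · intro h1 h2
    have h3 : q * q ∣ d * e := Nat.mul_dvd_mul h2 h1
    have h4 := hm q h3
    exact hq.one_lt.ne' (Nat.isUnit_iff.1 h4)
  · intro h1
    exact (hq.dvd_mul.1 hqm).resolve_left h1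

theorem la_prod_co (hm : Squarefree m) (hpr : ∀ i, (p i).Prime) (hinj : Function.Injective p)
    (hpm : ∀ i, p i ∣ m) (hall : ∀ q : ℕ, q.Prime → q ∣ m → ∃ i, p i = q) {d : ℕ} (hd : d ∣ m)
    (hm0 : m ≠ 0) : ∏ i, (if p i ∣ d then 1 else p i) = m / d := by
  have h1 := la_prod hm hpr hinj hall (Nat.div_dvd_of_dvd hd) hm0
  rw [← h1]
  refine Finset.prod_congr rfl fun i _ => ?_
  by_cases h : p i ∣ d
  · rw [if_pos h, if_neg (fun h2 => (la_dvd_div hm (hpr i) hd hm0 (hpm i)).1 h2 h)]
  · rw [if_neg h, if_pos ((la_dvd_div hm (hpr i) hd hm0 (hpm i)).2 h)]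

/-- rows -/
theorem la_Ax (hm : Squarefree m) (hpr : ∀ i, (p i).Prime) (hinj : Function.Injective p)
    (hpm : ∀ i, p i ∣ m) (hall : ∀ q : ℕ, q.Prime → q ∣ m → ∃ i, p i = q) {d : ℕ} (hd : d ∣ m)
    (hm0 : m ≠ 0) (j : Fin (k + 1)) :
    la_sg ((la_A p).mulVec (la_x p d) j) =
      if p j ∣ d then jacobiSym ((m / d : ℕ) : ℤ) (p j) else jacobiSym (d : ℤ) (p j) := by
  rw [la_row, la_sg_sum]
  split_ifs with h
  · rw [← la_prod_co hm hpr hinj hpm hall hd hm0, ← Finset.mul_prod_erase _ _ (Finset.mem_univ j),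
      if_pos h, one_mul, la_jac_prod_left]
    refine Finset.prod_congr rfl fun i hi => ?_
    have hij : p i ≠ p j := fun h2 => (Finset.mem_erase.1 hi).1 (hinj h2)
    unfold la_x
    rw [if_pos h]
    by_cases h2 : p i ∣ d
    · rw [if_pos h2, if_pos h2, CharTwo.add_self_eq_zero, mul_zero, la_sg_zero, Nat.cast_one,
        jacobiSym.one_left]
    · rw [if_neg h2, if_neg h2, zero_add, mul_one, la_ee (hpr j) (hpr i) hij]
  · conv_rhs => rw [← la_prod hm hpr hinj hall hd hm0]
    rw [← Finset.mul_prod_erase _ _ (Finset.mem_univ j), if_neg h, one_mul, la_jac_prod_left]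
    refine Finset.prod_congr rfl fun i hi => ?_
    have hij : p i ≠ p j := fun h2 => (Finset.mem_erase.1 hi).1 (hinj h2)
    unfold la_x
    rw [if_neg h, add_zero]
    by_cases h2 : p i ∣ d
    · rw [if_pos h2, if_pos h2, mul_one, la_ee (hpr j) (hpr i) hij]
    · rw [if_neg h2, if_neg h2, mul_zero, la_sg_zero, Nat.cast_one, jacobiSym.one_left]

/-- columns -/
theorem la_xA (hm : Squarefree m) (hpr : ∀ i, (p i).Prime) (hinj : Function.Injective p)
    (hpm : ∀ i, p i ∣ m) (hall : ∀ q : ℕ, q.Prime → q ∣ m → ∃ i, p i = q) {d : ℕ} (hd : d ∣ m)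
    (hm0 : m ≠ 0) (hprod : ∏ i, p i = m) (i : Fin (k + 1)) :
    la_sg (Matrix.vecMul (la_x p d) (la_A p) i) =
      if p i ∣ d then jacobiSym (p i : ℤ) (d / p i) * jacobiSym ((m / p i : ℕ) : ℤ) (p i)
      else jacobiSym (p i : ℤ) d := by
  have key : la_sg (∑ j ∈ univ.erase i, la_x p d j * ee (p j) (p i)) =
      jacobiSym (p i : ℤ) (∏ j ∈ univ.erase i, (if p j ∣ d then p j else 1)) := by
    rw [la_sg_sum, la_jac_prod_right _ _ (fun j _ => by
      split_ifs
      · exact (hpr j).ne_zero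
      · exact one_ne_zero)]
    refine Finset.prod_congr rfl fun j hj => ?_
    have hij : p i ≠ p j := fun h2 => (Finset.mem_erase.1 hj).1 (hinj h2).symm
    unfold la_x
    by_cases h2 : p j ∣ d
    · rw [if_pos h2, if_pos h2, one_mul, la_ee (hpr j) (hpr i) hij]
    · rw [if_neg h2, if_neg h2, zero_mul, la_sg_zero, jacobiSym.one_right]
  have hdp := la_prod hm hpr hinj hall hd hm0
  rw [← Finset.mul_prod_erase _ _ (Finset.mem_univ i)] at hdp
  rw [la_col, la_sg_add, key]
  split_ifs with h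
  · rw [if_pos h] at hdp
    have h1 : d / p i = ∏ j ∈ univ.erase i, (if p j ∣ d then p j else 1) := by
      conv_lhs => rw [← hdp]
      exact Nat.mul_div_cancel_left _ (hpr i).pos
    have h2 : m / p i = ∏ j ∈ univ.erase i, p j := by
      conv_lhs => rw [← hprod, ← Finset.mul_prod_erase _ _ (Finset.mem_univ i)]
      exact Nat.mul_div_cancel_left _ (hpr i).pos
    rw [h1, h2, la_jac_prod_left, mul_comm]
    congr 1
    have h3 : la_x p d i = 1 := if_pos h
    rw [h3, one_mul, la_sg_sum]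
    refine Finset.prod_congr rfl fun j hj => ?_
    rw [la_ee (hpr i) (hpr j) (fun h4 => (Finset.mem_erase.1 hj).1 (hinj h4))]
  · rw [if_neg h, one_mul] at hdp
    have h3 : la_x p d i = 0 := if_neg h
    rw [h3, zero_mul, la_sg_zero, one_mul, hdp]

end main

theorem la_lam (q : ℕ) : la_sg (lam q) = lamS q := by
  unfold lam lamS
  split_ifs
  · exact la_sg_one
  · exact la_sg_zero

theorem la_mod16 {k : ℕ} (p : Fin (k + 1) → ℕ) (d : ℕ) (h8 : ∀ i, p i % 8 = 1 ∨ p i % 8 = 7)
    (s : Finset (Fin (k + 1))) :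
    ((∏ i ∈ s, (if p i ∣ d then p i else 1)) % 16 = 1 ∨
      (∏ i ∈ s, (if p i ∣ d then p i else 1)) % 16 = 15) ∧
        ∑ i ∈ s, la_x p d i * lam (p i) = 0 ∨
    ((∏ i ∈ s, (if p i ∣ d then p i else 1)) % 16 = 7 ∨
      (∏ i ∈ s, (if p i ∣ d then p i else 1)) % 16 = 9) ∧
        ∑ i ∈ s, la_x p d i * lam (p i) = 1 := by
  classical
  induction s using Finset.induction_on with
  | empty => left; simp
  | insert a s ha ih =>
    rw [Finset.prod_insert ha, Finset.sum_insert ha, Nat.mul_mod]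
    unfold la_x at ih ⊢
    by_cases h : p a ∣ d
    · rw [if_pos h, if_pos h, one_mul]
      have h1 : p a % 16 = 1 ∨ p a % 16 = 7 ∨ p a % 16 = 9 ∨ p a % 16 = 15 := by
        rcases h8 a with h2 | h2 <;> omega
      have hl : lam (p a) = if p a % 16 = 7 ∨ p a % 16 = 9 then 1 else 0 := rfl
      rw [hl]
      rcases h1 with h1 | h1 | h1 | h1 <;> rcases ih with ⟨ih1 | ih1, ih2⟩ | ⟨ih1 | ih1, ih2⟩ <;>
        rw [h1, ih1, ih2] <;> simp <;> decide
    · rw [if_neg h, if_neg h, zero_mul, zero_add]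
      have h3 : (1 : ℕ) % 16 = 1 := rfl
      rw [h3, one_mul, Nat.mod_mod]
      exact ih

/-- replacing the first column -/
theorem la_B {k : ℕ} (A : Matrix (Fin (k + 1)) (Fin (k + 1)) (ZMod 2)) (v x : Fin (k + 1) → ZMod 2)
    (j : Fin (k + 1)) :
    (A.updateCol 0 v).mulVec x j = A.mulVec x j + x 0 * (A j 0 + v j) := by
  have e1 : (A.updateCol 0 v).mulVec x j = ∑ i, (A.updateCol 0 v) j i * x i := rfl
  have e2 : A.mulVec x j = ∑ i, A j i * x i := rfl
  rw [e1, e2, ← Finset.add_sum_erase _ _ (Finset.mem_univ (0 : Fin (k + 1))),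
    ← Finset.add_sum_erase (s := univ) (fun i => A j i * x i) (Finset.mem_univ 0)]
  have h1 : ∀ i ∈ univ.erase (0 : Fin (k + 1)),
      (A.updateCol 0 v) j i * x i = A j i * x i := by
    intro i hi
    rw [Matrix.updateCol_ne (Finset.mem_erase.1 hi).1]
  rw [Finset.sum_congr rfl h1, Matrix.updateCol_self]
  have h2 : A j 0 * x 0 + A j 0 * x 0 = 0 := CharTwo.add_self_eq_zero _
  linear_combination -h2

theorem la_BT {k : ℕ} (A : Matrix (Fin (k + 1)) (Fin (k + 1)) (ZMod 2)) (v x : Fin (k + 1) → ZMod 2)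
    (i : Fin (k + 1)) (hi : i ≠ 0) :
    Matrix.vecMul x (A.updateCol 0 v) i = Matrix.vecMul x A i := by
  have e1 : Matrix.vecMul x (A.updateCol 0 v) i = ∑ j, x j * (A.updateCol 0 v) j i := rfl
  have e2 : Matrix.vecMul x A i = ∑ j, x j * A j i := rfl
  rw [e1, e2]
  refine Finset.sum_congr rfl fun j _ => ?_
  rw [Matrix.updateCol_ne hi]

theorem nice_of_gT {m : ℕ} (hm : Fam m) (h : Pool.Agent.TLW.gT m = 1) : Nice m := by
  classical
  have hm0 : m ≠ 0 := by have := hm.one_lt; omega
  obtain ⟨k, p, hpr, hinj, hpm, hall, hprod, hdet⟩ := la_enum hm h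
  have hunit : IsUnit ((la_A p).updateCol 0 fun i => lam (p i)) :=
    (Matrix.isUnit_iff_isUnit_det _).2 (by rw [hdet]; exact isUnit_one)
  have hB : ∀ x : Fin (k + 1) → ZMod 2,
      ((la_A p).updateCol 0 fun i => lam (p i)).mulVec x = 0 → x = 0 := by
    intro x hx
    exact Matrix.mulVec_injective_of_isUnit hunit (by rw [hx, Matrix.mulVec_zero])
  have hBT : ∀ x : Fin (k + 1) → ZMod 2,
      Matrix.vecMul x ((la_A p).updateCol 0 fun i => lam (p i)) = 0 → x = 0 := by
    intro x hx
    exact Matrix.vecMul_injective_of_isUnit hunit (by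
      show Matrix.vecMul x _ = Matrix.vecMul 0 _
      rw [hx, Matrix.zero_vecMul])
  -- the product with B
  have hBx : ∀ (x : Fin (k + 1) → ZMod 2) (j : Fin (k + 1)),
      ((la_A p).updateCol 0 fun i => lam (p i)).mulVec x j =
        (la_A p).mulVec x j + x 0 * (la_A p j 0 + lam (p j)) := fun x j => la_B _ _ x j
  -- solutions of A x = mu lambda
  have hker : ∀ (x : Fin (k + 1) → ZMod 2), (∀ j, (la_A p).mulVec x j = 0) →
      x = 0 ∨ x = fun _ => 1 := by
    intro x hx
    rcases la_zt (x 0) with h0 | h0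
    · left
      refine hB x (funext fun j => ?_)
      rw [hBx, hx, h0, zero_mul, add_zero]
      rfl
    · right
      have h1 : x + (fun _ => 1) = 0 := by
        refine hB _ (funext fun j => ?_)
        have e0 : (x + (fun _ => 1 : Fin (k + 1) → ZMod 2)) 0 = 0 := by
          show x 0 + 1 = 0
          rw [h0]
          exact CharTwo.add_self_eq_zero _
        rw [hBx, Matrix.mulVec_add, e0, zero_mul, add_zero]
        show (la_A p).mulVec x j + (la_A p).mulVec (fun _ => 1) j = 0
        rw [hx, la_row_one, add_zero]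
      funext j
      have h2 : x j + 1 = 0 := congrFun h1 j
      exact CharTwo.add_eq_zero.1 h2
  have hnoR : ∀ (x : Fin (k + 1) → ZMod 2), ¬ ∀ j, (la_A p).mulVec x j = lam (p j) := by
    intro x hx
    -- normalise
    have key : ∀ y : Fin (k + 1) → ZMod 2, (∀ j, (la_A p).mulVec y j = lam (p j)) → y 0 = 0 →
        False := by
      intro y hy hy0
      have h1 : y + Pi.single 0 1 = 0 := by
        refine hB _ (funext fun j => ?_)
        rw [Matrix.mulVec_add]
        show ((la_A p).updateCol 0 fun i => lam (p i)).mulVec y j +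
          ((la_A p).updateCol 0 fun i => lam (p i)).mulVec (Pi.single 0 1) j = 0
        rw [hBx, hy, hy0, zero_mul, add_zero, Matrix.mulVec_single_one, Matrix.col_apply,
          Matrix.updateCol_self]
        exact CharTwo.add_self_eq_zero _
      have h2 : y 0 + 1 = 0 := by
        have := congrFun h1 0
        simpa using this
      rw [hy0, zero_add] at h2
      exact one_ne_zero h2
    rcases la_zt (x 0) with h0 | h0
    · exact key x hx h0
    · refine key (x + fun _ => 1) (fun j => ?_) ?_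
      · rw [Matrix.mulVec_add]
        show (la_A p).mulVec x j + (la_A p).mulVec (fun _ => 1) j = lam (p j)
        rw [hx, la_row_one, add_zero]
      · show x 0 + 1 = 0
        rw [h0]
        exact CharTwo.add_self_eq_zero _
  have hx0 : ∀ d : ℕ, d ∣ m → la_x p d = 0 → d = 1 := by
    intro d hd hx
    rw [← la_prod hm.sqf hpr hinj hall hd hm0]
    refine Finset.prod_eq_one fun i _ => ?_
    rw [if_neg]
    intro h1
    have h2 : la_x p d i = 1 := if_pos h1
    rw [hx] at h2
    exact zero_ne_one h2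
  have hx1 : ∀ d : ℕ, d ∣ m → (la_x p d = fun _ => 1) → d = m := by
    intro d hd hx
    rw [← la_prod hm.sqf hpr hinj hall hd hm0, ← hprod]
    refine Finset.prod_congr rfl fun i _ => ?_
    rw [if_pos]
    by_contra h1
    have h2 : la_x p d i = 0 := if_neg h1
    rw [hx] at h2
    exact one_ne_zero h2
  refine ⟨fun d hd hKA => ?_, fun d hd hKT h16 => ?_, fun c hc hRA => ?_⟩
  · rcases hker (la_x p d) (fun j => la_sg_eq (by
      rw [la_Ax hm.sqf hpr hinj hpm hall hd hm0]
      split_ifs with h1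
      · exact (hKA (p j) (hpr j) (hpm j)).2 h1
      · exact (hKA (p j) (hpr j) (hpm j)).1 h1)) with h1 | h1
    · exact Or.inl (hx0 d hd h1)
    · exact Or.inr (hx1 d hd h1)
  · refine hx0 d hd (hBT _ (funext fun i => ?_))
    by_cases hi : i = 0
    · subst hi
      show ∑ j, la_x p d j * _ = 0
      have h1 : ∀ j, ((la_A p).updateCol 0 fun i => lam (p i)) j 0 = lam (p j) := fun j =>
        Matrix.updateCol_self
      simp only [h1]
      rcases la_mod16 p d (fun i => hm.pr _ (Nat.mem_primeFactors.2 ⟨hpr i, hpm i, hm0⟩))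
        univ with ⟨_, h2⟩ | ⟨h2, _⟩
      · exact h2
      · rw [la_prod hm.sqf hpr hinj hall hd hm0] at h2
        omega
    · have h1 : Matrix.vecMul (la_x p d) ((la_A p).updateCol 0 fun i => lam (p i)) i =
          Matrix.vecMul (la_x p d) (la_A p) i := la_BT _ _ _ i hi
      rw [h1]
      refine la_sg_eq ?_
      rw [la_xA hm.sqf hpr hinj hpm hall hd hm0 hprod]
      split_ifs with h2
      · exact (hKT (p i) (hpr i) (hpm i)).2 h2
      · exact (hKT (p i) (hpr i) (hpm i)).1 h2
  · refine hnoR (la_x p c) fun j => ?_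
    have h1 : la_sg ((la_A p).mulVec (la_x p c) j) = la_sg (lam (p j)) := by
      rw [la_Ax hm.sqf hpr hinj hpm hall hc hm0, la_lam]
      split_ifs with h1
      · exact (hRA (p j) (hpr j) (hpm j)).2 h1
      · exact (hRA (p j) (hpr j) (hpm j)).1 h1
    have h2 : ∀ x y : ZMod 2, la_sg x = la_sg y → x = y := by decide
    exact h2 _ _ h1

end Pool.Agent.RZ
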