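import Pool.Agent.RZ.Defs

set_option autoImplicit false

/-! The numbers of divisors with `A 1_d = 0` in the rows at the primes `1 mod 8`, respectively
supported at the primes `1 mod 8` with `A 1_d = 0`: kernels of a matrix over the field with two
elements and of its transpose (by reciprocity `(p/q) = (q/p)` if `p = 1 mod 8`).

Proof. `P₁`: primes of `m` that are `1 mod 8`, `P`: primes of `m`. Matrix `R : P₁ × P`,
`R_{pq} = [(q/p) = -1]`, `q ≠ p`, `R_pp = [((m/p)/p) = -1]`. Divisors `d ∣ m` are vectors in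
`P → ZMod 2`. `CS m d` iff `R x_d = 0`: number `2 ^ (t - ρ)`; supported on `P₁` with `KA m d` iff
`Rᵀ x_d = 0`, `x_d : P₁ → ZMod 2`: number `2 ^ (t1 - ρ)`, `ρ = rank R = rank Rᵀ`. -/

namespace Pool.Agent.RZ

open Finset

/-- sign -/
def lin_sg (x : ZMod 2) : ℤ := if x = 0 then 1 else -1

theorem lin_sg_add (x y : ZMod 2) : lin_sg (x + y) = lin_sg x * lin_sg y := by
  revert x y; decide

theorem lin_sg_zero : lin_sg 0 = 1 := by decide

theorem lin_sg_one : lin_sg 1 = -1 := by decide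

theorem lin_sg_iff {x : ZMod 2} : lin_sg x = 1 ↔ x = 0 := by
  revert x; decide

theorem lin_sg_sum {ι : Type*} (s : Finset ι) (f : ι → ZMod 2) :
    lin_sg (∑ i ∈ s, f i) = ∏ i ∈ s, lin_sg (f i) := by
  classical
  induction s using Finset.induction_on with
  | empty => simp [lin_sg_zero]
  | insert a s ha ih => rw [Finset.sum_insert ha, Finset.prod_insert ha, lin_sg_add, ih]

theorem lin_jac_prod {ι : Type*} (s : Finset ι) (f : ι → ℕ) (q : ℕ) :
    jacobiSym ((∏ i ∈ s, f i : ℕ) : ℤ) q = ∏ i ∈ s, jacobiSym (f i : ℤ) q := by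
  classical
  induction s using Finset.induction_on with
  | empty => simp [jacobiSym.one_left]
  | insert a s ha ih =>
    rw [Finset.prod_insert ha, Finset.prod_insert ha, Nat.cast_mul, jacobiSym.mul_left, ih]

/-- `1` when `i` is a nonresidue modulo `q` -/
def lin_e (q i : ℕ) : ZMod 2 := if jacobiSym (i : ℤ) q = -1 then 1 else 0

theorem lin_e_sg {q i : ℕ} (hq : q.Prime) (hi : i.Prime) (hne : i ≠ q) :
    jacobiSym (i : ℤ) q = lin_sg (lin_e q i) := by
  have h1 : jacobiSym (i : ℤ) q = 1 ∨ jacobiSym (i : ℤ) q = -1 := by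
    refine jacobiSym.eq_one_or_neg_one ?_
    rw [Int.isCoprime_iff_gcd_eq_one.symm.trans Nat.isCoprime_iff_coprime]
    exact (Nat.coprime_primes hi hq).2 hne
  unfold lin_e
  rcases h1 with h | h
  · rw [h, if_neg (by norm_num), lin_sg_zero]
  · rw [h, if_pos rfl, lin_sg_one]

/-- indicator -/
def lin_x (d q : ℕ) : ZMod 2 := if q ∣ d then 1 else 0

/-- the entry of `A 1_d` at `q` -/
def lin_F (m d q : ℕ) : ZMod 2 :=
  ∑ l ∈ m.primeFactors.erase q, lin_e q l * (lin_x d l + lin_x d q)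

section

variable {m : ℕ}

theorem lin_prod (hm : Squarefree m) (hm0 : m ≠ 0) {d : ℕ} (hd : d ∣ m) :
    ∏ q ∈ m.primeFactors, (if q ∣ d then q else 1) = d := by
  have hd0 : d ≠ 0 := fun h => hm0 (by rw [h] at hd; exact zero_dvd_iff.1 hd)
  rw [← Finset.prod_filter]
  conv_rhs => rw [← Nat.prod_primeFactors_of_squarefree (hm.squarefree_of_dvd hd)]
  refine Finset.prod_congr ?_ fun _ _ => rfl
  ext q
  rw [mem_filter, Nat.mem_primeFactors, Nat.mem_primeFactors]
  constructor
  · rintro ⟨⟨h1, _, _⟩, h2⟩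
    exact ⟨h1, h2, hd0⟩
  · rintro ⟨h1, h2, _⟩
    exact ⟨⟨h1, h2.trans hd, hm0⟩, h2⟩

theorem lin_dvd_div (hm : Squarefree m) {q d : ℕ} (hq : q.Prime) (hd : d ∣ m) (hm0 : m ≠ 0)
    (hqm : q ∣ m) : q ∣ m / d ↔ ¬ q ∣ d := by
  obtain ⟨e, rfl⟩ := hd
  have hd0 : 0 < d := Nat.pos_of_ne_zero (left_ne_zero_of_mul hm0)
  rw [Nat.mul_div_cancel_left _ hd0]
  constructor
  · intro h1 h2
    have h3 : q * q ∣ d * e := Nat.mul_dvd_mul h2 h1
    have h4 := hm q h3
    exact hq.one_lt.ne' (Nat.isUnit_iff.1 h4)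
  · intro h1
    exact (hq.dvd_mul.1 hqm).resolve_left h1

theorem lin_F_sg (hm : Squarefree m) (hm0 : m ≠ 0) {d : ℕ} (hd : d ∣ m) {q : ℕ}
    (hq : q ∈ m.primeFactors) :
    lin_sg (lin_F m d q) =
      if q ∣ d then jacobiSym ((m / d : ℕ) : ℤ) q else jacobiSym (d : ℤ) q := by
  have hqp := Nat.prime_of_mem_primeFactors hq
  unfold lin_F
  rw [lin_sg_sum]
  split_ifs with h
  · have h1 := lin_prod hm hm0 (Nat.div_dvd_of_dvd hd)
    rw [← Finset.mul_prod_erase _ _ hq, if_neg (fun h2 =>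
      (lin_dvd_div hm hqp hd hm0 (Nat.dvd_of_mem_primeFactors hq)).1 h2 h), one_mul] at h1
    conv_rhs => rw [← h1, lin_jac_prod]
    refine Finset.prod_congr rfl fun l hl => ?_
    rw [mem_erase] at hl
    have hlp := Nat.prime_of_mem_primeFactors hl.2
    have h3 := lin_dvd_div hm hlp hd hm0 (Nat.dvd_of_mem_primeFactors hl.2)
    have hx : lin_x d q = 1 := if_pos h
    rw [hx]
    by_cases h2 : l ∣ d
    · have hx2 : lin_x d l = 1 := if_pos h2
      rw [hx2, CharTwo.add_self_eq_zero, mul_zero, lin_sg_zero,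
        if_neg (fun h4 => h3.1 h4 h2), Nat.cast_one, jacobiSym.one_left]
    · have hx2 : lin_x d l = 0 := if_neg h2
      rw [hx2, if_pos (h3.2 h2), zero_add, mul_one, lin_e_sg hqp hlp hl.1]
  · have h1 := lin_prod hm hm0 hd
    rw [← Finset.mul_prod_erase _ _ hq, if_neg h, one_mul] at h1
    conv_rhs => rw [← h1, lin_jac_prod]
    refine Finset.prod_congr rfl fun l hl => ?_
    rw [mem_erase] at hl
    have hlp := Nat.prime_of_mem_primeFactors hl.2
    have hx : lin_x d q = 0 := if_neg h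
    rw [hx, add_zero]
    by_cases h2 : l ∣ d
    · have hx2 : lin_x d l = 1 := if_pos h2
      rw [hx2, if_pos h2, mul_one, lin_e_sg hqp hlp hl.1]
    · have hx2 : lin_x d l = 0 := if_neg h2
      rw [hx2, if_neg h2, mul_zero, lin_sg_zero, Nat.cast_one, jacobiSym.one_left]

theorem lin_row_iff (hm : Squarefree m) (hm0 : m ≠ 0) {d : ℕ} (hd : d ∣ m) {q : ℕ}
    (hq : q ∈ m.primeFactors) :
    lin_F m d q = 0 ↔ (¬ q ∣ d → jacobiSym (d : ℤ) q = 1) ∧
      (q ∣ d → jacobiSym ((m / d : ℕ) : ℤ) q = 1) := by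
  rw [← lin_sg_iff, lin_F_sg hm hm0 hd hq]
  split_ifs with h
  · exact ⟨fun h1 => ⟨fun h2 => absurd h h2, fun _ => h1⟩, fun h1 => h1.2 h⟩
  · exact ⟨fun h1 => ⟨fun _ => h1, fun h2 => absurd h2 h⟩, fun h1 => h1.1 h⟩

/-- primes `1` modulo `8` -/
def lin_P (m : ℕ) : Finset ℕ := m.primeFactors.filter (fun p => p % 8 = 1)

/-- the matrix -/
def lin_R (m : ℕ) : Matrix {x // x ∈ lin_P m} {x // x ∈ m.primeFactors} (ZMod 2) :=
  fun p q => if (q : ℕ) = p then ∑ l ∈ m.primeFactors.erase p, lin_e p l else lin_e p q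

theorem lin_CS (hm : Squarefree m) (hm0 : m ≠ 0) {d : ℕ} (hd : d ∣ m) :
    CS m d ↔ ∀ p ∈ lin_P m, lin_F m d p = 0 := by
  constructor
  · intro h p hp
    rw [lin_P, mem_filter] at hp
    exact (lin_row_iff hm hm0 hd hp.1).2 (h p (Nat.prime_of_mem_primeFactors hp.1)
      (Nat.dvd_of_mem_primeFactors hp.1) hp.2)
  · intro h p hp hpm hp8
    have hmem : p ∈ m.primeFactors := Nat.mem_primeFactors.2 ⟨hp, hpm, hm0⟩
    exact (lin_row_iff hm hm0 hd hmem).1 (h p (by rw [lin_P, mem_filter]; exact ⟨hmem, hp8⟩))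

theorem lin_KA (hm : Squarefree m) (hm0 : m ≠ 0) {d : ℕ} (hd : d ∣ m) :
    KA m d ↔ ∀ p ∈ m.primeFactors, lin_F m d p = 0 := by
  constructor
  · intro h p hp
    exact (lin_row_iff hm hm0 hd hp).2 (h p (Nat.prime_of_mem_primeFactors hp)
      (Nat.dvd_of_mem_primeFactors hp))
  · intro h p hp hpm
    have hmem : p ∈ m.primeFactors := Nat.mem_primeFactors.2 ⟨hp, hpm, hm0⟩
    exact (lin_row_iff hm hm0 hd hmem).1 (h p hmem)

theorem lin_mul (d : ℕ) (p : {x // x ∈ lin_P m}) :
    (lin_R m).mulVec (fun q => lin_x d q) p = lin_F m d p := by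
  have hp : (p : ℕ) ∈ m.primeFactors := (mem_filter.1 p.2).1
  have e1 : (lin_R m).mulVec (fun q => lin_x d q) p =
      ∑ q : {x // x ∈ m.primeFactors}, (if (q : ℕ) = p then
        ∑ l ∈ m.primeFactors.erase p, lin_e p l else lin_e p q) * lin_x d q := rfl
  rw [e1, Finset.sum_coe_sort m.primeFactors (fun q => (if q = p then
        ∑ l ∈ m.primeFactors.erase p, lin_e p l else lin_e p q) * lin_x d q),
    ← Finset.add_sum_erase _ _ hp, if_pos rfl, Finset.sum_mul, ← Finset.sum_add_distrib]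
  refine Finset.sum_congr rfl fun l hl => ?_
  rw [if_neg (mem_erase.1 hl).1]
  ring

theorem lin_e_symm (h8 : ∀ p ∈ m.primeFactors, p % 8 = 1 ∨ p % 8 = 7) {p q : ℕ}
    (hp : p ∈ lin_P m) (hq : q ∈ m.primeFactors) : lin_e p q = lin_e q p := by
  rw [lin_P, mem_filter] at hp
  have hqo : Odd q := by
    rcases h8 q hq with h | h <;> rw [Nat.odd_iff] <;> omega
  have h1 := jacobiSym.quadratic_reciprocity_one_mod_four (a := p) (b := q)
    (by have := hp.2; omega) hqo
  unfold lin_e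
  rw [h1]

theorem lin_mulT (h8 : ∀ p ∈ m.primeFactors, p % 8 = 1 ∨ p % 8 = 7) (d : ℕ)
    (hd : ∀ p : ℕ, p.Prime → p ∣ d → p % 8 = 1) (q : {x // x ∈ m.primeFactors}) :
    (lin_R m).transpose.mulVec (fun p => lin_x d p) q = lin_F m d q := by
  have e1 : (lin_R m).transpose.mulVec (fun p => lin_x d p) q =
      ∑ p : {x // x ∈ lin_P m}, (if (q : ℕ) = p then
        ∑ l ∈ m.primeFactors.erase (p : ℕ), lin_e p l else lin_e p q) * lin_x d p := rfl
  rw [e1, Finset.sum_coe_sort (lin_P m) (fun p => (if (q : ℕ) = p then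
        ∑ l ∈ m.primeFactors.erase p, lin_e p l else lin_e p q) * lin_x d p)]
  have e2 : ∑ p ∈ lin_P m, (if (q : ℕ) = p then
        ∑ l ∈ m.primeFactors.erase p, lin_e p l else lin_e p q) * lin_x d p =
      ∑ p ∈ m.primeFactors, (if (q : ℕ) = p then
        ∑ l ∈ m.primeFactors.erase p, lin_e p l else lin_e q p) * lin_x d p := by
    rw [lin_P, Finset.sum_filter]
    refine Finset.sum_congr rfl fun p hp => ?_
    split_ifs with h1 h2
    · rfl
    · rw [lin_e_symm h8 (by rw [lin_P, mem_filter]; exact ⟨hp, h1⟩) q.2]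
    · have hx : lin_x d p = 0 := if_neg fun h3 => h1 (hd p (Nat.prime_of_mem_primeFactors hp) h3)
      rw [hx, mul_zero]
    · have hx : lin_x d p = 0 := if_neg fun h3 => h1 (hd p (Nat.prime_of_mem_primeFactors hp) h3)
      rw [hx, mul_zero]
  rw [e2, ← Finset.add_sum_erase _ _ q.2, if_pos rfl, Finset.sum_mul, ← Finset.sum_add_distrib]
  refine Finset.sum_congr rfl fun l hl => ?_
  rw [if_neg (mem_erase.1 hl).1.symm]
  ring

/-- vector to divisor -/
theorem lin_back (hm : Squarefree m) (S : Finset ℕ) (hS : S ⊆ m.primeFactors) :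
    (∏ p ∈ S, p) ∣ m ∧ ∀ q : ℕ, q.Prime → (q ∣ ∏ p ∈ S, p ↔ q ∈ S) := by
  refine ⟨?_, fun q hq => ?_⟩
  · conv_rhs => rw [← Nat.prod_primeFactors_of_squarefree hm]
    exact Finset.prod_dvd_prod_of_subset _ _ _ hS
  · constructor
    · intro h
      obtain ⟨p, hp, hqp⟩ := (Prime.dvd_finsetProd_iff hq.prime _).1 h
      have := (Nat.prime_dvd_prime_iff_eq hq (Nat.prime_of_mem_primeFactors (hS hp))).1 hqp
      rwa [this]
    · intro h
      exact Finset.dvd_prod_of_mem _ h

theorem lin_ker_card {α β : Type} [Fintype α] [Fintype β] [DecidableEq α] [DecidableEq β]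
    (R : Matrix α β (ZMod 2)) :
    (univ.filter (fun x : β → ZMod 2 => R.mulVec x = 0)).card =
      2 ^ (Fintype.card β - R.rank) := by
  classical
  have h1 := LinearMap.finrank_range_add_finrank_ker R.mulVecLin
  rw [Module.finrank_fintype_fun_eq_card] at h1
  have h2 : R.rank = Module.finrank (ZMod 2) (LinearMap.range R.mulVecLin) := rfl
  have h3 : Fintype.card β - R.rank = Module.finrank (ZMod 2) (LinearMap.ker R.mulVecLin) := by
    omega
  rw [h3]
  have h4 : Fintype.card (LinearMap.ker R.mulVecLin) =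
      Fintype.card (ZMod 2) ^ Module.finrank (ZMod 2) (LinearMap.ker R.mulVecLin) :=
    Module.card_eq_pow_finrank
  rw [ZMod.card] at h4
  rw [← h4, Fintype.card_subtype]
  congr 1
  ext x
  rw [mem_filter, mem_filter, LinearMap.mem_ker, Matrix.mulVecLin_apply]

end

open Classical in
theorem card_lin {m : ℕ} (hm : Fam m) : ∃ ρ : ℕ, ρ ≤ t1 m ∧
    (m.divisors.filter (fun d => CS m d)).card = 2 ^ (m.primeFactors.card - ρ) ∧
    (m.divisors.filter (fun d => (∀ p : ℕ, p.Prime → p ∣ d → p % 8 = 1) ∧ KA m d)).card =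
      2 ^ (t1 m - ρ) := by
  have hm0 : m ≠ 0 := by have := hm.one_lt; omega
  have hsq := hm.sqf
  have hz : ∀ x : ZMod 2, x = 0 ∨ x = 1 := by decide
  have hc1 : Fintype.card {x // x ∈ lin_P m} = t1 m := by
    rw [Fintype.card_coe]; rfl
  have hc2 : Fintype.card {x // x ∈ m.primeFactors} = m.primeFactors.card := Fintype.card_coe _
  refine ⟨(lin_R m).rank, ?_, ?_, ?_⟩
  · have h1 := Matrix.rank_le_card_height (lin_R m)
    rwa [hc1] at h1
  · rw [← hc2, ← lin_ker_card (lin_R m)]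
    refine Finset.card_bij (fun d _ => fun q => lin_x d q) ?_ ?_ ?_
    · intro d hd
      rw [mem_filter, Nat.mem_divisors] at hd
      rw [mem_filter]
      refine ⟨mem_univ _, funext fun p => ?_⟩
      rw [lin_mul]
      exact (lin_CS hsq hm0 hd.1.1).1 hd.2 p p.2
    · intro d hd d' hd' hdd
      rw [mem_filter, Nat.mem_divisors] at hd hd'
      rw [← lin_prod hsq hm0 hd.1.1, ← lin_prod hsq hm0 hd'.1.1]
      refine Finset.prod_congr rfl fun q hq => ?_
      have h1 : lin_x d q = lin_x d' q := congrFun hdd ⟨q, hq⟩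
      unfold lin_x at h1
      by_cases h2 : q ∣ d <;> by_cases h3 : q ∣ d'
      · rw [if_pos h2, if_pos h3]
      · rw [if_pos h2, if_neg h3] at h1
        exact absurd h1 one_ne_zero
      · rw [if_neg h2, if_pos h3] at h1
        exact absurd h1.symm one_ne_zero
      · rw [if_neg h2, if_neg h3]
    · intro x hx
      rw [mem_filter] at hx
      set S : Finset ℕ := m.primeFactors.filter (fun q => ∃ h : q ∈ m.primeFactors, x ⟨q, h⟩ = 1)
        with hS
      obtain ⟨hb1, hb2⟩ := lin_back hsq S (filter_subset _ _)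
      have hxd : (fun q : {x // x ∈ m.primeFactors} => lin_x (∏ p ∈ S, p) q) = x := by
        funext q
        have hqp := Nat.prime_of_mem_primeFactors q.2
        unfold lin_x
        rcases hz (x q) with h | h
        · rw [if_neg, h]
          intro h1
          have h2 := (hb2 q hqp).1 h1
          rw [hS, mem_filter] at h2
          obtain ⟨_, h3, h4⟩ := h2
          have h5 : x q = 1 := h4
          rw [h] at h5
          exact zero_ne_one h5
        · rw [if_pos, h]
          refine (hb2 q hqp).2 ?_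
          rw [hS, mem_filter]
          exact ⟨q.2, q.2, h⟩
      refine ⟨∏ p ∈ S, p, ?_, hxd⟩
      rw [mem_filter, Nat.mem_divisors]
      refine ⟨⟨hb1, hm0⟩, (lin_CS hsq hm0 hb1).2 fun p hp => ?_⟩
      rw [← lin_mul (m := m) (∏ p ∈ S, p) ⟨p, hp⟩, hxd, hx.2]
      rfl
  · rw [← hc1, ← Matrix.rank_transpose, ← lin_ker_card (lin_R m).transpose]
    refine Finset.card_bij (fun d _ => fun q => lin_x d q) ?_ ?_ ?_
    · intro d hd
      rw [mem_filter, Nat.mem_divisors] at hd
      rw [mem_filter]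
      refine ⟨mem_univ _, funext fun p => ?_⟩
      rw [lin_mulT hm.pr d hd.2.1]
      exact (lin_KA hsq hm0 hd.1.1).1 hd.2.2 p p.2
    · intro d hd d' hd' hdd
      rw [mem_filter, Nat.mem_divisors] at hd hd'
      rw [← lin_prod hsq hm0 hd.1.1, ← lin_prod hsq hm0 hd'.1.1]
      refine Finset.prod_congr rfl fun q hq => ?_
      by_cases hq8 : q % 8 = 1
      · have h1 : lin_x d q = lin_x d' q :=
          congrFun hdd ⟨q, by rw [lin_P, mem_filter]; exact ⟨hq, hq8⟩⟩
        unfold lin_x at h1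
        by_cases h2 : q ∣ d <;> by_cases h3 : q ∣ d'
        · rw [if_pos h2, if_pos h3]
        · rw [if_pos h2, if_neg h3] at h1
          exact absurd h1 one_ne_zero
        · rw [if_neg h2, if_pos h3] at h1
          exact absurd h1.symm one_ne_zero
        · rw [if_neg h2, if_neg h3]
      · have hqp := Nat.prime_of_mem_primeFactors hq
        rw [if_neg (fun h => hq8 (hd.2.1 q hqp h)), if_neg (fun h => hq8 (hd'.2.1 q hqp h))]
    · intro x hx
      rw [mem_filter] at hx
      set S : Finset ℕ := (lin_P m).filter (fun q => ∃ h : q ∈ lin_P m, x ⟨q, h⟩ = 1)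
        with hS
      have hSP : S ⊆ lin_P m := filter_subset _ _
      have hPm : lin_P m ⊆ m.primeFactors := filter_subset _ _
      obtain ⟨hb1, hb2⟩ := lin_back hsq S (hSP.trans hPm)
      have hxd : (fun q : {x // x ∈ lin_P m} => lin_x (∏ p ∈ S, p) q) = x := by
        funext q
        have hqp := Nat.prime_of_mem_primeFactors (hPm q.2)
        unfold lin_x
        rcases hz (x q) with h | h
        · rw [if_neg, h]
          intro h1
          have h2 := (hb2 q hqp).1 h1
          rw [hS, mem_filter] at h2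
          obtain ⟨_, h3, h4⟩ := h2
          have h5 : x q = 1 := h4
          rw [h] at h5
          exact zero_ne_one h5
        · rw [if_pos, h]
          refine (hb2 q hqp).2 ?_
          rw [hS, mem_filter]
          exact ⟨q.2, q.2, h⟩
      have hsupp : ∀ p : ℕ, p.Prime → p ∣ ∏ p ∈ S, p → p % 8 = 1 := by
        intro p hp hpd
        have h1 := hSP ((hb2 p hp).1 hpd)
        rw [lin_P, mem_filter] at h1
        exact h1.2
      refine ⟨∏ p ∈ S, p, ?_, hxd⟩
      rw [mem_filter, Nat.mem_divisors]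
      refine ⟨⟨hb1, hm0⟩, hsupp, (lin_KA hsq hm0 hb1).2 fun p hp => ?_⟩
      rw [← lin_mulT hm.pr (∏ p ∈ S, p) hsupp ⟨p, hp⟩, hxd, hx.2]
      rfl

end Pool.Agent.RZ
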