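import Pool.Agent.RZ.Defs

set_option autoImplicit false

/-! `t = t1 + t7` and `t7` is even (`7 ^ t7 = 1 mod 8`). -/

namespace Pool.Agent.RZ

theorem t_eq {m : ℕ} (hm : Fam m) : m.primeFactors.card = t1 m + t7 m := by
  unfold t1 t7
  rw [← Finset.card_filter_add_card_filter_not (s := m.primeFactors) (fun p => p % 8 = 1)]
  congr 1
  congr 1
  refine Finset.filter_congr fun p hp => ?_
  have := hm.pr p hp
  omega

theorem t7_even {m : ℕ} (hm : Fam m) : Even (t7 m) := by
  have h1 : ((∏ p ∈ m.primeFactors, p : ℕ) : ZMod 8) = (m : ZMod 8) := by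
    rw [Nat.prod_primeFactors_of_squarefree hm.sqf]
  have h2 : ((m : ℕ) : ZMod 8) = 1 := by
    have := (ZMod.natCast_eq_natCast_iff' m 1 8).2 (by rw [hm.mod8])
    simpa using this
  rw [h2] at h1
  push_cast at h1
  have h3 : ∏ p ∈ m.primeFactors, (p : ZMod 8) =
      ∏ p ∈ m.primeFactors, (if p % 8 = 7 then (-1 : ZMod 8) else 1) := by
    refine Finset.prod_congr rfl fun p hp => ?_
    split_ifs with h
    · have := (ZMod.natCast_eq_natCast_iff' p 7 8).2 (by rw [h])
      rw [this]; decide
    · have h5 : p % 8 = 1 := by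
        have := hm.pr p hp
        omega
      have := (ZMod.natCast_eq_natCast_iff' p 1 8).2 (by rw [h5])
      simpa using this
  rw [h3, Finset.prod_ite, Finset.prod_const, Finset.prod_const_one, mul_one] at h1
  change (-1 : ZMod 8) ^ t7 m = 1 at h1
  rcases Nat.even_or_odd (t7 m) with h | h
  · exact h
  · rw [h.neg_one_pow] at h1
    exact absurd h1 (by decide)

end Pool.Agent.RZ
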