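import Pool.Agent.RZ.Defs

set_option autoImplicit false

/-! From local conditions for a signed factorisation `a D = m`, `D = 1 mod 8`, to `A^T 1_|D| = 0`
(quadratic reciprocity). -/

namespace Pool.Agent.RZ

private theorem sym_signs {m : ℕ} (hm : 0 < m) {a D : ℤ} (h : a * D = m) :
    a.natAbs * D.natAbs = m ∧
      ((D = (D.natAbs : ℤ) ∧ a = (a.natAbs : ℤ)) ∨ (D = -(D.natAbs : ℤ) ∧ a = -(a.natAbs : ℤ))) := by
  have h1 : a.natAbs * D.natAbs = m := by
    rw [← Int.natAbs_mul, h, Int.natAbs_natCast]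
  refine ⟨h1, ?_⟩
  have hpos : 0 < a * D := by rw [h]; exact_mod_cast hm
  rcases pos_and_pos_or_neg_and_neg_of_mul_pos hpos with ⟨ha, hD⟩ | ⟨ha, hD⟩
  · left; omega
  · right; omega

/-- `(D / p) = (p / |D|)` for `p ∤ D` as `D = 1 mod 4`; at `p ∣ D` the product is `(-a / p)`. -/
theorem kt_of {m : ℕ} (hm : Fam m) {a D : ℤ} (h : a * D = m) (h8 : D % 8 = 1)
    (h1 : ∀ p : ℕ, p.Prime → (p : ℤ) ∣ a → jacobiSym D p = 1)
    (h2 : ∀ p : ℕ, p.Prime → (p : ℤ) ∣ D → jacobiSym (-a) p = 1) : KT m D.natAbs := by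
  have hm0 : 0 < m := by have := hm.one_lt; omega
  obtain ⟨hmn, hs⟩ := sym_signs hm0 h
  set n := D.natAbs with hn
  set α := a.natAbs with hα
  have hnodd : n % 2 = 1 := by omega
  have hnO : Odd n := Nat.odd_iff.2 hnodd
  have hpodd : ∀ p : ℕ, p.Prime → p ∣ m → p % 2 = 1 := by
    intro p hp hpm
    rcases hp.eq_two_or_odd with h | h
    · subst h
      have := hm.mod8
      omega
    · exact h
  intro p hp hpm
  have hp2 := hpodd p hp hpm
  have hpO : Odd p := Nat.odd_iff.2 hp2
  have hp4 : p % 4 = 1 ∨ p % 4 = 3 := by omega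
  have hχ1 : p % 4 = 1 → ZMod.χ₄ (p : ZMod 4) = 1 := fun h => ZMod.χ₄_nat_one_mod_four h
  have hχ3 : p % 4 = 3 → ZMod.χ₄ (p : ZMod 4) = -1 := fun h => ZMod.χ₄_nat_three_mod_four h
  constructor
  · intro hpn
    have hpa : p ∣ α := by
      rw [← hmn] at hpm
      exact (hp.dvd_mul.1 hpm).resolve_right hpn
    have hpa' : (p : ℤ) ∣ a := Int.natCast_dvd.2 hpa
    have hJ := h1 p hp hpa'
    rcases hs with ⟨hD, ha⟩ | ⟨hD, ha⟩
    · rw [hD] at hJ
      rw [← jacobiSym.quadratic_reciprocity_one_mod_four (by omega) hpO]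
      exact hJ
    · rw [hD, jacobiSym.neg _ hpO] at hJ
      rcases hp4 with h4 | h4
      · rw [hχ1 h4, one_mul, jacobiSym.quadratic_reciprocity_one_mod_four' hnO h4] at hJ
        exact hJ
      · rw [hχ3 h4, jacobiSym.quadratic_reciprocity_three_mod_four (by omega) h4] at hJ
        rw [← hJ]; ring
  · intro hpn
    obtain ⟨k, hk⟩ := hpn
    have hp0 : 0 < p := hp.pos
    have hnk : n / p = k := by rw [hk]; exact Nat.mul_div_cancel_left k hp0
    have hmk : m / p = α * k := by
      rw [← hmn, hk]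
      rw [show α * (p * k) = p * (α * k) by ring]
      exact Nat.mul_div_cancel_left _ hp0
    rw [hnk, hmk]
    push_cast
    rw [jacobiSym.mul_left]
    have hkO : k % 2 = 1 := by
      have : (p * k) % 2 = 1 := by rw [← hk]; exact hnodd
      rw [Nat.mul_mod] at this
      rcases Nat.mod_two_eq_zero_or_one k with h | h
      · rw [h] at this; simp at this
      · exact h
    have hkodd : Odd k := Nat.odd_iff.2 hkO
    have hcop : Int.gcd (p : ℤ) (k : ℤ) = 1 := by
      rw [Int.gcd_natCast_natCast]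
      refine (Nat.Prime.coprime_iff_not_dvd hp).2 fun hpk => ?_
      have hsq : p * p ∣ m := by
        rw [← hmn, hk]
        exact Dvd.dvd.mul_left (mul_dvd_mul_left p hpk) α
      have := hm.sqf p hsq
      exact hp.one_lt.ne' (Nat.isUnit_iff.1 this)
    have hsq1 := jacobiSym.sq_one hcop
    have hpD : (p : ℤ) ∣ D := Int.natCast_dvd.2 ⟨k, hk⟩
    have hJ := h2 p hp hpD
    have hk4 : k % 4 = 1 ∨ k % 4 = 3 := by omega
    rcases hs with ⟨hD, ha⟩ | ⟨hD, ha⟩
    · have hn4 : (p * k) % 4 = 1 := by rw [← hk]; omega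
      rw [ha, jacobiSym.neg _ hpO] at hJ
      rcases hp4 with h4 | h4
      · rw [hχ1 h4, one_mul] at hJ
        rw [hJ, ← jacobiSym.quadratic_reciprocity_one_mod_four h4 hkodd]
        rw [one_mul, ← sq]
        exact hsq1
      · have hk3 : k % 4 = 3 := by
          rcases hk4 with h | h
          · rw [Nat.mul_mod, h4, h] at hn4; norm_num at hn4
          · exact h
        rw [hχ3 h4] at hJ
        have e := jacobiSym.quadratic_reciprocity_three_mod_four hk3 h4
        rw [e]
        have e2 : jacobiSym (α : ℤ) p = -1 := by linarith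
        rw [e2]
        linear_combination hsq1
    · have hn4 : (p * k) % 4 = 3 := by rw [← hk]; omega
      rw [ha, neg_neg] at hJ
      rw [hJ, one_mul]
      rcases hp4 with h4 | h4
      · rw [← jacobiSym.quadratic_reciprocity_one_mod_four h4 hkodd, ← sq]
        exact hsq1
      · have hk1 : k % 4 = 1 := by
          rcases hk4 with h | h
          · exact h
          · rw [Nat.mul_mod, h4, h] at hn4; norm_num at hn4
        rw [← jacobiSym.quadratic_reciprocity_one_mod_four' hpO hk1, ← sq]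
        exact hsq1

theorem nine_of {m : ℕ} (hm : Fam m) (hn : Nice m) {a D : ℤ} (h : a * D = m) (h8 : D % 8 = 1)
    (h1 : ∀ p : ℕ, p.Prime → (p : ℤ) ∣ a → jacobiSym D p = 1)
    (h2 : ∀ p : ℕ, p.Prime → (p : ℤ) ∣ D → jacobiSym (-a) p = 1) : D = 1 ∨ D % 16 = 9 := by
  have hm0 : 0 < m := by have := hm.one_lt; omega
  obtain ⟨hmn, hs⟩ := sym_signs hm0 h
  have hk := kt_of hm h h8 h1 h2
  by_cases h9 : D % 16 = 9
  · exact Or.inr h9
  · left
    have h16 : D % 16 = 1 := by omega
    have hd : D.natAbs ∣ m := ⟨a.natAbs, by rw [← hmn]; ring⟩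
    have := hn.kerT D.natAbs hd hk (by omega)
    omega

end Pool.Agent.RZ
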