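import Pool.Agent.RZ.BAS

set_option autoImplicit false

/-! The local conditions of `Sys` and `ker A = {1, m}` leave two special pairs of conics.

Proof. `2bX² = δcY² + dZ²`, `16ae² = dZ² - δcY²`; `(2/p) = 1` for all `p ∣ m`.
`p ∣ a`: `(bδc/p) = (bd/p) = 1`. `p ∣ b`: `(ad/p) = (-aδc/p) = 1`. `p ∣ c`: `(ab/p) = (bd/p) = 1`.
`p ∣ d`: `(-ab/p) = (bδc/p) = 1`. Hence `KA m (b c)` if `δ = 1`, `KA m (b d)` if `δ = -1`
(`m / (b c) = a d`, `m / (b d) = a c`), so by `Nice.ker` this number `w` is `1` or `m`.
`δ = 1`, `w = 1`: `Sys0 m a d`; `δ = -1`, `w = 1`: `Sys0 m (-a) (-c)` (exchange `Y`, `Z`);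
`δ = 1`, `w = m`: `Sys1 m b c`; `δ = -1`, `w = m`: `Sys1 m (-b) (-d)` (exchange `Y`, `Z`).
The residues modulo 8 follow from `bX² = dZ² = δcY² mod 8` with `X, Y, Z, b` odd. -/

namespace Pool.Agent.RZ

/-- an odd square is `1` modulo `8` -/
private theorem cas_sq8 {x : ℤ} (h : x % 2 = 1) : x ^ 2 % 8 = 1 := by
  obtain ⟨k, hk⟩ : ∃ k, x = 2 * k + 1 := ⟨x / 2, by omega⟩
  have h1 : ∃ j, k * (k + 1) = 2 * j := by
    rcases Int.emod_two_eq_zero_or_one k with h | h
    · obtain ⟨j, hj⟩ := Int.dvd_of_emod_eq_zero h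
      exact ⟨j * (k + 1), by rw [hj]; ring⟩
    · obtain ⟨j, hj⟩ : ∃ j, k = 2 * j + 1 := ⟨k / 2, by omega⟩
      exact ⟨k * (j + 1), by rw [hj]; ring⟩
  obtain ⟨j, hj⟩ := h1
  have : x ^ 2 = 8 * j + 1 := by rw [hk]; linear_combination 4 * hj
  omega

private theorem cas_odd {x y : ℤ} (h : IsCoprime x (2 * y)) : x % 2 = 1 := by
  rcases Int.emod_two_eq_zero_or_one x with h1 | h1
  · exfalso
    obtain ⟨u, v, huv⟩ := h
    obtain ⟨k, hk⟩ := Int.dvd_of_emod_eq_zero h1
    rw [hk] at huv
    have : 2 * (u * k + v * y) = 1 := by linear_combination huv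
    omega
  · exact h1

/-- `x z² = y² + 8 t`, `y` odd: `x = 1` modulo `8` -/
private theorem cas_one {x y z t : ℤ} (hy : y % 2 = 1) (h : x * z ^ 2 = y ^ 2 + 8 * t) :
    x % 8 = 1 := by
  have h1 := cas_sq8 hy
  have hz : z % 2 = 1 := by
    rcases Int.emod_two_eq_zero_or_one z with h2 | h2
    · exfalso
      obtain ⟨k, hk⟩ := Int.dvd_of_emod_eq_zero h2
      have : y ^ 2 = 2 * (2 * x * k ^ 2 - 4 * t) := by rw [hk] at h; linear_combination -h
      omega
    · exact h2
  have h2 := cas_sq8 hz
  obtain ⟨u, hu⟩ : ∃ u, z ^ 2 = 8 * u + 1 := ⟨z ^ 2 / 8, by omega⟩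
  obtain ⟨v, hv⟩ : ∃ v, y ^ 2 = 8 * v + 1 := ⟨y ^ 2 / 8, by omega⟩
  rw [hu, hv] at h
  have : x = 8 * (v + t - x * u) + 1 := by linear_combination h
  omega

/-- `x y² = z²  + 8 t`-type statement with `x y` odd on the left -/
private theorem cas_one' {x y z t : ℤ} (hy : (x * y) % 2 = 1) (h : x * y ^ 2 = z ^ 2 + 8 * t) :
    x % 8 = 1 := by
  have hz : z % 2 = 1 := by
    rcases Int.emod_two_eq_zero_or_one z with h2 | h2
    · exfalso
      obtain ⟨k, hk⟩ := Int.dvd_of_emod_eq_zero h2
      have h3 : (x * y) ^ 2 % 8 = 1 := cas_sq8 hy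
      have : (x * y) ^ 2 = 2 * (x * (2 * k ^ 2 + 4 * t)) := by
        rw [hk] at h
        linear_combination x * h
      omega
    · exact h2
  exact cas_one hz h

section
variable {m : ℕ} {δ : ℤ} {a b c d : ℕ} {X Y Z e : ℤ}

/-- the local conditions -/
private theorem cas_loc (hm : Fam m) (h : Sys m δ a b c d X Y Z e) {p : ℕ} (hp : p.Prime)
    (hpm : p ∣ m) :
    ((p : ℤ) ∣ a → jacobiSym (b * δ * c) p = 1 ∧ jacobiSym (b * d) p = 1) ∧
    ((p : ℤ) ∣ b → jacobiSym (a * d) p = 1 ∧ jacobiSym (-a * δ * c) p = 1) ∧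
    ((p : ℤ) ∣ c → jacobiSym (a * b) p = 1 ∧ jacobiSym (b * d) p = 1) ∧
    ((p : ℤ) ∣ d → jacobiSym (-a * b) p = 1 ∧ jacobiSym (b * δ * c) p = 1) := by
  have hpz : Prime (p : ℤ) := Nat.prime_iff_prime_int.1 hp
  have hp8 : p % 8 = 1 ∨ p % 8 = 7 :=
    hm.pr p (Nat.mem_primeFactors.2 ⟨hp, hpm, by have := hm.one_lt; omega⟩)
  have h2 := jac_two hp hp8
  have hp2 : ¬ (p : ℤ) ∣ 2 := by
    intro h3
    have h4 : p ∣ 2 := by exact_mod_cast h3
    have := Nat.le_of_dvd two_pos h4
    have := hp.two_le
    rcases hp8 with h5 | h5 <;> omega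
  have hcop := h.cop
  have hnot : ∀ x : ℤ, (p : ℤ) ∣ b * X → ¬ (p : ℤ) ∣ 2 * a * e := by
    intro _ h3 h4
    obtain ⟨u, v, huv⟩ := hcop
    have h5 : (p : ℤ) ∣ 1 := by
      rw [← huv]
      exact dvd_add (h3.mul_left u) (h4.mul_left v)
    exact hpz.not_isUnit (isUnit_of_dvd_one h5)
  have hnot' : (p : ℤ) ∣ 2 * a * e → ¬ (p : ℤ) ∣ b * X := fun h3 h4 => hnot 0 h4 h3
  -- extraction of the factor 2
  have hex : ∀ x : ℤ, jacobiSym (2 * x) p = 1 → jacobiSym x p = 1 := by
    intro x hx
    rwa [jacobiSym.mul_left, h2, one_mul] at hx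
  refine ⟨fun hd => ?_, fun hd => ?_, fun hd => ?_, fun hd => ?_⟩
  · have h3 : ¬ (p : ℤ) ∣ b * X := hnot' ((hd.mul_left 2).mul_right e)
    constructor
    · refine jac_one hp (y := Y) (z := b * X) h3 ?_
      have : (b : ℤ) * δ * c * Y ^ 2 - (b * X) ^ 2 = a * (-8 * b * e ^ 2) := by
        linear_combination (-b : ℤ) * h.e1
      rw [this]
      exact hd.mul_right _
    · refine jac_one hp (y := Z) (z := b * X) h3 ?_
      have : (b : ℤ) * d * Z ^ 2 - (b * X) ^ 2 = a * (8 * b * e ^ 2) := by
        linear_combination (-b : ℤ) * h.e2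
      rw [this]
      exact hd.mul_right _
  · have h3 : ¬ (p : ℤ) ∣ 2 * a * e := hnot 0 (hd.mul_right X)
    have h4 : ¬ (p : ℤ) ∣ 4 * a * e := by
      intro h5
      have h6 : (4 : ℤ) * a * e = 2 * (2 * a * e) := by ring
      rw [h6] at h5
      rcases hpz.dvd_or_dvd h5 with h7 | h7
      · exact hp2 h7
      · exact h3 h7
    constructor
    · apply hex
      refine jac_one hp (y := Z) (z := 4 * a * e) h4 ?_
      have : 2 * ((a : ℤ) * d) * Z ^ 2 - (4 * a * e) ^ 2 = b * (2 * a * X ^ 2) := by
        linear_combination (-2 * a : ℤ) * h.e2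
      rw [this]
      exact hd.mul_right _
    · apply hex
      refine jac_one hp (y := Y) (z := 4 * a * e) h4 ?_
      have : 2 * (-(a : ℤ) * δ * c) * Y ^ 2 - (4 * a * e) ^ 2 = b * (-2 * a * X ^ 2) := by
        linear_combination (2 * a : ℤ) * h.e1
      rw [this]
      exact hd.mul_right _
  · have h3 : ¬ (p : ℤ) ∣ b * X := by
      intro h5
      have h6 : (p : ℤ) ∣ 8 * a * e ^ 2 := by
        have : (8 : ℤ) * a * e ^ 2 = (b * X) * X - c * (δ * Y ^ 2) := by linear_combination -h.e1
        rw [this]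
        exact dvd_sub (h5.mul_right _) (hd.mul_right _)
      have h7 : (8 : ℤ) * a * e ^ 2 = 2 * (2 * (2 * a * e) * e) := by ring
      rw [h7] at h6
      rcases hpz.dvd_or_dvd h6 with h8 | h8
      · exact hp2 h8
      rcases hpz.dvd_or_dvd h8 with h9 | h9
      · rcases hpz.dvd_or_dvd h9 with h10 | h10
        · exact hp2 h10
        · exact hnot 0 h5 h10
      · exact hnot 0 h5 (h9.mul_left _)
    have h3' : ¬ (p : ℤ) ∣ 4 * a * e := by
      intro h5
      apply h3
      have h6 : (p : ℤ) ∣ (b * X) * X := by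
        have : (b : ℤ) * X * X = 4 * a * e * (2 * e) + c * (δ * Y ^ 2) := by
          linear_combination h.e1
        rw [this]
        exact dvd_add (h5.mul_right _) (hd.mul_right _)
      rcases hpz.dvd_or_dvd h6 with h7 | h7
      · exact h7
      · exact h7.mul_left _
    constructor
    · apply hex
      refine jac_one hp (y := X) (z := 4 * a * e) h3' ?_
      have : 2 * ((a : ℤ) * b) * X ^ 2 - (4 * a * e) ^ 2 = c * (2 * a * δ * Y ^ 2) := by
        linear_combination (2 * a : ℤ) * h.e1
      rw [this]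
      exact hd.mul_right _
    · apply hex
      refine jac_one hp (y := Z) (z := 2 * b * X) ?_ ?_
      · intro h5
        have : (2 : ℤ) * b * X = 2 * (b * X) := by ring
        rw [this] at h5
        rcases hpz.dvd_or_dvd h5 with h7 | h7
        · exact hp2 h7
        · exact h3 h7
      · have : 2 * ((b : ℤ) * d) * Z ^ 2 - (2 * b * X) ^ 2 = c * (-2 * b * δ * Y ^ 2) := by
          linear_combination (-2 * b : ℤ) * h.e1 + (-2 * b : ℤ) * h.e2
        rw [this]
        exact hd.mul_right _
  · have h3 : ¬ (p : ℤ) ∣ b * X := by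
      intro h5
      have h6 : (p : ℤ) ∣ 8 * a * e ^ 2 := by
        have : (8 : ℤ) * a * e ^ 2 = d * Z ^ 2 - (b * X) * X := by linear_combination h.e2
        rw [this]
        exact dvd_sub (hd.mul_right _) (h5.mul_right _)
      have h7 : (8 : ℤ) * a * e ^ 2 = 2 * (2 * (2 * a * e) * e) := by ring
      rw [h7] at h6
      rcases hpz.dvd_or_dvd h6 with h8 | h8
      · exact hp2 h8
      rcases hpz.dvd_or_dvd h8 with h9 | h9
      · rcases hpz.dvd_or_dvd h9 with h10 | h10
        · exact hp2 h10
        · exact hnot 0 h5 h10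
      · exact hnot 0 h5 (h9.mul_left _)
    have h3' : ¬ (p : ℤ) ∣ 4 * a * e := by
      intro h5
      apply h3
      have h6 : (p : ℤ) ∣ (b * X) * X := by
        have : (b : ℤ) * X * X = d * Z ^ 2 - 4 * a * e * (2 * e) := by
          linear_combination h.e2
        rw [this]
        exact dvd_sub (hd.mul_right _) (h5.mul_right _)
      rcases hpz.dvd_or_dvd h6 with h7 | h7
      · exact h7
      · exact h7.mul_left _
    constructor
    · apply hex
      refine jac_one hp (y := X) (z := 4 * a * e) h3' ?_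
      have : 2 * (-(a : ℤ) * b) * X ^ 2 - (4 * a * e) ^ 2 = d * (-2 * a * Z ^ 2) := by
        linear_combination (-2 * a : ℤ) * h.e2
      rw [this]
      exact hd.mul_right _
    · apply hex
      refine jac_one hp (y := Y) (z := 2 * b * X) ?_ ?_
      · intro h5
        have : (2 : ℤ) * b * X = 2 * (b * X) := by ring
        rw [this] at h5
        rcases hpz.dvd_or_dvd h5 with h7 | h7
        · exact hp2 h7
        · exact h3 h7
      · have : 2 * ((b : ℤ) * δ * c) * Y ^ 2 - (2 * b * X) ^ 2 = d * (-2 * b * Z ^ 2) := by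
          linear_combination (-2 * b : ℤ) * h.e1 + (-2 * b : ℤ) * h.e2
        rw [this]
        exact hd.mul_right _

/-- a common factor can be removed -/
private theorem cas_canc {p : ℕ} {x y z : ℤ} (h1 : jacobiSym (x * y) p = 1)
    (h2 : jacobiSym (y * z) p = 1) : jacobiSym (x * z) p = 1 := by
  have h3 : jacobiSym (x * y * (y * z)) p = 1 := by rw [jacobiSym.mul_left, h1, h2]; norm_num
  have e : x * y * (y * z) = x * z * (y * y) := by ring
  rw [e, jacobiSym.mul_left] at h3
  have hy : jacobiSym y p * jacobiSym y p = 1 := by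
    rw [jacobiSym.mul_left] at h1
    have : jacobiSym y p = 1 ∨ jacobiSym y p = -1 := by
      rcases jacobiSym.trichotomy y p with h | h | h
      · rw [h, mul_zero] at h1; exact absurd h1 (by norm_num)
      · exact Or.inl h
      · exact Or.inr h
    rcases this with h | h <;> rw [h] <;> norm_num
  rw [jacobiSym.mul_left y y, hy, mul_one] at h3
  exact h3

theorem sys_cases (hm : Fam m) (hn : Nice m)
    (h : Sys m δ a b c d X Y Z e) :
    (∃ a' X' Y' Z' e' : ℤ, Sys0 m a' (δ * c * d) X' Y' Z' e') ∨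
      (∃ b' X' Y' Z' e' : ℤ, Sys1 m b' (δ * c * d) X' Y' Z' e') := by
  have hm0 : 0 < m := by have := hm.one_lt; omega
  have habcd := h.prod
  have hpos : 0 < a ∧ 0 < b ∧ 0 < c ∧ 0 < d := by
    rw [← habcd] at hm0
    refine ⟨?_, ?_, ?_, ?_⟩ <;> rw [Nat.pos_iff_ne_zero] <;> rintro rfl <;> simp at hm0
  obtain ⟨ha, hb, hc, hd⟩ := hpos
  have hbXodd : ((b : ℤ) * X) % 2 = 1 := cas_odd (y := a * e) (by
    have := h.cop
    rwa [mul_assoc] at this)
  rcases h.sgn with rfl | rfl
  · -- `δ = 1`
    have hK : KA m (b * c) := by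
      intro p hp hpm
      obtain ⟨la, lb, lc, ld⟩ := cas_loc hm h hp hpm
      have hq : m / (b * c) = a * d := by
        rw [← habcd]
        have : a * b * c * d = (b * c) * (a * d) := by ring
        rw [this, Nat.mul_div_cancel_left _ (Nat.mul_pos hb hc)]
      rw [hq]
      have hor : p ∣ a ∨ p ∣ b ∨ p ∣ c ∨ p ∣ d := by
        rw [← habcd] at hpm
        rcases (Nat.Prime.dvd_mul hp).1 hpm with h1 | h1
        · rcases (Nat.Prime.dvd_mul hp).1 h1 with h2 | h2
          · rcases (Nat.Prime.dvd_mul hp).1 h2 with h3 | h3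
            · exact Or.inl h3
            · exact Or.inr (Or.inl h3)
          · exact Or.inr (Or.inr (Or.inl h2))
        · exact Or.inr (Or.inr (Or.inr h1))
      push_cast
      constructor
      · intro hnb
        rcases hor with h1 | h1 | h1 | h1
        · have := (la (by exact_mod_cast h1)).1
          rwa [mul_one] at this
        · exact absurd (h1.mul_right c) hnb
        · exact absurd (h1.mul_left b) hnb
        · have := (ld (by exact_mod_cast h1)).2
          rwa [mul_one] at this
      · intro hb'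
        rcases (Nat.Prime.dvd_mul hp).1 hb' with h1 | h1
        · exact (lb (by exact_mod_cast h1)).1
        · obtain ⟨h2, h3⟩ := lc (by exact_mod_cast h1)
          exact cas_canc h2 h3
    have hdvd : b * c ∣ m := ⟨a * d, by rw [← habcd]; ring⟩
    rcases hn.ker _ hdvd hK with hw | hw
    · -- `w = 1`
      left
      have hb1 : b = 1 := Nat.eq_one_of_mul_eq_one_right hw
      have hc1 : c = 1 := Nat.eq_one_of_mul_eq_one_left hw
      subst hb1; subst hc1
      have e1 := h.e1
      have e2 := h.e2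
      have hcop := h.cop
      push_cast at e1 e2 hcop hbXodd
      rw [one_mul] at e1 e2 hcop hbXodd
      refine ⟨a, X, Y, Z, e, ?_, ?_, ?_, ?_, hcop⟩
      · have : ((a * 1 * 1 * d : ℕ) : ℤ) = m := by exact_mod_cast habcd
        rw [← this]; push_cast; ring
      · have hd8 : (d : ℤ) % 8 = 1 :=
          cas_one (t := a * e ^ 2) (z := Z) hbXodd (by linear_combination -e2)
        have e3 : (1 : ℤ) * ((1 : ℕ) : ℤ) * d = d := by push_cast; ring
        rw [e3]
        exact hd8
      · linear_combination e1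
      · push_cast; linear_combination e2
    · -- `w = m`
      right
      have had : a * d = 1 := by
        have h1 : (b * c) * (a * d) = (b * c) * 1 := by
          rw [mul_one]
          conv_rhs => rw [hw, ← habcd]
          ring
        exact Nat.eq_of_mul_eq_mul_left (Nat.mul_pos hb hc) h1
      have ha1 : a = 1 := Nat.eq_one_of_mul_eq_one_right had
      have hd1 : d = 1 := Nat.eq_one_of_mul_eq_one_left had
      subst ha1; subst hd1
      have e1 := h.e1
      have e2 := h.e2
      have hcop := h.cop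
      push_cast at e1 e2 hcop
      refine ⟨b, X, Y, Z, e, ?_, ?_, ?_, ?_, hcop⟩
      · have : ((1 * b * c * 1 : ℕ) : ℤ) = m := by exact_mod_cast habcd
        rw [← this]; push_cast; ring
      · exact cas_one' (y := X) (z := Z) (t := -e ^ 2) hbXodd (by linear_combination e2)
      · push_cast; linear_combination e1
      · linear_combination e2
  · -- `δ = -1`
    have hK : KA m (b * d) := by
      intro p hp hpm
      obtain ⟨la, lb, lc, ld⟩ := cas_loc hm h hp hpm
      have hq : m / (b * d) = a * c := by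
        rw [← habcd]
        have : a * b * c * d = (b * d) * (a * c) := by ring
        rw [this, Nat.mul_div_cancel_left _ (Nat.mul_pos hb hd)]
      rw [hq]
      have hor : p ∣ a ∨ p ∣ b ∨ p ∣ c ∨ p ∣ d := by
        rw [← habcd] at hpm
        rcases (Nat.Prime.dvd_mul hp).1 hpm with h1 | h1
        · rcases (Nat.Prime.dvd_mul hp).1 h1 with h2 | h2
          · rcases (Nat.Prime.dvd_mul hp).1 h2 with h3 | h3
            · exact Or.inl h3
            · exact Or.inr (Or.inl h3)
          · exact Or.inr (Or.inr (Or.inl h2))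
        · exact Or.inr (Or.inr (Or.inr h1))
      push_cast
      constructor
      · intro hnb
        rcases hor with h1 | h1 | h1 | h1
        · exact (la (by exact_mod_cast h1)).2
        · exact absurd (h1.mul_right d) hnb
        · exact (lc (by exact_mod_cast h1)).2
        · exact absurd (h1.mul_left b) hnb
      · intro hb'
        rcases (Nat.Prime.dvd_mul hp).1 hb' with h1 | h1
        · have h2 := (lb (by exact_mod_cast h1)).2
          have e : -(a : ℤ) * -1 * c = a * c := by ring
          rwa [e] at h2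
        · obtain ⟨h2, h3⟩ := ld (by exact_mod_cast h1)
          have e : (b : ℤ) * -1 * c = b * (-c) := by ring
          rw [e] at h3
          have h4 := cas_canc h2 h3
          have e' : -(a : ℤ) * -c = a * c := by ring
          rwa [e'] at h4
    have hdvd : b * d ∣ m := ⟨a * c, by rw [← habcd]; ring⟩
    rcases hn.ker _ hdvd hK with hw | hw
    · -- `w = 1`
      left
      have hb1 : b = 1 := Nat.eq_one_of_mul_eq_one_right hw
      have hd1 : d = 1 := Nat.eq_one_of_mul_eq_one_left hw
      subst hb1; subst hd1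
      have e1 := h.e1
      have e2 := h.e2
      have hcop := h.cop
      push_cast at e1 e2 hcop hbXodd
      rw [one_mul] at e1 e2 hcop hbXodd
      refine ⟨-a, X, Z, Y, e, ?_, ?_, ?_, ?_, ?_⟩
      · have : ((a * 1 * c * 1 : ℕ) : ℤ) = m := by exact_mod_cast habcd
        rw [← this]; push_cast; ring
      · have hd8 : (-(c : ℤ)) % 8 = 1 :=
          cas_one (t := -a * e ^ 2) (z := Y) hbXodd (by linear_combination -e1)
        have e3 : (-1 : ℤ) * c * ((1 : ℕ) : ℤ) = -c := by push_cast; ring
        rw [e3]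
        exact hd8
      · linear_combination e2
      · push_cast; linear_combination e1
      · have e3 : 2 * (-(a : ℤ)) * e = -(2 * a * e) := by ring
        rw [e3]
        exact hcop.neg_right
    · -- `w = m`
      right
      have had : a * c = 1 := by
        have h1 : (b * d) * (a * c) = (b * d) * 1 := by
          rw [mul_one]
          conv_rhs => rw [hw, ← habcd]
          ring
        exact Nat.eq_of_mul_eq_mul_left (Nat.mul_pos hb hd) h1
      have ha1 : a = 1 := Nat.eq_one_of_mul_eq_one_right had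
      have hc1 : c = 1 := Nat.eq_one_of_mul_eq_one_left had
      subst ha1; subst hc1
      have e1 := h.e1
      have e2 := h.e2
      have hcop := h.cop
      push_cast at e1 e2 hcop
      refine ⟨-b, X, Z, Y, e, ?_, ?_, ?_, ?_, ?_⟩
      · have : ((1 * b * 1 * d : ℕ) : ℤ) = m := by exact_mod_cast habcd
        rw [← this]; push_cast; ring
      · refine cas_one' (y := X) (z := Y) (t := -e ^ 2) ?_ (by linear_combination -e1)
        have : -(b : ℤ) * X = -(b * X) := by ring
        rw [this]
        omega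
      · push_cast; linear_combination -e2
      · linear_combination -e1
      · have e3 : -(b : ℤ) * X = -(b * X) := by ring
        rw [e3]
        exact hcop.neg_left

end

end Pool.Agent.RZ
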