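import Pool.Agent.RZ.BAS
import Pool.Agent.H23.Selmer
import Pool.Agent.ShF.LOC
import Pool.Agent.ShF.QALPHA

set_option autoImplicit false

/-! The everywhere locally soluble classes of the curve, other inclusion.

Proof. Let `b = s 2^ε d`. Real: `M = 1, e = 0` if `b > 0`, `M = 0, e = 1` if `b < 0`.
`p = 2`: `d = ±1 mod 8`, `m = 1 mod 8`: `b` is a square times one of `1, -1, 2m, -2m`, which are
soluble over `ℚ`.
`p ∤ 2m`: `ShF.LOC.loc_good` with `A = 2m`, `B = -2m`. `p ∣ m`, `p ∤ d`: if `p = 7 mod 8`, `b` or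
`-4m²/b` is a square (`(-1/p) = -1`); if `p = 1 mod 8`, `(b/p) = (d/p) = 1`. `p ∣ d`: solution with
`N = 0`: `(2m/b)²` is a fourth power in `ℚ_p`, since `2m/b` is a unit at `p` and `2m/b` or `-2m/b` is a
square (`p = 7 mod 8`: always; `p = 1 mod 8`: `((m/d)/p) = 1`). -/

namespace Pool.Agent.RZ

open Pool.Agent.H23 Pool.Agent.ShF

section
variable {K : Type*} [Field K]

private lemma sl_neg {m b : ℤ} (hdb : b ∣ -4 * m ^ 2) (hb : (b : K) ≠ 0) {t : K}
    (h : -(b : K) = t ^ 2) : QSol K 0 (-4 * m ^ 2) b := by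
  obtain ⟨c, hc⟩ := hdb
  have hb0 : b ≠ 0 := by rintro rfl; simp at hb
  have h1 : (-4 * m ^ 2) / b = c := by rw [hc, Int.mul_ediv_cancel_left _ hb0]
  have h2 : (-4 * (m : K) ^ 2) = b * c := by exact_mod_cast congrArg (fun z : ℤ => (z : K)) hc
  have ht : t ≠ 0 := by
    rintro rfl
    rw [zero_pow two_ne_zero] at h
    exact hb (neg_eq_zero.1 h)
  refine ⟨2 * m / t, 0, 1, Or.inr one_ne_zero, ?_⟩
  rw [h1, div_pow, ← h]
  field_simp
  linear_combination h2

private lemma sl_zero {m b : ℤ} (hdb : b ∣ -4 * m ^ 2) (hb : (b : K) ≠ 0) {u τ : K}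
    (hτ : τ ^ 2 = 1) (h : τ * u ^ 2 * b = 2 * m) : QSol K 0 (-4 * m ^ 2) b := by
  obtain ⟨c, hc⟩ := hdb
  have hb0 : b ≠ 0 := by rintro rfl; simp at hb
  have h1 : (-4 * m ^ 2) / b = c := by rw [hc, Int.mul_ediv_cancel_left _ hb0]
  have h2 : (-4 * (m : K) ^ 2) = b * c := by exact_mod_cast congrArg (fun z : ℤ => (z : K)) hc
  refine ⟨0, u, 1, Or.inr one_ne_zero, ?_⟩
  rw [h1]
  apply mul_left_cancel₀ hb
  have h3 : (2 * (m : K)) ^ 2 = u ^ 4 * (b : K) ^ 2 := by
    rw [← h, mul_pow, mul_pow, hτ]; ring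
  push_cast
  linear_combination h2 + h3

end

private lemma sl_m1 {p : ℕ} [Fact p.Prime] (h : p % 8 = 1) : legendreSym p (-1) = 1 := by
  have hp2 : p ≠ 2 := by rintro rfl; norm_num at h
  rw [legendreSym.at_neg_one hp2]
  exact ZMod.χ₄_nat_one_mod_four (by omega)

private lemma sl_m7 {p : ℕ} [Fact p.Prime] (h : p % 8 = 7) : legendreSym p (-1) = -1 := by
  have hp2 : p ≠ 2 := by rintro rfl; norm_num at h
  rw [legendreSym.at_neg_one hp2]
  exact ZMod.χ₄_nat_three_mod_four (by omega)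

private lemma sl_leg {p : ℕ} [Fact p.Prime] {n : ℤ} (h : jacobiSym n p = 1) :
    legendreSym p n = 1 := by
  rw [jacobiSym.legendreSym.to_jacobiSym, h]

/-- for `p = 7 mod 8` a `p`-adic unit or its negative is a square -/
private lemma sl_pm {p : ℕ} [Fact p.Prime] (h8 : p % 8 = 7) {n : ℤ} (hn : ¬ (p : ℤ) ∣ n) :
    (∃ t : ℚ_[p], (n : ℚ_[p]) = t ^ 2) ∨ ∃ t : ℚ_[p], -(n : ℚ_[p]) = t ^ 2 := by
  have hp2 : p ≠ 2 := by rintro rfl; norm_num at h8
  have hn0 : (n : ZMod p) ≠ 0 := by rwa [Ne, ZMod.intCast_zmod_eq_zero_iff_dvd]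
  rcases legendreSym.eq_one_or_neg_one p hn0 with h1 | h1
  · exact Or.inl (padic_sq hp2 hn h1)
  · right
    have h2 : legendreSym p (-n) = 1 := by
      rw [show -n = -1 * n by ring, legendreSym.mul, h1, sl_m7 h8]; norm_num
    obtain ⟨t, ht⟩ := padic_sq hp2 (n := -n) (by rwa [dvd_neg]) h2
    exact ⟨t, by rw [← ht]; push_cast; ring⟩

theorem sel1_suf {m : ℕ} (hm : Fam m) {s : ℤ} {ε d : ℕ} (hs : s = 1 ∨ s = -1)
    (hε : ε = 0 ∨ ε = 1) (hd : d ∣ m) (hC : CS m d) :
    s * 2 ^ ε * (d : ℤ) ∈ Sel 0 (-4 * (m : ℤ) ^ 2) := by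
  have hm0 : m ≠ 0 := by have := hm.one_lt; omega
  obtain ⟨k, hk⟩ := hd
  have hd0 : d ≠ 0 := by rintro rfl; simp at hk; exact hm0 hk
  have hk0 : k ≠ 0 := by rintro rfl; simp at hk; exact hm0 hk
  have hkm : m / d = k := by rw [hk, Nat.mul_div_cancel_left _ (Nat.pos_of_ne_zero hd0)]
  have hmodd : m % 2 = 1 := by have := hm.mod8; omega
  have hdodd : d % 2 = 1 := by
    rcases Nat.mod_two_eq_zero_or_one d with h | h
    · exfalso
      have : m % 2 = 0 := by rw [hk, Nat.mul_mod, h]; simp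
      omega
    · exact h
  have hsq : s ^ 2 = 1 := by rcases hs with rfl | rfl <;> norm_num
  have hs0 : s ≠ 0 := by rcases hs with rfl | rfl <;> norm_num
  have hd8 := dvd_mod8 hm (d := (d : ℤ)) (by rw [hk]; push_cast; exact dvd_mul_right _ _)
  set b : ℤ := s * 2 ^ ε * (d : ℤ) with hb
  have hdb : b ∣ -4 * (m : ℤ) ^ 2 := by
    rcases hε with rfl | rfl
    · refine ⟨-4 * s * d * k ^ 2, ?_⟩
      rw [hb, hk]; push_cast
      linear_combination (4 * (d:ℤ) ^ 2 * k ^ 2) * hsq
    · refine ⟨-2 * s * d * k ^ 2, ?_⟩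
      rw [hb, hk]; push_cast
      linear_combination (4 * (d:ℤ) ^ 2 * k ^ 2) * hsq
  have hb0 : b ≠ 0 := by
    rw [hb]
    exact mul_ne_zero (mul_ne_zero hs0 (pow_ne_zero _ two_ne_zero)) (by exact_mod_cast hd0)
  have hbK : ∀ {K : Type} [Field K] [CharZero K], (b : K) ≠ 0 := by
    intro K _ _
    exact_mod_cast hb0
  -- the integer `w` with `w * b = 2 * m`
  obtain ⟨w, hw, hwe⟩ : ∃ w : ℤ, w * b = 2 * m ∧ w = s * 2 ^ (1 - ε) * k := by
    refine ⟨s * 2 ^ (1 - ε) * k, ?_, rfl⟩
    rw [hb, hk]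
    rcases hε with rfl | rfl
    · push_cast
      linear_combination (2 * (d:ℤ) * k) * hsq
    · push_cast
      linear_combination (2 * (d:ℤ) * k) * hsq
  refine ⟨?_, hdb, ?_, ?_⟩
  · rw [← Int.squarefree_natAbs, hb, Int.natAbs_mul, Int.natAbs_mul]
    have h1 : s.natAbs = 1 := by rcases hs with rfl | rfl <;> norm_num
    rw [h1, one_mul, Int.natAbs_pow]
    have hdsq : Squarefree d := hm.sqf.squarefree_of_dvd ⟨k, hk⟩
    rcases hε with rfl | rfl
    · simpa using hdsq
    · simp only [pow_one, Int.natAbs_natCast]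
      have : (2 : ℤ).natAbs = 2 := rfl
      rw [this, Nat.squarefree_mul_iff]
      refine ⟨?_, Nat.prime_two.squarefree, hdsq⟩
      rw [Nat.Prime.coprime_iff_not_dvd Nat.prime_two]
      omega
  · show QSol ℝ 0 (-4 * (m : ℤ) ^ 2) b
    rcases lt_or_gt_of_ne hb0 with h | h
    · have h' : (b : ℝ) < 0 := by exact_mod_cast h
      exact sl_neg hdb hbK (t := Real.sqrt (-b)) (by rw [Real.sq_sqrt (by linarith)])
    · have h' : (0 : ℝ) < b := by exact_mod_cast h
      exact loc_one (t := Real.sqrt b) (by rw [Real.sq_sqrt h'.le])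
  · intro p hp
    show QSol ℚ_[p] 0 (-4 * (m : ℤ) ^ 2) b
    have hpp : p.Prime := hp.1
    by_cases hp2 : p = 2
    · subst hp2
      -- `σ = s d = ±1 mod 8`
      rcases hε with rfl | rfl
      · have hbs : b = s * d := by rw [hb]; ring
        have h8 : b % 8 = 1 ∨ (-b) % 8 = 1 := by
          rw [hbs]
          rcases hs with rfl | rfl <;> omega
        rcases h8 with h8 | h8
        · obtain ⟨t, ht⟩ := padic_two_sq h8
          exact loc_one ht
        · obtain ⟨t, ht⟩ := padic_two_sq h8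
          exact sl_neg hdb hbK (t := t) (by rw [← ht]; push_cast; ring)
      · have hbs : b = 2 * (s * d) := by rw [hb]; ring
        have hm8 : ((m : ℤ)) % 8 = 1 := by have := hm.mod8; omega
        have hσ0 : ((s * d : ℤ) : ℚ_[2]) ≠ 0 := by
          have : s * (d:ℤ) ≠ 0 := mul_ne_zero hs0 (by exact_mod_cast hd0)
          exact_mod_cast this
        obtain ⟨τ, hτ, h8⟩ : ∃ τ : ℤ, τ ^ 2 = 1 ∧ (τ * (s * d) * m) % 8 = 1 := by
          have h9 : (s * d) % 8 = 1 ∨ (s * d) % 8 = 7 := by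
            rcases hs with rfl | rfl <;> omega
          rcases h9 with h9 | h9
          · refine ⟨1, by norm_num, ?_⟩
            rw [one_mul, Int.mul_emod, h9, hm8]; norm_num
          · refine ⟨-1, by norm_num, ?_⟩
            have : (-1 * (s * d)) % 8 = 1 := by omega
            rw [Int.mul_emod, this, hm8]; norm_num
        obtain ⟨t, ht⟩ := padic_two_sq h8
        refine sl_zero hdb hbK (u := t / ((s * d : ℤ) : ℚ_[2])) (τ := (τ : ℚ_[2]))
          (by exact_mod_cast hτ) ?_
        rw [div_pow, ← ht, hbs]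
        push_cast at hσ0 ⊢
        have hτ' : (τ : ℚ_[2]) ^ 2 = 1 := by exact_mod_cast hτ
        field_simp
        linear_combination hτ'
    have hpz : Prime (p : ℤ) := Nat.prime_iff_prime_int.mp hpp
    have hp2z : ¬ (p : ℤ) ∣ 2 := by
      intro h
      have h3 : p ∣ 2 := by exact_mod_cast h
      exact hp2 ((Nat.prime_dvd_prime_iff_eq hpp Nat.prime_two).1 h3)
    by_cases hpm : p ∣ m
    · have hp8 := hm.pr p (Nat.mem_primeFactors.2 ⟨hpp, hpm, hm0⟩)
      have hps : ¬ (p : ℤ) ∣ s := by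
        intro h
        have : (p : ℤ) ∣ 1 := by rw [← hsq]; exact dvd_pow h two_ne_zero
        exact hpz.not_isUnit (isUnit_of_dvd_one this)
      have h2n : ∀ n : ℕ, ¬ (p : ℤ) ∣ 2 ^ n := fun n h => hp2z (hpz.dvd_of_dvd_pow h)
      have hl2 : legendreSym p 2 = 1 := sl_leg (jac_two hpp hp8)
      have hls : p % 8 = 1 → legendreSym p s = 1 := by
        intro h
        rcases hs with rfl | rfl
        · exact legendreSym.at_one p
        · exact sl_m1 h
      have hl2n : ∀ n : ℕ, n = 0 ∨ n = 1 → legendreSym p (2 ^ n) = 1 := by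
        intro n hn
        rcases hn with rfl | rfl
        · rw [pow_zero]; exact legendreSym.at_one p
        · rw [pow_one]; exact hl2
      by_cases hpd : p ∣ d
      · -- solution with `N = 0`
        have hpk : ¬ (p : ℤ) ∣ k := by
          intro h
          have h' : p ∣ k := by exact_mod_cast h
          have h2 : p * p ∣ m := by rw [hk]; exact mul_dvd_mul hpd h'
          have := hm.sqf p h2
          exact hpp.one_lt.ne' (Nat.isUnit_iff.1 this)
        have hpw : ¬ (p : ℤ) ∣ w := by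
          rw [hwe]
          intro h
          rcases hpz.dvd_or_dvd h with h | h
          · rcases hpz.dvd_or_dvd h with h | h
            · exact hps h
            · exact h2n _ h
          · exact hpk h
        have hwK : (w : ℚ_[p]) * b = 2 * m := by exact_mod_cast congrArg (fun z : ℤ => (z : ℚ_[p])) hw
        rcases hp8 with hp8 | hp8
        · have hlw : legendreSym p w = 1 := by
            rw [hwe, legendreSym.mul, legendreSym.mul, hls hp8, hl2n _ (by omega)]
            have := (hC p hpp hpm hp8).2 hpd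
            rw [hkm] at this
            rw [sl_leg this]; norm_num
          obtain ⟨t, ht⟩ := padic_sq hp2 hpw hlw
          exact sl_zero hdb hbK (u := t) (τ := 1) (by norm_num) (by rw [← ht, one_mul, hwK]; push_cast; ring)
        · rcases sl_pm hp8 hpw with ⟨t, ht⟩ | ⟨t, ht⟩
          · exact sl_zero hdb hbK (u := t) (τ := 1) (by norm_num)
              (by rw [← ht, one_mul, hwK]; push_cast; ring)
          · exact sl_zero hdb hbK (u := t) (τ := -1) (by norm_num)
              (by rw [← ht]; push_cast; linear_combination hwK)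
      · have hpb : ¬ (p : ℤ) ∣ b := by
          rw [hb]
          intro h
          rcases hpz.dvd_or_dvd h with h | h
          · rcases hpz.dvd_or_dvd h with h | h
            · exact hps h
            · exact h2n _ h
          · exact hpd (by exact_mod_cast h)
        rcases hp8 with hp8 | hp8
        · have hlb : legendreSym p b = 1 := by
            rw [hb, legendreSym.mul, legendreSym.mul, hls hp8, hl2n _ hε]
            rw [sl_leg ((hC p hpp hpm hp8).1 hpd)]; norm_num
          obtain ⟨t, ht⟩ := padic_sq hp2 hpb hlb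
          exact loc_one ht
        · rcases sl_pm hp8 hpb with ⟨t, ht⟩ | ⟨t, ht⟩
          · exact loc_one ht
          · exact sl_neg hdb hbK ht
    · have hpmz : ¬ (p : ℤ) ∣ (m : ℤ) := by exact_mod_cast hpm
      have hA : ¬ (p : ℤ) ∣ 2 * m := fun h => (hpz.dvd_or_dvd h).elim hp2z hpmz
      have hB : ¬ (p : ℤ) ∣ -(2 * m) := by rwa [dvd_neg]
      have hAB : ¬ (p : ℤ) ∣ 2 * m - -(2 * m) := by
        rw [show (2 * (m:ℤ) - -(2 * m)) = 2 * (2 * m) by ring]
        exact fun h => (hpz.dvd_or_dvd h).elim hp2z hA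
      have e1 : (2 * (m:ℤ)) * -(2 * m) = -4 * (m:ℤ) ^ 2 := by ring
      have h := loc_good hp2 (A := 2 * (m:ℤ)) (B := -(2 * (m:ℤ))) (d := b) (by rw [e1]; exact hdb)
        hA hB hAB
      rw [e1, add_neg_cancel] at h
      exact h

end Pool.Agent.RZ
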