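import Pool.Agent.RZ.BAS
import Pool.Agent.H23.Selmer
import Pool.Agent.H35.Local

set_option autoImplicit false

/-! The everywhere locally soluble classes of the isogenous curve, one inclusion.

Proof. Real: `b > 0`. `p = 2`: if `b = 2c`, a primitive 2-adic solution of
`N² = 2cM⁴ + (8m²/c)e⁴` has `N = 2N₁`, `M = 2M₁`, `e` odd, `N₁² = 8cM₁⁴ + 2(m²/c)e⁴`, impossible
modulo 4. So `b = d ∣ m`, `d > 0`. `p ∣ m`, `p ∤ d`: a primitive `p`-adic solution of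
`N² = dM⁴ + (16m²/d)e⁴` has `N² = dM⁴ ≠ 0 mod p`, or `p ∣ M`, `p ∤ e`, `(N/p)² = 16(m/p)²/d e⁴ mod p`;
in both cases `(d/p) = 1`. `p ∣ d`: `p ∣ N`, so `u M⁴ + v e⁴ = 0 mod p`, `u = d/p`, `v = 16m²/(dp)`,
`M`, `e` units, `uv = (4m/p)²`: `-(4(m/p)/u)²` is a fourth power modulo `p`, hence `p = 1 mod 4`, so
`p = 1 mod 8`, `-1` is a fourth power, `±4(m/p)/u` is a square, `((m/d)/p) = 1`.
Tools: `Pool.Agent.H23.Local.qsol_norm`, `Pool.Agent.H35.Local.norm_form`. -/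

namespace Pool.Agent.RZ

open Pool.Agent.H23

theorem SL2_jac {p : ℕ} [Fact p.Prime] {x : ℤ} (hx : (x : ZMod p) ≠ 0)
    (h : IsSquare (x : ZMod p)) : jacobiSym x p = 1 := by
  rw [← jacobiSym.legendreSym.to_jacobiSym]
  exact (legendreSym.eq_one_iff p hx).mpr h

/-- the class is positive -/
theorem SL2_pos {b k : ℤ} (hbk : 0 < b * k)
    (h : ∃ N M e : ℝ, (M ≠ 0 ∨ e ≠ 0) ∧
      N ^ 2 = (b : ℝ) * M ^ 4 + ((0 : ℤ) : ℝ) * M ^ 2 * e ^ 2 + (k : ℝ) * e ^ 4) : 0 < b := by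
  by_contra hb
  have hb0 : b ≠ 0 := by rintro rfl; simp at hbk
  have hb1 : b < 0 := lt_of_le_of_ne (not_lt.mp hb) hb0
  have hk1 : k < 0 := by
    by_contra hk
    have := mul_nonneg (neg_nonneg.mpr hb1.le) (not_lt.mp hk)
    nlinarith
  obtain ⟨N, M, e, h0, h1⟩ := h
  have hb2 : (b : ℝ) < 0 := by exact_mod_cast hb1
  have hk2 : (k : ℝ) < 0 := by exact_mod_cast hk1
  have hN := sq_nonneg N
  have hM4 : 0 ≤ M ^ 4 := by positivity
  have he4 : 0 ≤ e ^ 4 := by positivity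
  rw [h1] at hN
  push_cast at hN
  rcases h0 with h0 | h0
  · have : 0 < M ^ 4 := by positivity
    nlinarith [mul_neg_of_neg_of_pos hb2 this, mul_nonpos_of_nonpos_of_nonneg hk2.le he4]
  · have : 0 < e ^ 4 := by positivity
    nlinarith [mul_neg_of_neg_of_pos hk2 this, mul_nonpos_of_nonpos_of_nonneg hb2.le hM4]

/-- the class is odd -/
theorem SL2_two {c k : ℤ} (hc : ¬ (2 : ℤ) ∣ c) (hk : ¬ (2 : ℤ) ∣ k)
    (h : ∃ N M e : Padic 2, (M ≠ 0 ∨ e ≠ 0) ∧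
      N ^ 2 = ((2 * c : ℤ) : Padic 2) * M ^ 4 + ((0 : ℤ) : Padic 2) * M ^ 2 * e ^ 2
        + ((8 * k : ℤ) : Padic 2) * e ^ 4) : False := by
  have : Fact (Nat.Prime 2) := ⟨Nat.prime_two⟩
  obtain ⟨N, M, e, h0, h1⟩ := h
  have hpp : Prime ((2 : ℕ) : ℤ_[2]) := PadicInt.prime_p
  have hp2 : Prime (2 : ℤ_[2]) := by exact_mod_cast hpp
  have h20 : (2 : ℤ_[2]) ≠ 0 := hp2.ne_zero
  have hdv : ∀ x : ℤ, (2 : ℤ_[2]) ∣ (x : ℤ_[2]) → (2 : ℤ) ∣ x := by
    intro x hx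
    have := (Pool.Agent.H35.dvd_int_iff (p := 2) (x := x)).mp (by exact_mod_cast hx)
    exact_mod_cast this
  rcases Pool.Agent.H35.norm_form h0 h1 with ⟨t, n, h2⟩ | ⟨t, n, ht, h2⟩
  · have hn : (2 : ℤ_[2]) ∣ n := by
      apply hp2.dvd_of_dvd_pow (n := 2)
      rw [h2]
      push_cast
      exact ⟨c + 4 * k * t ^ 4, by ring⟩
    obtain ⟨n', rfl⟩ := hn
    apply hc
    apply hdv
    refine ⟨n' ^ 2 - 2 * k * t ^ 4, ?_⟩
    push_cast at h2
    apply mul_left_cancel₀ h20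
    linear_combination -h2
  · obtain ⟨s, rfl⟩ : (2 : ℤ_[2]) ∣ t := by exact_mod_cast ht
    push_cast at h2
    have hn : (2 : ℤ_[2]) ∣ n := by
      apply hp2.dvd_of_dvd_pow (n := 2)
      rw [h2]
      exact ⟨16 * c * s ^ 4 + 4 * k, by ring⟩
    obtain ⟨n', rfl⟩ := hn
    have h3 : n' ^ 2 = 8 * c * s ^ 4 + 2 * k := by
      apply mul_left_cancel₀ h20
      apply mul_left_cancel₀ h20
      linear_combination h2
    have hn' : (2 : ℤ_[2]) ∣ n' := by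
      apply hp2.dvd_of_dvd_pow (n := 2)
      rw [h3]
      exact ⟨4 * c * s ^ 4 + k, by ring⟩
    obtain ⟨n'', rfl⟩ := hn'
    apply hk
    apply hdv
    refine ⟨n'' ^ 2 - 2 * c * s ^ 4, ?_⟩
    apply mul_left_cancel₀ h20
    linear_combination -h3

/-- primes of `m` outside `d` -/
theorem SL2_out {p : ℕ} [Fact p.Prime] (hp2 : ¬ (p : ℤ) ∣ 2) {d k l : ℤ} (hd : ¬ (p : ℤ) ∣ d)
    (hl : ¬ (p : ℤ) ∣ l) (hk : d * k = (4 * l) ^ 2)
    (h : ∃ N M e : Padic p, (M ≠ 0 ∨ e ≠ 0) ∧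
      N ^ 2 = (d : Padic p) * M ^ 4 + ((0 : ℤ) : Padic p) * M ^ 2 * e ^ 2
        + (((p : ℤ) ^ 2 * k : ℤ) : Padic p) * e ^ 4) : jacobiSym d p = 1 := by
  have hpp : Prime (p : ℤ_[p]) := PadicInt.prime_p
  have hpz : Prime (p : ℤ) := Nat.prime_iff_prime_int.mp (Fact.out : p.Prime)
  have hp0 : (p : ℤ_[p]) ≠ 0 := hpp.ne_zero
  have hd0 : (d : ZMod p) ≠ 0 := by rwa [Ne, ZMod.intCast_zmod_eq_zero_iff_dvd]
  obtain ⟨N, M, e, h0, h1⟩ := h
  apply SL2_jac hd0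
  rcases Pool.Agent.H35.norm_form h0 h1 with ⟨t, n, h2⟩ | ⟨t, n, ht, h2⟩
  · have h3 := congrArg (PadicInt.toZMod (p := p)) h2
    simp only [map_pow, map_add, map_mul, map_intCast] at h3
    push_cast at h3
    rw [CharP.cast_eq_zero (ZMod p) p] at h3
    exact ⟨PadicInt.toZMod n, by rw [← sq, h3]; ring⟩
  · obtain ⟨s, rfl⟩ := ht
    push_cast at h2
    have hn : (p : ℤ_[p]) ∣ n := by
      apply hpp.dvd_of_dvd_pow (n := 2)
      rw [h2]
      exact ⟨d * p ^ 3 * s ^ 4 + p * k, by ring⟩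
    obtain ⟨n', rfl⟩ := hn
    have h3 : n' ^ 2 = (d : ℤ_[p]) * p ^ 2 * s ^ 4 + (k : ℤ_[p]) := by
      apply mul_left_cancel₀ hp0
      apply mul_left_cancel₀ hp0
      linear_combination h2
    have h4 := congrArg (PadicInt.toZMod (p := p)) h3
    simp only [map_pow, map_add, map_mul, map_intCast, map_natCast] at h4
    rw [CharP.cast_eq_zero (ZMod p) p] at h4
    have h5 : (d : ZMod p) * (k : ZMod p) = (4 * (l : ZMod p)) ^ 2 := by exact_mod_cast congrArg (Int.cast : ℤ → ZMod p) hk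
    have hl0 : (l : ZMod p) ≠ 0 := by rwa [Ne, ZMod.intCast_zmod_eq_zero_iff_dvd]
    have h20 : (2 : ZMod p) ≠ 0 := by
      intro h
      apply hp2
      rw [← ZMod.intCast_zmod_eq_zero_iff_dvd]
      exact_mod_cast h
    have h40 : (4 : ZMod p) ≠ 0 := by
      have : (4 : ZMod p) = 2 * 2 := by norm_num
      rw [this]; exact mul_ne_zero h20 h20
    have hn0 : PadicInt.toZMod n' ≠ 0 := by
      intro h
      rw [h] at h4
      have hk0 : (k : ZMod p) = 0 := by linear_combination -h4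
      rw [hk0, mul_zero] at h5
      exact pow_ne_zero 2 (mul_ne_zero h40 hl0) h5.symm
    refine ⟨4 * (l : ZMod p) / PadicInt.toZMod n', ?_⟩
    rw [div_mul_div_comm, eq_div_iff (mul_ne_zero hn0 hn0)]
    linear_combination (d : ZMod p) * h4 + h5

/-- primes of `d` -/
theorem SL2_in {p : ℕ} [Fact p.Prime] (hp8 : p % 8 = 1 ∨ p % 8 = 7) {u w : ℤ}
    (hu : ¬ (p : ℤ) ∣ u) (hw : ¬ (p : ℤ) ∣ w)
    (h : ∃ N M e : Padic p, (M ≠ 0 ∨ e ≠ 0) ∧
      N ^ 2 = (((p : ℤ) * u : ℤ) : Padic p) * M ^ 4 + ((0 : ℤ) : Padic p) * M ^ 2 * e ^ 2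
        + (((p : ℤ) * (16 * u * w ^ 2) : ℤ) : Padic p) * e ^ 4) :
    p % 8 = 1 ∧ jacobiSym w p = 1 := by
  have hpp : Prime (p : ℤ_[p]) := PadicInt.prime_p
  have hpz : Prime (p : ℤ) := Nat.prime_iff_prime_int.mp (Fact.out : p.Prime)
  have hp0 : (p : ℤ_[p]) ≠ 0 := hpp.ne_zero
  have hu0 : (u : ZMod p) ≠ 0 := by rwa [Ne, ZMod.intCast_zmod_eq_zero_iff_dvd]
  have hw0 : (w : ZMod p) ≠ 0 := by rwa [Ne, ZMod.intCast_zmod_eq_zero_iff_dvd]
  have hp2 : ¬ (p : ℤ) ∣ 2 := by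
    intro h
    have h' : p ∣ 2 := by exact_mod_cast h
    have : p = 2 := (Nat.prime_dvd_prime_iff_eq Fact.out Nat.prime_two).mp h'
    omega
  have h20 : (2 : ZMod p) ≠ 0 := by
    intro h
    apply hp2
    rw [← ZMod.intCast_zmod_eq_zero_iff_dvd]
    exact_mod_cast h
  have h40 : (4 : ZMod p) ≠ 0 := by
    have : (4 : ZMod p) = 2 * 2 := by norm_num
    rw [this]; exact mul_ne_zero h20 h20
  obtain ⟨N, M, e, h0, h1⟩ := h
  rcases Pool.Agent.H35.norm_form h0 h1 with ⟨t, n, h2⟩ | ⟨t, n, ht, h2⟩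
  · push_cast at h2
    have hn : (p : ℤ_[p]) ∣ n := by
      apply hpp.dvd_of_dvd_pow (n := 2)
      rw [h2]
      exact ⟨u + 16 * u * w ^ 2 * t ^ 4, by ring⟩
    obtain ⟨n', rfl⟩ := hn
    have h3 : (p : ℤ_[p]) * n' ^ 2 = (u : ℤ_[p]) * (1 + (4 * w * t ^ 2) ^ 2) := by
      apply mul_left_cancel₀ hp0
      linear_combination h2
    have h4 := congrArg (PadicInt.toZMod (p := p)) h3
    simp only [map_pow, map_add, map_mul, map_intCast, map_natCast, map_one] at h4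
    rw [CharP.cast_eq_zero (ZMod p) p, zero_mul] at h4
    have h44 : PadicInt.toZMod (4 : ℤ_[p]) = (4 : ZMod p) := by
      have : (4 : ℤ_[p]) = ((4 : ℕ) : ℤ_[p]) := by norm_cast
      rw [this, map_natCast]; norm_cast
    rw [h44] at h4
    set T := PadicInt.toZMod t with hT
    have h5 : (4 * (w : ZMod p) * T ^ 2) ^ 2 = -1 := by
      have := (mul_eq_zero.mp h4.symm).resolve_left hu0
      linear_combination this
    have hT0 : T ≠ 0 := by
      intro h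
      rw [h] at h5
      have h6 : (1 : ZMod p) = 0 := by linear_combination h5
      exact one_ne_zero h6
    have hp4 : p % 4 ≠ 3 := by
      apply ZMod.exists_sq_eq_neg_one_iff.mp
      exact ⟨4 * (w : ZMod p) * T ^ 2, by rw [← sq, h5]⟩
    have hp1 : p % 8 = 1 := by omega
    refine ⟨hp1, ?_⟩
    apply SL2_jac hw0
    have hi0 : 4 * (w : ZMod p) * T ^ 2 ≠ 0 :=
      mul_ne_zero (mul_ne_zero h40 hw0) (pow_ne_zero 2 hT0)
    have hi : IsSquare (4 * (w : ZMod p) * T ^ 2) := by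
      rw [ZMod.euler_criterion p hi0]
      obtain ⟨j, hj⟩ : ∃ j, p / 2 = 2 * (2 * j) := ⟨p / 8, by omega⟩
      rw [hj, pow_mul, h5, pow_mul]
      norm_num
    obtain ⟨r, hr⟩ := hi
    refine ⟨r / (2 * T), ?_⟩
    rw [div_mul_div_comm, eq_div_iff (mul_ne_zero (mul_ne_zero h20 hT0) (mul_ne_zero h20 hT0))]
    linear_combination hr
  · exfalso
    obtain ⟨s, rfl⟩ := ht
    push_cast at h2
    have hn : (p : ℤ_[p]) ∣ n := by
      apply hpp.dvd_of_dvd_pow (n := 2)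
      rw [h2]
      exact ⟨u * (p * s) ^ 4 + 16 * u * w ^ 2, by ring⟩
    obtain ⟨n', rfl⟩ := hn
    have h3 : (p : ℤ_[p]) * (n' ^ 2 - u * p ^ 3 * s ^ 4) = ((16 * u * w ^ 2 : ℤ) : ℤ_[p]) := by
      apply mul_left_cancel₀ hp0
      push_cast
      linear_combination h2
    have h4 : (p : ℤ) ∣ 16 * u * w ^ 2 :=
      (Pool.Agent.H35.dvd_int_iff (p := p)).mp ⟨_, h3.symm⟩
    rcases hpz.dvd_or_dvd h4 with h5 | h5
    · rcases hpz.dvd_or_dvd h5 with h6 | h6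
      · apply hp2
        apply hpz.dvd_of_dvd_pow (n := 4)
        norm_num
        exact h6
      · exact hu h6
    · exact hw (hpz.dvd_of_dvd_pow h5)

theorem sel2_nec {m : ℕ} (hm : Fam m) {b : ℤ} (hb : b ∈ Sel 0 (16 * (m : ℤ) ^ 2)) :
    ∃ d : ℕ, d ∣ m ∧ b = d ∧ (∀ p : ℕ, p.Prime → p ∣ d → p % 8 = 1) ∧ KA m d := by
  obtain ⟨hsq, hdvd, hreal, hloc⟩ := hb
  have hm0 : (m : ℤ) ≠ 0 := by have := hm.one_lt; omega
  have hmodd : ¬ (2 : ℤ) ∣ (m : ℤ) := by have := hm.mod8; omega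
  obtain ⟨k, hk⟩ := hdvd
  have hb0 : b ≠ 0 := hsq.ne_zero
  have hdiv : 16 * (m : ℤ) ^ 2 / b = k := by rw [hk]; exact Int.mul_ediv_cancel_left _ hb0
  rw [hdiv] at hreal hloc
  have hpos : 0 < b := SL2_pos (k := k) (by rw [← hk]; positivity) hreal
  have hbodd : ¬ (2 : ℤ) ∣ b := by
    rintro ⟨c, rfl⟩
    have hc : ¬ (2 : ℤ) ∣ c := by
      rintro ⟨c', rfl⟩
      have := hsq 2 ⟨c', by ring⟩
      exact absurd (Int.isUnit_iff.mp this) (by norm_num)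
    have h8 : (8 : ℤ) ∣ k := by
      have h1 : IsCoprime (8 : ℤ) c := by
        have h2 : IsCoprime (2 : ℤ) c := (Int.prime_two.coprime_iff_not_dvd).mpr hc
        have := h2.pow_left (m := 3)
        norm_num at this
        exact this
      apply h1.dvd_of_dvd_mul_left
      exact ⟨(m : ℤ) ^ 2, by linarith⟩
    obtain ⟨k', rfl⟩ := h8
    have hk' : ¬ (2 : ℤ) ∣ k' := by
      intro h
      apply hmodd
      apply Int.prime_two.dvd_of_dvd_pow (n := 2)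
      have h3 : (m : ℤ) ^ 2 = c * k' := by linarith
      rw [h3]
      exact h.mul_left c
    have : Fact (Nat.Prime 2) := ⟨Nat.prime_two⟩
    exact SL2_two hc hk' (hloc 2)
  have hbm : b ∣ (m : ℤ) := by
    have h1 : b ∣ (4 * (m : ℤ)) ^ 2 := ⟨k, by rw [← hk]; ring⟩
    have h2 : b ∣ 4 * (m : ℤ) := (hsq.dvd_pow_iff_dvd (by norm_num)).mp h1
    have h3 : IsCoprime b (4 : ℤ) := by
      have h4 : IsCoprime (2 : ℤ) b := (Int.prime_two.coprime_iff_not_dvd).mpr hbodd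
      have := (h4.pow_left (m := 2)).symm
      norm_num at this
      exact this
    exact h3.dvd_of_dvd_mul_left h2
  obtain ⟨d, rfl⟩ : ∃ d : ℕ, b = d := ⟨b.toNat, by omega⟩
  have hdm : d ∣ m := by exact_mod_cast hbm
  have hd0 : d ≠ 0 := by rintro rfl; simp at hb0
  have hsq' : Squarefree m := hm.sqf
  -- inner primes
  have hin : ∀ p : ℕ, p.Prime → p ∣ d → p % 8 = 1 ∧ jacobiSym ((m / d : ℕ) : ℤ) p = 1 := by
    intro p hp hpd
    have : Fact p.Prime := ⟨hp⟩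
    have hp8 : p % 8 = 1 ∨ p % 8 = 7 :=
      hm.pr p (Nat.mem_primeFactors.mpr ⟨hp, hpd.trans hdm, by exact_mod_cast hm0⟩)
    obtain ⟨w, hw⟩ := hdm
    obtain ⟨u, hu⟩ := hpd
    have hmd : m / d = w := by rw [hw]; exact Nat.mul_div_cancel_left _ (Nat.pos_of_ne_zero hd0)
    rw [hmd]
    have hpu : ¬ (p : ℤ) ∣ (u : ℤ) := by
      intro h
      have h' : p ∣ u := by exact_mod_cast h
      obtain ⟨u', rfl⟩ := h'
      have h1 : p * p ∣ m := ⟨u' * w, by rw [hw, hu]; ring⟩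
      exact hp.one_lt.ne' (Nat.isUnit_iff.mp (hsq' p h1))
    have hpw : ¬ (p : ℤ) ∣ (w : ℤ) := by
      intro h
      have h' : p ∣ w := by exact_mod_cast h
      obtain ⟨w', rfl⟩ := h'
      have h1 : p * p ∣ m := ⟨u * w', by rw [hw, hu]; ring⟩
      exact hp.one_lt.ne' (Nat.isUnit_iff.mp (hsq' p h1))
    have hk2 : k = (p : ℤ) * (16 * u * w ^ 2) := by
      have hmz : (m : ℤ) = (d : ℤ) * w := by exact_mod_cast hw
      have hdz : (d : ℤ) = (p : ℤ) * u := by exact_mod_cast hu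
      rw [hmz] at hk
      apply mul_left_cancel₀ hb0
      rw [← hk, hdz]
      ring
    have hl := hloc p
    rw [hk2] at hl
    have hdz : (d : ℤ) = (p : ℤ) * u := by exact_mod_cast hu
    rw [hdz] at hl
    exact SL2_in hp8 hpu hpw hl
  refine ⟨d, hdm, rfl, fun p hp hpd => (hin p hp hpd).1, ?_⟩
  intro p hp hpm
  refine ⟨fun hpd => ?_, fun hpd => (hin p hp hpd).2⟩
  have : Fact p.Prime := ⟨hp⟩
  have hp8 : p % 8 = 1 ∨ p % 8 = 7 :=
    hm.pr p (Nat.mem_primeFactors.mpr ⟨hp, hpm, by exact_mod_cast hm0⟩)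
  have hp2 : ¬ (p : ℤ) ∣ 2 := by
    intro h
    have h' : p ∣ 2 := by exact_mod_cast h
    have : p = 2 := (Nat.prime_dvd_prime_iff_eq Fact.out Nat.prime_two).mp h'
    omega
  have hpd' : ¬ (p : ℤ) ∣ (d : ℤ) := by
    intro h; exact hpd (by exact_mod_cast h)
  obtain ⟨l, hl⟩ := hpm
  have hpl : ¬ (p : ℤ) ∣ (l : ℤ) := by
    intro h
    have h' : p ∣ l := by exact_mod_cast h
    obtain ⟨l', rfl⟩ := h'
    have h1 : p * p ∣ m := ⟨l', by rw [hl]; ring⟩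
    exact hp.one_lt.ne' (Nat.isUnit_iff.mp (hsq' p h1))
  have hmz : (m : ℤ) = (p : ℤ) * l := by exact_mod_cast hl
  have hpz : Prime (p : ℤ) := Nat.prime_iff_prime_int.mp hp
  have hpk : (p : ℤ) ^ 2 ∣ k := by
    have h1 : IsCoprime ((p : ℤ) ^ 2) (d : ℤ) :=
      ((hpz.coprime_iff_not_dvd).mpr hpd').pow_left
    apply h1.dvd_of_dvd_mul_left
    rw [← hk, hmz]
    exact ⟨16 * (l : ℤ) ^ 2, by ring⟩
  obtain ⟨k', rfl⟩ := hpk
  have hk' : (d : ℤ) * k' = (4 * (l : ℤ)) ^ 2 := by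
    have hp0 : (p : ℤ) ^ 2 ≠ 0 := pow_ne_zero 2 hpz.ne_zero
    apply mul_left_cancel₀ hp0
    rw [hmz] at hk
    linear_combination -hk
  exact SL2_out hp2 hpd' hpl hk' (hloc p)

end Pool.Agent.RZ
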