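import Pool.Agent.RZ.BAS
import Pool.Agent.H23.Selmer
import Pool.Agent.ShF.LOC
import Pool.Agent.ShF.QALPHA

set_option autoImplicit false

/-! The everywhere locally soluble classes of the isogenous curve, other inclusion.

Proof. Real: `d > 0`, take `M = 1, e = 0`. `p = 2`: `d = 1 mod 8` is a 2-adic square
(`padic_two_sq`). `p ∣ m`, `p ∤ d`: `(d/p) = 1`, `d` is a `p`-adic square (`padic_sq`). `p ∣ d`
(`p = 1 mod 8`): `-(4m/d)²` is a fourth power in `ℚ_p`, as `4m/d` is a nonzero square and `-1` a fourth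
power: solution with `N = 0`, `e = 1`. `p ∤ 2m`: if `(d/p) = 1` clear; otherwise by
`ShF.CONIC.exists_nonres` with `a = 0`, `b = 16m²` there is a nonresidue `x` with `x(x² + 16m²)` a square
modulo `p`. If it is not `0`, then `x = d M²` and lift (compare `ShF.LOC.loc_good`). If it is `0`, then
`-1` is a square, `-4 = (1 + i)⁴`, and `2 m d` is a square: solution with `N = 0`. -/

namespace Pool.Agent.RZ

open Pool.Agent.H23 Pool.Agent.ShF

section
variable {K : Type*} [Field K]

private lemma s2_gen {m b : ℤ} (hdb : b ∣ 16 * m ^ 2) (hb : (b : K) ≠ 0) {M N : K}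
    (h : (b : K) * N ^ 2 = (b * M ^ 2) ^ 2 + 16 * m ^ 2) : QSol K 0 (16 * m ^ 2) b := by
  obtain ⟨c, hc⟩ := hdb
  have hb0 : b ≠ 0 := by rintro rfl; simp at hb
  have h1 : (16 * m ^ 2) / b = c := by rw [hc, Int.mul_ediv_cancel_left _ hb0]
  have h2 : (16 * (m : K) ^ 2) = b * c := by exact_mod_cast congrArg (fun z : ℤ => (z : K)) hc
  refine ⟨N, M, 1, Or.inr one_ne_zero, ?_⟩
  rw [h1]
  apply mul_left_cancel₀ hb
  rw [h]
  push_cast
  linear_combination h2

end

private lemma s2_leg {p : ℕ} [Fact p.Prime] {n : ℤ} (h : jacobiSym n p = 1) :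
    legendreSym p n = 1 := by
  rw [jacobiSym.legendreSym.to_jacobiSym, h]

private lemma s2_mod8 (n : ℕ) (hn : n ≠ 0) (h : ∀ p : ℕ, p.Prime → p ∣ n → p % 8 = 1) :
    n % 8 = 1 := by
  induction n using induction_on_primes with
  | zero => exact absurd rfl hn
  | one => rfl
  | prime_mul p a hp ih =>
    have ha : a ≠ 0 := by rintro rfl; simp at hn
    have h1 := h p hp (dvd_mul_right _ _)
    have h2 := ih ha (fun q hq hqa => h q hq (hqa.mul_left p))
    rw [Nat.mul_mod, h1, h2]

theorem sel2_suf {m : ℕ} (hm : Fam m) {d : ℕ} (hd : d ∣ m)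
    (h1 : ∀ p : ℕ, p.Prime → p ∣ d → p % 8 = 1) (hK : KA m d) :
    (d : ℤ) ∈ Sel 0 (16 * (m : ℤ) ^ 2) := by
  have hm0 : m ≠ 0 := by have := hm.one_lt; omega
  have hdm := hd
  obtain ⟨k, hk⟩ := hd
  have hd0 : d ≠ 0 := by rintro rfl; simp at hk; exact hm0 hk
  have hk0 : k ≠ 0 := by rintro rfl; simp at hk; exact hm0 hk
  have hkm : m / d = k := by rw [hk, Nat.mul_div_cancel_left _ (Nat.pos_of_ne_zero hd0)]
  have hdb : (d : ℤ) ∣ 16 * (m : ℤ) ^ 2 := by
    refine ⟨16 * d * k ^ 2, ?_⟩
    rw [hk]; push_cast; ring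
  have hdz : (d : ℤ) ≠ 0 := by exact_mod_cast hd0
  have hbK : ∀ {K : Type} [Field K] [CharZero K], ((d : ℤ) : K) ≠ 0 := by
    intro K _ _
    exact_mod_cast hdz
  refine ⟨?_, hdb, ?_, ?_⟩
  · rw [Int.squarefree_natCast]
    exact hm.sqf.squarefree_of_dvd hdm
  · show QSol ℝ 0 (16 * (m : ℤ) ^ 2) (d : ℤ)
    have h' : (0 : ℝ) < ((d : ℤ) : ℝ) := by
      exact_mod_cast Nat.pos_of_ne_zero hd0
    exact loc_one (t := Real.sqrt ((d : ℤ) : ℝ)) (by rw [Real.sq_sqrt h'.le])
  · intro p hp
    show QSol ℚ_[p] 0 (16 * (m : ℤ) ^ 2) (d : ℤ)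
    have hpp : p.Prime := hp.1
    by_cases hp2 : p = 2
    · subst hp2
      have h8 : (d : ℤ) % 8 = 1 := by have := s2_mod8 d hd0 h1; omega
      obtain ⟨t, ht⟩ := padic_two_sq h8
      exact loc_one ht
    have hpz : Prime (p : ℤ) := Nat.prime_iff_prime_int.mp hpp
    have hp2z : ¬ (p : ℤ) ∣ 2 := by
      intro h
      have h3 : p ∣ 2 := by exact_mod_cast h
      exact hp2 ((Nat.prime_dvd_prime_iff_eq hpp Nat.prime_two).1 h3)
    have hz : ∀ n : ℤ, ¬ (p : ℤ) ∣ n → (n : ZMod p) ≠ 0 := by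
      intro n hn
      rwa [Ne, ZMod.intCast_zmod_eq_zero_iff_dvd]
    by_cases hpm : p ∣ m
    · by_cases hpd : p ∣ d
      · have hp8 := h1 p hpp hpd
        have hpk : ¬ (p : ℤ) ∣ k := by
          intro h
          have h' : p ∣ k := by exact_mod_cast h
          have h2 : p * p ∣ m := by rw [hk]; exact mul_dvd_mul hpd h'
          have := hm.sqf p h2
          exact hpp.one_lt.ne' (Nat.isUnit_iff.1 this)
        have hlk : legendreSym p k = 1 := by
          have := (hK p hpp hpm).2 hpd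
          rw [hkm] at this
          exact s2_leg this
        have hl2 : legendreSym p 2 = 1 := s2_leg (jac_two hpp (Or.inl hp8))
        have hl1 : legendreSym p (-1) = 1 := by
          rw [legendreSym.at_neg_one hp2]
          exact ZMod.χ₄_nat_one_mod_four (by omega)
        have hp1 : ¬ (p : ℤ) ∣ -1 := by
          rw [dvd_neg]
          exact fun h => hpz.not_isUnit (isUnit_of_dvd_one h)
        obtain ⟨u, hu⟩ := padic_sq hp2 hpk hlk
        obtain ⟨r, hr⟩ := padic_sq hp2 hp2z hl2
        obtain ⟨t, ht⟩ := padic_sq hp2 hp1 hl1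
        have hr0 : r ≠ 0 := by
          rintro rfl
          rw [zero_pow two_ne_zero] at hr
          norm_num at hr
        have hi : ((1 + t) / r) ^ 4 = -1 := by
          have e1 : ((1 + t) / r) ^ 2 = t := by
            rw [div_pow, ← hr]
            push_cast at ht ⊢
            field_simp
            linear_combination -ht
          calc ((1 + t) / r) ^ 4 = (((1 + t) / r) ^ 2) ^ 2 := by ring
            _ = -1 := by rw [e1, ← ht]; push_cast; ring
        refine s2_gen hdb hbK (M := 2 * ((1 + t) / r) * u) (N := 0) ?_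
        have hmk : (m : ℚ_[p]) = d * k := by rw [hk]; push_cast; ring
        have hu4 : u ^ 4 = (k : ℚ_[p]) ^ 2 := by
          calc u ^ 4 = (u ^ 2) ^ 2 := by ring
            _ = _ := by rw [← hu]; push_cast; ring
        have e2 : (2 * ((1 + t) / r) * u) ^ 4 = -16 * (k : ℚ_[p]) ^ 2 := by
          rw [mul_pow, mul_pow, hi, hu4]; ring
        push_cast
        rw [hmk]
        linear_combination -((d : ℚ_[p]) ^ 2) * e2
      · have hlb : legendreSym p d = 1 := s2_leg ((hK p hpp hpm).1 hpd)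
        obtain ⟨t, ht⟩ := padic_sq hp2 (n := (d : ℤ)) (by exact_mod_cast hpd) hlb
        exact loc_one ht
    · have hpmz : ¬ (p : ℤ) ∣ (m : ℤ) := by exact_mod_cast hpm
      have hpd : ¬ (p : ℤ) ∣ (d : ℤ) := fun h => hpmz (h.trans (by exact_mod_cast hdm))
      have h2m : ¬ (p : ℤ) ∣ 2 * m := fun h => (hpz.dvd_or_dvd h).elim hp2z hpmz
      have h4m : ¬ (p : ℤ) ∣ 4 * m := by
        rw [show (4 * (m:ℤ)) = 2 * (2 * m) by ring]
        exact fun h => (hpz.dvd_or_dvd h).elim hp2z h2m
      have h4z := hz _ h4m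
      have h2z := hz _ h2m
      rcases legendreSym.eq_one_or_neg_one p (hz _ hpd) with hl | hl
      · obtain ⟨t, ht⟩ := padic_sq hp2 hpd hl
        exact loc_one ht
      push_cast at h4z
      obtain ⟨x0, hx0, hx1⟩ := exists_nonres hp2 (a := (0 : ZMod p)) (b := (4 * (m : ZMod p)) ^ 2)
        (pow_ne_zero 2 h4z) ⟨4 * (m : ZMod p), by ring⟩ (by
          have e : (0 : ZMod p) ^ 2 - 4 * (4 * (m : ZMod p)) ^ 2 = -(2 * (4 * (m : ZMod p))) ^ 2 := by
            ring
          rw [e, neg_ne_zero]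
          refine pow_ne_zero 2 (mul_ne_zero ?_ h4z)
          have := hz 2 hp2z
          exact_mod_cast this)
      rw [zero_mul, add_zero] at hx1
      obtain ⟨x, hx⟩ := ZMod.intCast_surjective x0
      have hx00 : x0 ≠ 0 := by rintro rfl; exact hx0 (IsSquare.zero)
      have hxl : legendreSym p x = -1 := by
        rw [legendreSym.eq_neg_one_iff, hx]
        exact hx0
      by_cases hxz : x0 ^ 2 + (4 * (m : ZMod p)) ^ 2 = 0
      · -- `-1` is a square
        set j : ZMod p := x0 / (4 * (m : ZMod p)) with hj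
        have hj2 : j ^ 2 = -1 := by
          rw [hj, div_pow, div_eq_iff (pow_ne_zero 2 h4z)]
          linear_combination hxz
        have hxj : x0 = 2 * (m : ZMod p) * (1 + j) ^ 2 := by
          have e : x0 = 4 * (m : ZMod p) * j := by rw [hj, mul_div_cancel₀ _ h4z]
          calc x0 = 4 * (m : ZMod p) * j := e
            _ = 2 * (m : ZMod p) * (1 + j) ^ 2 := by linear_combination (-2 * (m : ZMod p)) * hj2
        have hp1 : ¬ (p : ℤ) ∣ -1 := by
          rw [dvd_neg]
          exact fun h => hpz.not_isUnit (isUnit_of_dvd_one h)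
        have hl1 : legendreSym p (-1) = 1 := by
          rw [legendreSym.eq_one_iff p (hz _ hp1)]
          exact ⟨j, by push_cast; rw [← hj2]; ring⟩
        have hl2m : legendreSym p (2 * m) = -1 := by
          rw [legendreSym.eq_neg_one_iff]
          rintro ⟨s, hs⟩
          apply hx0
          refine ⟨s * (1 + j), ?_⟩
          push_cast at hs
          rw [hxj]
          linear_combination (1 + j) ^ 2 * hs
        have hl3 : legendreSym p (2 * m * d) = 1 := by
          rw [legendreSym.mul, hl2m, hl]; norm_num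
        have hn3 : ¬ (p : ℤ) ∣ 2 * m * d := fun h => (hpz.dvd_or_dvd h).elim h2m hpd
        obtain ⟨u, hu⟩ := padic_sq hp2 hn3 hl3
        obtain ⟨t, ht⟩ := padic_sq hp2 hp1 hl1
        refine s2_gen hdb hbK (M := (1 + t) * u / ((d : ℤ) : ℚ_[p])) (N := 0) ?_
        have hd' : ((d : ℤ) : ℚ_[p]) ≠ 0 := hbK
        push_cast at hu ht hd' ⊢
        have e4 : (1 + t) ^ 4 = -4 := by
          have e1 : (1 + t) ^ 2 = 2 * t := by linear_combination -ht
          calc (1 + t) ^ 4 = ((1 + t) ^ 2) ^ 2 := by ring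
            _ = -4 := by rw [e1]; linear_combination -4 * ht
        have hu4 : u ^ 4 = (2 * (m : ℚ_[p]) * d) ^ 2 := by rw [hu]; ring
        have e5 : ((d : ℚ_[p]) * ((1 + t) * u / d) ^ 2) ^ 2 = (1 + t) ^ 4 * u ^ 4 / d ^ 2 := by
          field_simp
        rw [e5, e4, hu4]
        field_simp
        ring
      · have hn0 : ((x * (x ^ 2 + (4 * m) ^ 2) : ℤ) : ZMod p) ≠ 0 := by
          push_cast
          rw [hx]
          exact mul_ne_zero hx00 hxz
        have hn1 : legendreSym p (x * (x ^ 2 + (4 * m) ^ 2)) = 1 := by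
          rw [legendreSym.eq_one_iff p hn0]
          push_cast
          rw [hx]
          exact hx1
        have hn2 : ¬ (p : ℤ) ∣ x * (x ^ 2 + (4 * m) ^ 2) := by
          rwa [← ZMod.intCast_zmod_eq_zero_iff_dvd]
        obtain ⟨t, ht⟩ := padic_sq hp2 hn2 hn1
        have hxd : legendreSym p (x * d) = 1 := by
          rw [legendreSym.mul, hxl, hl]; norm_num
        have hxp : ¬ (p : ℤ) ∣ x := by
          rw [← ZMod.intCast_zmod_eq_zero_iff_dvd, hx]
          exact hx00
        have hxd2 : ¬ (p : ℤ) ∣ x * d := fun h => (hpz.dvd_or_dvd h).elim hxp hpd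
        obtain ⟨s, hs⟩ := padic_sq hp2 hxd2 hxd
        have hx3 : (x : ℚ_[p]) ≠ 0 := loc_int_ne hxp
        have hd' : ((d : ℤ) : ℚ_[p]) ≠ 0 := hbK
        push_cast at ht hs hd'
        have hs0 : s ≠ 0 := by
          rintro rfl
          rw [zero_pow two_ne_zero] at hs
          exact mul_ne_zero hx3 hd' hs
        refine s2_gen hdb hbK (M := s / ((d : ℤ) : ℚ_[p])) (N := t / s) ?_
        push_cast
        have h8 : (d : ℚ_[p]) * (s / d) ^ 2 = x := by
          field_simp
          rw [← hs]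
          ring
        rw [h8, div_pow, ← ht, ← hs]
        field_simp
        ring

end Pool.Agent.RZ
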