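import Pool.Agent.RZ.SL1
import Pool.Agent.RZ.SL1S
import Pool.Agent.RZ.SL2
import Pool.Agent.RZ.SL2S

set_option autoImplicit false

/-! Cardinalities of the two sets of classes in terms of divisors. -/

namespace Pool.Agent.RZ

open Pool.Agent.H23

private theorem crd_odd {m d : ℕ} (hm : Fam m) (hd : d ∣ m) : d % 2 = 1 := by
  have h1 : Odd m := by
    rw [Nat.odd_iff]
    have := hm.mod8
    omega
  exact Nat.odd_iff.1 (Odd.of_dvd_nat h1 hd)

private theorem crd_inj {m : ℕ} (hm : Fam m) {s s' : ℤ} {ε ε' d d' : ℕ} (hs : s = 1 ∨ s = -1)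
    (hs' : s' = 1 ∨ s' = -1) (hε : ε = 0 ∨ ε = 1) (hε' : ε' = 0 ∨ ε' = 1) (hd : d ∣ m)
    (hd' : d' ∣ m) (h : s * 2 ^ ε * (d : ℤ) = s' * 2 ^ ε' * (d' : ℤ)) :
    s = s' ∧ ε = ε' ∧ d = d' := by
  have h1 := crd_odd hm hd
  have h2 := crd_odd hm hd'
  rcases hs with rfl | rfl <;> rcases hs' with rfl | rfl <;> rcases hε with rfl | rfl <;>
    rcases hε' with rfl | rfl <;> norm_num at h ⊢ <;> omega

open Classical in
theorem card_sel1 {m : ℕ} (hm : Fam m) :
    (Sel 0 (-4 * (m : ℤ) ^ 2)).ncard = 4 * (m.divisors.filter (fun d => CS m d)).card := by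
  have hm0 : m ≠ 0 := by
    have := hm.one_lt
    omega
  have hS : Sel 0 (-4 * (m : ℤ) ^ 2) =
      (fun t : ℤ × (ℕ × ℕ) => t.1 * 2 ^ t.2.1 * (t.2.2 : ℤ)) ''
        ((({1, -1} : Finset ℤ) ×ˢ (({0, 1} : Finset ℕ) ×ˢ
          (m.divisors.filter (fun d => CS m d))) : Finset (ℤ × (ℕ × ℕ))) : Set (ℤ × (ℕ × ℕ))) := by
    ext b
    constructor
    · intro hb
      obtain ⟨s, ε, d, hs, hε, hd, rfl, hC⟩ := sel1_nec hm hb
      refine ⟨(s, ε, d), ?_, rfl⟩
      rw [Finset.mem_coe, Finset.mem_product, Finset.mem_product, Finset.mem_filter,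
        Nat.mem_divisors]
      refine ⟨?_, ?_, ⟨hd, hm0⟩, hC⟩
      · simpa using hs
      · simpa using hε
    · rintro ⟨⟨s, ε, d⟩, ht, rfl⟩
      rw [Finset.mem_coe, Finset.mem_product, Finset.mem_product, Finset.mem_filter,
        Nat.mem_divisors] at ht
      obtain ⟨hs, hε, ⟨hd, -⟩, hC⟩ := ht
      exact sel1_suf hm (by simpa using hs) (by simpa using hε) hd hC
  rw [hS, Set.InjOn.ncard_image, Set.ncard_coe_finset, Finset.card_product, Finset.card_product]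
  · have h1 : ({1, -1} : Finset ℤ).card = 2 := by decide
    have h2 : ({0, 1} : Finset ℕ).card = 2 := by decide
    rw [h1, h2]
    ring
  · rintro ⟨s, ε, d⟩ ht ⟨s', ε', d'⟩ ht' h
    rw [Finset.mem_coe, Finset.mem_product, Finset.mem_product, Finset.mem_filter,
      Nat.mem_divisors] at ht ht'
    obtain ⟨hs, hε, ⟨hd, -⟩, -⟩ := ht
    obtain ⟨hs', hε', ⟨hd', -⟩, -⟩ := ht'
    obtain ⟨h1, h2, h3⟩ := crd_inj hm (by simpa using hs) (by simpa using hs')
      (by simpa using hε) (by simpa using hε') hd hd' h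
    exact Prod.ext h1 (Prod.ext h2 h3)

open Classical in
theorem card_sel2 {m : ℕ} (hm : Fam m) :
    (Sel 0 (16 * (m : ℤ) ^ 2)).ncard =
      (m.divisors.filter (fun d => (∀ p : ℕ, p.Prime → p ∣ d → p % 8 = 1) ∧ KA m d)).card := by
  have hm0 : m ≠ 0 := by
    have := hm.one_lt
    omega
  have hS : Sel 0 (16 * (m : ℤ) ^ 2) = (fun d : ℕ => (d : ℤ)) ''
      ((m.divisors.filter (fun d => (∀ p : ℕ, p.Prime → p ∣ d → p % 8 = 1) ∧ KA m d) :
        Finset ℕ) : Set ℕ) := by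
    ext b
    constructor
    · intro hb
      obtain ⟨d, hd, rfl, h1, h2⟩ := sel2_nec hm hb
      refine ⟨d, ?_, rfl⟩
      rw [Finset.mem_coe, Finset.mem_filter, Nat.mem_divisors]
      exact ⟨⟨hd, hm0⟩, h1, h2⟩
    · rintro ⟨d, ht, rfl⟩
      rw [Finset.mem_coe, Finset.mem_filter, Nat.mem_divisors] at ht
      exact sel2_suf hm ht.1.1 ht.2.1 ht.2.2
  rw [hS, Set.InjOn.ncard_image, Set.ncard_coe_finset]
  intro x _ y _ h
  exact Int.ofNat_inj.1 h

end Pool.Agent.RZ
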