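import Pool.Agent.RZ.BAS
import Pool.Agent.RZ.PRIM
import Pool.Agent.H23.Selmer

set_option autoImplicit false

/-! The descent quartic `N² = b M⁴ - (4m²/b) e⁴`, `b = 1 mod 8`, gives a pair of conics.

Proof. Scale a rational solution to integers with `gcd (M, e) = 1` (then `N` is an integer).
Modulo 8: `M` even, `e` odd gives `N = 2N'`, `N'² = 4b(M/2)⁴ - m²/b = -1, 3 mod 8`, impossible;
`M`, `e` odd gives `N² = 5 mod 8`; so `M` odd, `e = 2e'`, `N² = b M⁴ - 64 (m²/b) e'⁴`. With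
`β = gcd (M, m/|b|)`, `M = β X`, `m = |b| α β`: `(N/β)² = b (β²X⁴ - 64 α² e'⁴)`, `N = β b K`,
`b K² = (βX² - 8αe'²)(βX² + 8αe'²)`, the factors being coprime and odd, the second positive:
they are `δ c Y²` and `d Z²` with `δ c d = b` (`Sys` with `a = α`, `b = β`). -/

namespace Pool.Agent.RZ

open Pool.Agent.H23

/-- the class divides `m` -/
private theorem des_dvd {m : ℕ} {b : ℤ} (hb : Squarefree b)
    (hd : b ∣ -4 * (m : ℤ) ^ 2) (h2 : ¬ (2 : ℤ) ∣ b) : b ∣ m := by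
  have hc : IsCoprime b 4 := by
    have h3 : IsCoprime b 2 := (Int.isCoprime_iff_gcd_eq_one.2 (by
      have h4 : Int.gcd b 2 ∣ 2 := Int.gcd_dvd_natAbs_right b 2
      rcases (Nat.dvd_prime Nat.prime_two).1 h4 with h5 | h5
      · exact h5
      · exfalso
        apply h2
        have := Int.gcd_dvd_left (a := b) (b := 2)
        rw [h5] at this
        exact_mod_cast this))
    have : (4 : ℤ) = 2 ^ 2 := by norm_num
    rw [this]
    exact h3.pow_right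
  have h3 : b ∣ (m : ℤ) ^ 2 := by
    have : b ∣ 4 * (m : ℤ) ^ 2 := by
      have h4 := (dvd_neg (a := b)).2 hd
      have h5 : -(-4 * (m : ℤ) ^ 2) = 4 * (m : ℤ) ^ 2 := by ring
      rwa [h5] at h4
    exact hc.dvd_of_dvd_mul_left this
  exact (hb.dvd_pow_iff_dvd two_ne_zero).1 h3

/-- residues of fourth powers modulo 16 -/
private theorem des_pow4 (x : ℤ) : (x % 2 = 0 ∧ x ^ 4 % 16 = 0) ∨ (x % 2 = 1 ∧ x ^ 4 % 16 = 1) := by
  rcases Int.emod_two_eq_zero_or_one x with h | h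
  · left
    refine ⟨h, ?_⟩
    obtain ⟨k, hk⟩ := Int.dvd_of_emod_eq_zero h
    have : x ^ 4 = 16 * k ^ 4 := by rw [hk]; ring
    omega
  · right
    refine ⟨h, ?_⟩
    obtain ⟨k, hk⟩ : ∃ k, x = 2 * k + 1 := ⟨x / 2, by omega⟩
    have h1 : ∃ j, k * (3 * k + 1) = 2 * j := by
      rcases Int.emod_two_eq_zero_or_one k with h | h
      · obtain ⟨j, hj⟩ := Int.dvd_of_emod_eq_zero h
        exact ⟨j * (3 * k + 1), by rw [hj]; ring⟩
      · obtain ⟨j, hj⟩ : ∃ j, k = 2 * j + 1 := ⟨k / 2, by omega⟩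
        exact ⟨k * (3 * j + 2), by rw [hj]; ring⟩
    obtain ⟨j, hj⟩ := h1
    have : x ^ 4 = 16 * (k ^ 4 + 2 * k ^ 3 + j) + 1 := by
      rw [hk]
      linear_combination 8 * hj
    omega

/-- residues of squares modulo 16 -/
private theorem des_sq (x : ℤ) : x ^ 2 % 16 = 0 ∨ x ^ 2 % 16 = 1 ∨ x ^ 2 % 16 = 4 ∨
    x ^ 2 % 16 = 9 := by
  obtain ⟨k, hk⟩ : ∃ k, x = 8 * k + x % 8 := ⟨x / 8, by omega⟩
  have h : x % 8 = 0 ∨ x % 8 = 1 ∨ x % 8 = 2 ∨ x % 8 = 3 ∨ x % 8 = 4 ∨ x % 8 = 5 ∨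
    x % 8 = 6 ∨ x % 8 = 7 := by omega
  rcases h with h | h | h | h | h | h | h | h <;> rw [h] at hk
  · have : x ^ 2 = 16 * (4 * k ^ 2) := by rw [hk]; ring
    omega
  · have : x ^ 2 = 16 * (4 * k ^ 2 + k) + 1 := by rw [hk]; ring
    omega
  · have : x ^ 2 = 16 * (4 * k ^ 2 + 2 * k) + 4 := by rw [hk]; ring
    omega
  · have : x ^ 2 = 16 * (4 * k ^ 2 + 3 * k) + 9 := by rw [hk]; ring
    omega
  · have : x ^ 2 = 16 * (4 * k ^ 2 + 4 * k + 1) := by rw [hk]; ring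
    omega
  · have : x ^ 2 = 16 * (4 * k ^ 2 + 5 * k + 1) + 9 := by rw [hk]; ring
    omega
  · have : x ^ 2 = 16 * (4 * k ^ 2 + 6 * k + 2) + 4 := by rw [hk]; ring
    omega
  · have : x ^ 2 = 16 * (4 * k ^ 2 + 7 * k + 3) + 1 := by rw [hk]; ring
    omega

/-- parity step -/
private theorem des_par {b n N M e : ℤ} (h8 : b % 8 = 1) (hn8 : n % 8 = 1) (hc : IsCoprime M e)
    (h : N ^ 2 = b * M ^ 4 - 4 * (b * n ^ 2) * e ^ 4) : M % 2 = 1 ∧ e % 2 = 0 := by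
  obtain ⟨i, hi⟩ : ∃ i, b = 8 * i + 1 := ⟨b / 8, by omega⟩
  obtain ⟨j, hj⟩ : ∃ j, n = 8 * j + 1 := ⟨n / 8, by omega⟩
  have hbn : ∃ l, b * n ^ 2 = 8 * l + 1 :=
    ⟨i * n ^ 2 + 8 * j ^ 2 + 2 * j, by rw [hi, hj]; ring⟩
  obtain ⟨l, hl⟩ := hbn
  rw [hl] at h
  have hN := des_sq N
  rcases des_pow4 M with ⟨hM, hM4⟩ | ⟨hM, hM4⟩
  · exfalso
    rcases des_pow4 e with ⟨he, he4⟩ | ⟨he, he4⟩
    · obtain ⟨x, y, hxy⟩ := hc
      obtain ⟨M', hM'⟩ := Int.dvd_of_emod_eq_zero hM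
      obtain ⟨e', he'⟩ := Int.dvd_of_emod_eq_zero he
      rw [hM', he'] at hxy
      have : 2 * (x * M' + y * e') = 1 := by linear_combination hxy
      omega
    · obtain ⟨u, hu⟩ : ∃ u, M ^ 4 = 16 * u := ⟨M ^ 4 / 16, by omega⟩
      obtain ⟨v, hv⟩ : ∃ v, e ^ 4 = 16 * v + 1 := ⟨e ^ 4 / 16, by omega⟩
      rw [hu, hv] at h
      have : N ^ 2 = 16 * (b * u - 32 * l * v - 4 * v - 2 * l) - 4 := by linear_combination h
      omega
  · refine ⟨hM, ?_⟩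
    rcases des_pow4 e with ⟨he, he4⟩ | ⟨he, he4⟩
    · exact he
    · exfalso
      obtain ⟨u, hu⟩ : ∃ u, M ^ 4 = 16 * u + 1 := ⟨M ^ 4 / 16, by omega⟩
      obtain ⟨v, hv⟩ : ∃ v, e ^ 4 = 16 * v + 1 := ⟨e ^ 4 / 16, by omega⟩
      rw [hu, hv, hi] at h
      have : N ^ 2 = 8 * (16 * i * u + i + 2 * u - 64 * l * v - 4 * l - 8 * v - 1) + 5 := by
        linear_combination h
      omega

/-- coprimality of sum and difference -/
private theorem des_cop {x y : ℤ} (h : IsCoprime x y) (h2 : IsCoprime (x - y) 2) :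
    IsCoprime (x - y) (x + y) := by
  have h1 : IsCoprime (x - y) y := by
    have := (IsCoprime.add_mul_left_left_iff (x := x) (y := y) (z := -1)).2 h
    have e : x + y * -1 = x - y := by ring
    rwa [e] at this
  have h3 : IsCoprime (x - y) (2 * y) := h2.mul_right h1
  have h4 := (IsCoprime.add_mul_left_right_iff (x := x - y) (y := 2 * y) (z := 1)).2 h3
  have e : 2 * y + (x - y) * 1 = x + y := by ring
  rwa [e] at h4

theorem sys_of_glob {m : ℕ} (hm : Fam m) {b : ℤ} (hb : b ∈ Glob 0 (-4 * (m : ℤ) ^ 2))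
    (h8 : b % 8 = 1) : ∃ (δ : ℤ) (a b' c d : ℕ) (X Y Z e : ℤ),
      Sys m δ a b' c d X Y Z e ∧ b = δ * c * d := by
  obtain ⟨hsq, hdvd, hsol⟩ := hb
  have hbm : b ∣ m := des_dvd hsq hdvd (by omega)
  obtain ⟨n, hn⟩ := hbm
  have hm8 : (m : ℤ) % 8 = 1 := by have := hm.mod8; omega
  have hb0 : b ≠ 0 := by rintro rfl; simp at h8
  have hm0 : (m : ℤ) ≠ 0 := by have := hm.one_lt; omega
  have hn0 : n ≠ 0 := by rintro rfl; rw [mul_zero] at hn; exact hm0 hn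
  have hn8 : n % 8 = 1 := by
    obtain ⟨i, hi⟩ : ∃ i, b = 8 * i + 1 := ⟨b / 8, by omega⟩
    have : (m : ℤ) = 8 * (i * n) + n := by rw [hn, hi]; ring
    omega
  have hq : -4 * (m : ℤ) ^ 2 / b = -4 * (b * n ^ 2) := by
    rw [hn]
    have : -4 * (b * n) ^ 2 = b * (-4 * (b * n ^ 2)) := by ring
    rw [this, Int.mul_ediv_cancel_left _ hb0]
  have hsol' : ∃ N M e : ℚ, (M ≠ 0 ∨ e ≠ 0) ∧
      N ^ 2 = (b : ℚ) * M ^ 4 + ((-4 * (b * n ^ 2) : ℤ) : ℚ) * e ^ 4 := by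
    obtain ⟨N, M, e, h0, h1⟩ := hsol
    refine ⟨N, M, e, h0, ?_⟩
    rw [h1, hq]
    push_cast
    ring
  obtain ⟨N, M, e, hcop, hN⟩ := prim_sol hsol'
  obtain ⟨hMo, heo⟩ := des_par h8 hn8 hcop (N := N) (by rw [hN]; ring)
  obtain ⟨e', he'⟩ := Int.dvd_of_emod_eq_zero heo
  -- squarefree facts
  have hmsq : Squarefree (m : ℤ) := Int.squarefree_natCast.2 hm.sqf
  have hnsq : Squarefree n := hmsq.squarefree_of_dvd ⟨b, by rw [hn]; ring⟩
  -- the gcd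
  set β : ℕ := Int.gcd M n with hβ
  have hβ0 : (β : ℤ) ≠ 0 := by
    intro h
    have h' : Int.gcd M n = 0 := by exact_mod_cast h
    exact hn0 (Int.gcd_eq_zero_iff.1 h').2
  obtain ⟨X, hX⟩ : (β : ℤ) ∣ M := Int.gcd_dvd_left ..
  obtain ⟨α', hα'⟩ : (β : ℤ) ∣ n := Int.gcd_dvd_right ..
  have hXα : IsCoprime X α' := by
    obtain ⟨u, v, huv⟩ : ∃ u v : ℤ, (β : ℤ) = M * u + n * v := ⟨_, _, Int.gcd_eq_gcd_ab M n⟩
    refine ⟨u, v, ?_⟩
    apply mul_left_cancel₀ hβ0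
    rw [mul_one]
    calc (β : ℤ) * (u * X + v * α') = (β * X) * u + (β * α') * v := by ring
      _ = M * u + n * v := by rw [← hX, ← hα']
      _ = β := huv.symm
  have hβα : IsCoprime (β : ℤ) α' := by
    have : Squarefree ((β : ℤ) * α') := by rw [← hα']; exact hnsq
    exact IsRelPrime.isCoprime (squarefree_mul_iff.1 this).1
  have hMe' : IsCoprime M e' := by
    rw [he'] at hcop
    exact hcop.of_mul_right_right
  have hM2 : IsCoprime M 2 := by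
    obtain ⟨k, hk⟩ : ∃ k, M = 2 * k + 1 := ⟨M / 2, by omega⟩
    exact ⟨1, -k, by rw [hk]; ring⟩
  have hβM : (β : ℤ) ∣ M := ⟨X, hX⟩
  have hXM : X ∣ M := ⟨β, by rw [hX]; ring⟩
  have hβX : IsCoprime ((β : ℤ) * X) (2 * α' * e') := by
    rw [← hX]
    refine IsCoprime.mul_right (IsCoprime.mul_right hM2 ?_) hMe'
    rw [hX]
    exact hβα.mul_left hXα
  -- the equation
  have hα2 : ((α'.natAbs : ℕ) : ℤ) ^ 2 = α' ^ 2 := by rw [Int.natCast_natAbs, sq_abs]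
  set α : ℕ := α'.natAbs with hα
  have h1 : N ^ 2 = (β : ℤ) ^ 2 * (b * (β ^ 2 * X ^ 4 - 64 * α ^ 2 * e' ^ 4)) := by
    rw [hN, hα2]
    conv_lhs => rw [he', hX, hα']
    ring
  have h2 : (β : ℤ) ^ 2 ∣ N ^ 2 := ⟨_, h1⟩
  obtain ⟨N1, hN1⟩ := (Int.pow_dvd_pow_iff two_ne_zero).1 h2
  have h3 : N1 ^ 2 = b * (β ^ 2 * X ^ 4 - 64 * α ^ 2 * e' ^ 4) := by
    apply mul_left_cancel₀ (pow_ne_zero 2 hβ0)
    rw [← h1, hN1]; ring
  obtain ⟨K, hK⟩ : b ∣ N1 := (hsq.dvd_pow_iff_dvd two_ne_zero).1 ⟨_, h3⟩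
  have h4 : ((β : ℤ) * X ^ 2 - 8 * α * e' ^ 2) * (β * X ^ 2 + 8 * α * e' ^ 2) = b * K ^ 2 := by
    apply mul_left_cancel₀ hb0
    have : b * (b * K ^ 2) = N1 ^ 2 := by rw [hK]; ring
    rw [this, h3]; ring
  -- oddness
  have hβX2 : IsCoprime ((β : ℤ) * X) 2 := hβX.of_mul_right_left.of_mul_right_left
  have hαβX : IsCoprime ((β : ℤ) * X) α := by
    have h5 : IsCoprime ((β : ℤ) * X) α' := hβX.of_mul_right_left.of_mul_right_right
    rw [hα, Int.natCast_natAbs]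
    rcases abs_choice α' with h | h <;> rw [h]
    · exact h5
    · exact h5.neg_right
  have heβX : IsCoprime ((β : ℤ) * X) e' := hβX.of_mul_right_right
  have hxy : IsCoprime ((β : ℤ) * X ^ 2) (8 * α * e' ^ 2) := by
    have h6 : IsCoprime ((β : ℤ) * X) (8 * α * e' ^ 2) := by
      have h8' : (8 : ℤ) = 2 ^ 3 := by norm_num
      rw [h8']
      exact (hβX2.pow_right.mul_right hαβX).mul_right heβX.pow_right
    have h7 : IsCoprime (((β : ℤ) * X) * X) (8 * α * e' ^ 2) :=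
      h6.mul_left h6.of_mul_left_right
    have e : ((β : ℤ) * X) * X = β * X ^ 2 := by ring
    rwa [e] at h7
  have hodd : IsCoprime ((β : ℤ) * X ^ 2 - 8 * α * e' ^ 2) 2 := by
    have h6 : IsCoprime ((β : ℤ) * X ^ 2) 2 := by
      have h7 : IsCoprime (((β : ℤ) * X) * X) 2 := hβX2.mul_left hβX2.of_mul_left_right
      have e : ((β : ℤ) * X) * X = β * X ^ 2 := by ring
      rwa [e] at h7
    have h7 := (IsCoprime.add_mul_left_left_iff (x := (β : ℤ) * X ^ 2) (y := 2)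
      (z := -4 * α * e' ^ 2)).2 h6
    have e : (β : ℤ) * X ^ 2 + 2 * (-4 * α * e' ^ 2) = β * X ^ 2 - 8 * α * e' ^ 2 := by ring
    rwa [e] at h7
  have hPQ := des_cop hxy hodd
  have hP0 : (β : ℤ) * X ^ 2 - 8 * α * e' ^ 2 ≠ 0 := by
    intro h
    rw [h] at hodd
    have := (isCoprime_zero_left.1 hodd)
    exact absurd (Int.isUnit_iff.1 this) (by norm_num)
  have hX0 : X ≠ 0 := by
    rintro rfl
    rw [mul_zero] at hX
    rw [hX] at hMo
    simp at hMo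
  have hβpos : (0 : ℤ) < β := lt_of_le_of_ne (by positivity) (Ne.symm hβ0)
  have hX2pos : 0 < X ^ 2 := by positivity
  have hQ0 : 0 < (β : ℤ) * X ^ 2 + 8 * α * e' ^ 2 := by
    have : 0 < (β : ℤ) * X ^ 2 := mul_pos hβpos hX2pos
    have : 0 ≤ 8 * (α : ℤ) * e' ^ 2 := by positivity
    linarith
  have hK0 : K ≠ 0 := by
    rintro rfl
    have : b * (0 : ℤ) ^ 2 = 0 := by ring
    rw [this] at h4
    rcases mul_eq_zero.1 h4 with h | h
    · exact hP0 h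
    · exact hQ0.ne' h
  obtain ⟨a₁, a₂, r, s, hr, hs, hab, hrs⟩ := split_sq h4 hPQ hsq hK0
  have ha2 : 0 < a₂ := by
    rw [hs] at hQ0
    by_contra hcon
    have : a₂ * s ^ 2 ≤ 0 := mul_nonpos_of_nonpos_of_nonneg (not_lt.1 hcon) (sq_nonneg s)
    linarith
  have ha20 : ((a₂.natAbs : ℕ) : ℤ) = a₂ := by rw [Int.natCast_natAbs, abs_of_pos ha2]
  have ha1 : Int.sign a₁ * ((a₁.natAbs : ℕ) : ℤ) = a₁ := Int.sign_mul_natAbs a₁
  have ha10 : a₁ ≠ 0 := by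
    rintro rfl
    rw [zero_mul] at hab
    exact hb0 hab.symm
  refine ⟨Int.sign a₁, α, β, a₁.natAbs, a₂.natAbs, X, r, s, e', ?_, ?_⟩
  · refine ⟨?_, ?_, ?_, ?_, ?_⟩
    · rcases lt_or_gt_of_ne ha10 with h | h
      · right; exact Int.sign_eq_neg_one_of_neg h
      · left; exact Int.sign_eq_one_of_pos h
    · have h5 : (m : ℤ).natAbs = (b * n).natAbs := by rw [hn]
      rw [Int.natAbs_natCast, Int.natAbs_mul, ← hab, Int.natAbs_mul] at h5
      have h6 : n.natAbs = β * α := by rw [hα, hα', Int.natAbs_mul, Int.natAbs_natCast]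
      rw [h5, h6]; ring
    · rw [ha1, ← hr]
    · rw [ha20, ← hs]
    · have h5 := (hβX2.mul_right hαβX).mul_right heβX
      exact h5
  · rw [ha1, ha20, hab]

end Pool.Agent.RZ
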