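import Mathlib

set_option autoImplicit false

/-!
# RZ (MP_e2b281_nt): rank zero in the thin family. Definitions.
-/

namespace Pool.Agent.RZ

/-- the thin family: squarefree, `1` modulo `8`, all primes `1` or `7` modulo `8` -/
structure Fam (m : ℕ) : Prop where
  one_lt : 1 < m
  mod8 : m % 8 = 1
  sqf : Squarefree m
  pr : ∀ p ∈ m.primeFactors, p % 8 = 1 ∨ p % 8 = 7

/-- number of primes `7` modulo `8` -/
def t7 (m : ℕ) : ℕ := (m.primeFactors.filter (fun p => p % 8 = 7)).card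

/-- number of primes `1` modulo `8` -/
def t1 (m : ℕ) : ℕ := (m.primeFactors.filter (fun p => p % 8 = 1)).card

/-- sign of `lambda` -/
def lamS (p : ℕ) : ℤ := if p % 16 = 7 ∨ p % 16 = 9 then -1 else 1

/-- `A 1_d = 0` -/
def KA (m d : ℕ) : Prop := ∀ p : ℕ, p.Prime → p ∣ m →
  (¬ p ∣ d → jacobiSym (d : ℤ) p = 1) ∧ (p ∣ d → jacobiSym ((m / d : ℕ) : ℤ) p = 1)

/-- `A 1_d = 0` in the rows at the primes `1` modulo `8` -/
def CS (m d : ℕ) : Prop := ∀ p : ℕ, p.Prime → p ∣ m → p % 8 = 1 →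
  (¬ p ∣ d → jacobiSym (d : ℤ) p = 1) ∧ (p ∣ d → jacobiSym ((m / d : ℕ) : ℤ) p = 1)

/-- `A^T 1_d = 0` -/
def KT (m d : ℕ) : Prop := ∀ p : ℕ, p.Prime → p ∣ m →
  (¬ p ∣ d → jacobiSym (p : ℤ) d = 1) ∧
  (p ∣ d → jacobiSym (p : ℤ) (d / p) * jacobiSym ((m / p : ℕ) : ℤ) p = 1)

/-- `A 1_c = lambda` -/
def RA (m c : ℕ) : Prop := ∀ p : ℕ, p.Prime → p ∣ m →
  (¬ p ∣ c → jacobiSym (c : ℤ) p = lamS p) ∧ (p ∣ c → jacobiSym ((m / c : ℕ) : ℤ) p = lamS p)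

/-- the consequences of `det B = 1` used in the descent -/
structure Nice (m : ℕ) : Prop where
  ker : ∀ d : ℕ, d ∣ m → KA m d → d = 1 ∨ d = m
  kerT : ∀ d : ℕ, d ∣ m → KT m d → (d % 16 = 1 ∨ d % 16 = 15) → d = 1
  noR : ∀ c : ℕ, c ∣ m → ¬ RA m c

/-- the pair of conics attached to a point with `x`-class `δcd` -/
structure Sys (m : ℕ) (δ : ℤ) (a b c d : ℕ) (X Y Z e : ℤ) : Prop where
  sgn : δ = 1 ∨ δ = -1
  prod : a * b * c * d = m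
  e1 : (b : ℤ) * X ^ 2 - 8 * a * e ^ 2 = δ * c * Y ^ 2
  e2 : (b : ℤ) * X ^ 2 + 8 * a * e ^ 2 = d * Z ^ 2
  cop : IsCoprime ((b : ℤ) * X) (2 * a * e)

/-- first special pair of conics -/
structure Sys0 (m : ℕ) (a D X Y Z e : ℤ) : Prop where
  prod : a * D = m
  D8 : D % 8 = 1
  e1 : X ^ 2 - 8 * a * e ^ 2 = Y ^ 2
  e2 : X ^ 2 + 8 * a * e ^ 2 = D * Z ^ 2
  cop : IsCoprime X (2 * a * e)

/-- second special pair of conics -/
structure Sys1 (m : ℕ) (b c X Y Z e : ℤ) : Prop where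
  prod : b * c = m
  b8 : b % 8 = 1
  e1 : b * X ^ 2 - 8 * e ^ 2 = c * Y ^ 2
  e2 : b * X ^ 2 + 8 * e ^ 2 = Z ^ 2
  cop : IsCoprime (b * X) (2 * e)

end Pool.Agent.RZ
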