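import Pool.Agent.RZ.BAS
import Pool.Agent.RZ.SYM
import Pool.Agent.RZ.PRIM
import Pool.Agent.H23.Selmer

set_option autoImplicit false

/-! The isogenous curve: if all primes of `m` are `1 mod 8`, then `m` is not in the image.

Proof. By reciprocity `KT m m` holds (all `p = 1 mod 4`), so by `Nice.kerT` (`m > 1`) and
`m = 1 mod 8` we get `m = 9 mod 16`. An integral solution of `N² = m M⁴ + 16 m e⁴` with
`gcd (M, e) = 1` has `N = m N'`, `m N'² = M⁴ + 16e⁴`. `M` odd: `9N'² = 1 mod 16`, so `N' = ±3 mod 8`.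
`M = 2M₁`, `e` odd: `N' = 4N''`, `m N''² = M₁⁴ + e⁴`; `M₁` odd is impossible modulo 4, so `M₁` even,
`N''² = 9 mod 16` again. A prime `q` of `N'` (of `N''`) is odd and prime to `M e`, and `-1` is a
fourth power modulo `q`, so `q = 1 mod 8`: `N' = ±1 mod 8`. Contradiction. -/

namespace Pool.Agent.RZ

open Pool.Agent.H23

private lemma e2_unit {p : ℕ} (hp : p.Prime) {x y : ℤ} (hc : IsCoprime x y) (hx : (p : ℤ) ∣ x)
    (hy : (p : ℤ) ∣ y) : False :=
  (Nat.prime_iff_prime_int.1 hp).not_isUnit (hc.isUnit_of_dvd' hx hy)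

private lemma e2_mod8 (x : ℤ) : x % 8 = 0 ∨ x % 8 = 1 ∨ x % 8 = 2 ∨ x % 8 = 3 ∨ x % 8 = 4 ∨
    x % 8 = 5 ∨ x % 8 = 6 ∨ x % 8 = 7 := by omega

private lemma e2_sq (x : ℤ) : (x % 2 = 0 → x ^ 2 % 16 = 0 ∨ x ^ 2 % 16 = 4) ∧
    (x % 2 = 1 → x ^ 2 % 16 = 1 ∨ x ^ 2 % 16 = 9) := by
  obtain ⟨k, hk⟩ : ∃ k, x = 8 * k + x % 8 := ⟨x / 8, by omega⟩
  have e1 : x ^ 2 % 16 = (x % 8) ^ 2 % 16 := by
    have : x ^ 2 = (x % 8) ^ 2 + 16 * (4 * k ^ 2 + k * (x % 8)) := by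
      conv_lhs => rw [hk]
      ring
    rw [this, Int.add_mul_emod_self_left]
  have e2 : x % 2 = (x % 8) % 2 := by omega
  rw [e1, e2]
  rcases e2_mod8 x with h | h | h | h | h | h | h | h <;> rw [h] <;> norm_num

private lemma e2_pow4 (x : ℤ) : (x % 2 = 0 → x ^ 4 % 16 = 0) ∧ (x % 2 = 1 → x ^ 4 % 16 = 1) := by
  obtain ⟨h0, h1⟩ := e2_sq x
  have e : x ^ 4 = x ^ 2 * x ^ 2 := by ring
  constructor
  · intro h
    rw [e, Int.mul_emod]
    rcases h0 h with h | h <;> rw [h] <;> norm_num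
  · intro h
    rw [e, Int.mul_emod]
    rcases h1 h with h | h <;> rw [h] <;> norm_num

private lemma e2_key {m N A B : ℤ} (h9 : m % 16 = 9) (hc : IsCoprime A B) (hB : B % 2 = 1)
    (h : m * N ^ 2 = A ^ 4 + B ^ 4) : False := by
  have hB4 := (e2_pow4 B).2 hB
  have e1 : (m * N ^ 2) % 16 = (9 * (N ^ 2 % 16)) % 16 := by rw [Int.mul_emod, h9]
  rcases Int.emod_two_eq_zero_or_one A with hA | hA
  · have hA4 := (e2_pow4 A).1 hA
    have h2 : (m * N ^ 2) % 16 = 1 := by rw [h]; omega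
    rw [h2] at e1
    have hN2 : N % 2 = 1 := by
      rcases Int.emod_two_eq_zero_or_one N with hN | hN
      · exfalso
        rcases (e2_sq N).1 hN with h3 | h3 <;> rw [h3] at e1 <;> norm_num at e1
      · exact hN
    have h9N : N ^ 2 % 16 = 9 := by
      rcases (e2_sq N).2 hN2 with h3 | h3
      · rw [h3] at e1; norm_num at e1
      · exact h3
    have h2N : ¬ (2 : ℤ) ∣ N := by omega
    have h1N : N ^ 2 % 16 = 1 := by
      refine sq_mod16 h2N ?_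
      intro p hp hpN
      have hp2 : p ≠ 2 := by
        rintro rfl
        exact h2N (by exact_mod_cast hpN)
      have hpr : Prime (p : ℤ) := Nat.prime_iff_prime_int.1 hp
      have hdiv : (p : ℤ) ∣ A ^ 4 + B ^ 4 := by
        rw [← h]; exact Dvd.dvd.mul_left (dvd_pow hpN two_ne_zero) _
      have hpA : ¬ (p : ℤ) ∣ A := by
        intro hA
        refine e2_unit hp hc hA (hpr.dvd_of_dvd_pow (n := 4) ?_)
        have e3 : B ^ 4 = (A ^ 4 + B ^ 4) - A ^ 4 := by ring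
        rw [e3]
        exact dvd_sub hdiv (dvd_pow hA (by norm_num))
      have hpB : ¬ (p : ℤ) ∣ B := by
        intro hB
        refine e2_unit hp hc (hpr.dvd_of_dvd_pow (n := 4) ?_) hB
        have e3 : A ^ 4 = (A ^ 4 + B ^ 4) - B ^ 4 := by ring
        rw [e3]
        exact dvd_sub hdiv (dvd_pow hB (by norm_num))
      refine two_res hp hp2 (X := A * B) (Y := A ^ 2 + B ^ 2) (hpr.not_dvd_mul hpA hpB) ?_
      have e4 : (A ^ 2 + B ^ 2) ^ 2 - 2 * (A * B) ^ 2 = A ^ 4 + B ^ 4 := by ring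
      rw [e4]; exact hdiv
    omega
  · have hA4 := (e2_pow4 A).2 hA
    have h2 : (m * N ^ 2) % 16 = 2 := by rw [h]; omega
    rw [h2] at e1
    rcases Int.emod_two_eq_zero_or_one N with hN | hN
    · rcases (e2_sq N).1 hN with h3 | h3 <;> rw [h3] at e1 <;> norm_num at e1
    · rcases (e2_sq N).2 hN with h3 | h3 <;> rw [h3] at e1 <;> norm_num at e1

theorem not_qsol {m : ℕ} (hm : Fam m) (hn : Nice m)
    (h1 : ∀ p : ℕ, p.Prime → p ∣ m → p % 8 = 1) : ¬ QSol ℚ 0 (16 * (m : ℤ) ^ 2) (m : ℤ) := by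
  have hm1 : (1 : ℤ) < (m : ℤ) := by exact_mod_cast hm.one_lt
  have h9 : (m : ℤ) % 16 = 9 := by
    have := nine_of hm hn (a := 1) (D := (m : ℤ)) (by ring) (by have := hm.mod8; omega)
      (fun p hp h => absurd h (fun h => hp.one_lt.ne' (by
        have := Int.natCast_dvd.1 h
        simpa using this)))
      (fun p hp h => by
        have h8 := h1 p hp (Int.natCast_dvd_natCast.1 h)
        have ho : Odd p := Nat.odd_iff.2 (by omega)
        rw [jacobiSym.at_neg_one ho]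
        exact ZMod.χ₄_nat_one_mod_four (by omega))
    rcases this with h | h
    · omega
    · exact h
  rintro ⟨N, M, e, h0, hE⟩
  have hdiv : (16 * (m : ℤ) ^ 2) / (m : ℤ) = 16 * m := by
    have : 16 * (m : ℤ) ^ 2 = 16 * m * m := by ring
    rw [this, Int.mul_ediv_cancel _ (by omega)]
  rw [hdiv] at hE
  obtain ⟨N, M, e, hc, hE⟩ := prim_sol (d := (m : ℤ)) (c := 16 * (m : ℤ)) ⟨N, M, e, h0, by
    rw [hE]; push_cast; ring⟩
  have hsq : Squarefree ((m : ℕ) : ℤ) := Int.squarefree_natCast.2 hm.sqf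
  have hmN : (m : ℤ) ∣ N := by
    rw [← hsq.dvd_pow_iff_dvd two_ne_zero, hE]
    exact ⟨M ^ 4 + 16 * e ^ 4, by ring⟩
  obtain ⟨N', hN'⟩ := hmN
  have hE2 : (m : ℤ) * N' ^ 2 = M ^ 4 + 16 * e ^ 4 := by
    have h3 : (m : ℤ) * ((m : ℤ) * N' ^ 2) = (m : ℤ) * (M ^ 4 + 16 * e ^ 4) := by
      rw [hN'] at hE
      linear_combination hE
    exact mul_left_cancel₀ (by omega) h3
  rcases Int.emod_two_eq_zero_or_one M with hM | hM
  · -- `M` even
    obtain ⟨M₁, hM₁⟩ : ∃ k, M = 2 * k := ⟨M / 2, by omega⟩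
    have heo : e % 2 = 1 := by
      by_contra he
      exact e2_unit Nat.prime_two hc (by push_cast; omega) (by push_cast; omega)
    have h16 : (m : ℤ) * N' ^ 2 = 16 * (M₁ ^ 4 + e ^ 4) := by rw [hE2, hM₁]; ring
    -- `4 ∣ N'`
    obtain ⟨k, hk⟩ : ∃ k, (m : ℤ) = 2 * k + 1 := ⟨(m : ℤ) / 2, by omega⟩
    have hN2 : N' % 2 = 0 := by
      by_contra hN
      have hN1 : N' % 2 = 1 := by omega
      have := (e2_sq N').2 hN1
      have e1 : ((m : ℤ) * N' ^ 2) % 16 = (9 * (N' ^ 2 % 16)) % 16 := by rw [Int.mul_emod, h9]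
      rw [h16] at e1
      rcases this with h3 | h3 <;> rw [h3] at e1 <;> omega
    obtain ⟨n₁, hn₁⟩ : ∃ k, N' = 2 * k := ⟨N' / 2, by omega⟩
    have h4 : (m : ℤ) * n₁ ^ 2 = 4 * (M₁ ^ 4 + e ^ 4) := by
      rw [hn₁] at h16
      linarith
    have hn2 : n₁ % 2 = 0 := by
      by_contra hN
      have hN1 : n₁ % 2 = 1 := by omega
      have := (e2_sq n₁).2 hN1
      have e1 : ((m : ℤ) * n₁ ^ 2) % 16 = (9 * (n₁ ^ 2 % 16)) % 16 := by rw [Int.mul_emod, h9]
      rw [h4] at e1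
      rcases this with h3 | h3 <;> rw [h3] at e1 <;> omega
    obtain ⟨n₂, hn₂⟩ : ∃ k, n₁ = 2 * k := ⟨n₁ / 2, by omega⟩
    have h5 : (m : ℤ) * n₂ ^ 2 = M₁ ^ 4 + e ^ 4 := by
      rw [hn₂] at h4
      linarith
    have hc2 : IsCoprime M₁ e := by
      rw [hM₁] at hc
      exact hc.of_mul_left_right
    exact e2_key h9 hc2 heo h5
  · -- `M` odd
    have h2M : IsCoprime (2 : ℤ) M := by
      obtain ⟨k, hk⟩ : ∃ k, M = 2 * k + 1 := ⟨M / 2, by omega⟩
      exact ⟨-k, 1, by rw [hk]; ring⟩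
    have hc2 : IsCoprime (2 * e) M := h2M.mul_left hc.symm
    exact e2_key h9 hc2 hM (by rw [hE2]; ring)

end Pool.Agent.RZ
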