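import Pool.Agent.RZ.RK
import Pool.Agent.RZ.LA
import Pool.Agent.RZ.CRD
import Pool.Agent.RZ.LIN
import Pool.Agent.RZ.PAR
import Pool.Agent.RZ.DT7

set_option autoImplicit false

/-! Assembly. -/

namespace Pool.Agent.RZ

open Pool.Agent.H23 Filter Topology

theorem famF_iff {X m : ℕ} : m ∈ famF X ↔ Fam m ∧ m ≤ X := by
  unfold famF Pool.Agent.TLW.FF
  rw [Finset.mem_filter, Finset.mem_filter, Finset.mem_Icc]
  constructor
  · rintro ⟨⟨⟨_, h2⟩, h3⟩, h4, h5⟩
    exact ⟨⟨h4, h5, h3.1, h3.2⟩, h2⟩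
  · rintro ⟨h, hX⟩
    exact ⟨⟨⟨by have := h.one_lt; omega, hX⟩, h.sqf, h.pr⟩, h.one_lt, h.mod8⟩

/-- every member: `s` is even and at least `t7` -/
theorem selmer_all {m : ℕ} (hm : Fam m) : ∃ f₁ f₂ : ℕ,
    (Sel 0 (-4 * (m : ℤ) ^ 2)).ncard = 2 ^ f₁ ∧ (Sel 0 (16 * (m : ℤ) ^ 2)).ncard = 2 ^ f₂ ∧
      Even (f₁ + f₂) ∧ t7 m + 2 ≤ f₁ + f₂ := by
  classical
  obtain ⟨ρ, hρ, h1, h2⟩ := card_lin hm
  have ht := t_eq hm
  obtain ⟨k, hk⟩ := t7_even hm
  refine ⟨m.primeFactors.card - ρ + 2, t1 m - ρ, ?_, ?_, ?_, ?_⟩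
  · rw [card_sel1 hm, h1, pow_add]
    ring
  · rw [card_sel2 hm, h2]
  · refine ⟨k + (t1 m - ρ) + 1, ?_⟩
    omega
  · omega

/-- the good members with `t7 > 0` -/
theorem selmer_nice {m : ℕ} (hm : Fam m) (hn : Nice m) (h7 : 0 < t7 m) :
    (Sel 0 (-4 * (m : ℤ) ^ 2)).ncard = 2 ^ (t7 m + 2) ∧
      (Sel 0 (16 * (m : ℤ) ^ 2)).ncard = 1 := by
  classical
  obtain ⟨ρ, hρ, h1, h2⟩ := card_lin hm
  have ht := t_eq hm
  have hm0 : m ≠ 0 := by have := hm.one_lt; omega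
  have h3 : m.divisors.filter (fun d => (∀ p : ℕ, p.Prime → p ∣ d → p % 8 = 1) ∧ KA m d) = {1} := by
    ext d
    rw [Finset.mem_filter, Nat.mem_divisors, Finset.mem_singleton]
    constructor
    · rintro ⟨⟨hd, _⟩, h4, h5⟩
      rcases hn.ker d hd h5 with h | h
      · exact h
      · exfalso
        obtain ⟨p, hp⟩ := Finset.card_pos.1 h7
        rw [Finset.mem_filter] at hp
        have h6 := h4 p (Nat.prime_of_mem_primeFactors hp.1)
          (by rw [h]; exact Nat.dvd_of_mem_primeFactors hp.1)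
        have := hp.2
        omega
    · rintro rfl
      refine ⟨⟨one_dvd _, hm0⟩, ?_, ?_⟩
      · intro p hp hd
        exact absurd (Nat.dvd_one.1 hd) hp.ne_one
      · intro p hp _
        refine ⟨fun _ => ?_, fun hd => absurd (Nat.dvd_one.1 hd) hp.ne_one⟩
        rw [Nat.cast_one]
        exact jacobiSym.one_left p
  have h4 : (m.divisors.filter
      (fun d => (∀ p : ℕ, p.Prime → p ∣ d → p % 8 = 1) ∧ KA m d)).card = 1 := by
    rw [h3, Finset.card_singleton]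
  have h5 : t1 m - ρ = 0 := by
    rw [h4] at h2
    rcases Nat.eq_zero_or_pos (t1 m - ρ) with h | h
    · exact h
    · have := Nat.one_lt_two_pow (n := t1 m - ρ) (by omega)
      omega
  refine ⟨?_, ?_⟩
  · rw [card_sel1 hm, h1]
    have : m.primeFactors.card - ρ = t7 m := by omega
    rw [this, pow_add]
    ring
  · rw [card_sel2 hm, h4]

open Classical in
/-- the proportion of the good members is at least the product, in the limit -/
theorem prop_good (K : ℕ) (c : ℝ) (hc : c < ∏' i : ℕ, (1 - (1 / 2 : ℝ) ^ (i + 1))) :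
    ∀ᶠ X : ℕ in atTop, c * ((famF X).card : ℝ) ≤
      (((famF X).filter (fun m : ℕ => mwRank 0 (-4 * (m : ℤ) ^ 2) = 0 ∧ K ≤ t7 m ∧ Even (t7 m) ∧
        (Sel 0 (-4 * (m : ℤ) ^ 2)).ncard = 2 ^ (t7 m + 2) ∧
        (Sel 0 (16 * (m : ℤ) ^ 2)).ncard = 1)).card : ℝ) := by
  have hd : Tendsto (fun X : ℕ => (∑ m ∈ famF X, Pool.Agent.TLW.gT m) /
      ((famF X).card : ℝ)) atTop (𝓝 Pool.Agent.TLW.Pinf) := Pool.Agent.TLW.dens
  have hf := few_t7 (max K 1)
  have h1 := hd.sub hf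
  rw [sub_zero] at h1
  have h2 := (h1.eventually (lt_mem_nhds (show c < Pool.Agent.TLW.Pinf from hc)))
  filter_upwards [h2] with X hX
  rcases Nat.eq_zero_or_pos (famF X).card with h0 | h0
  · rw [h0]
    simp
  have hN : (0 : ℝ) < ((famF X).card : ℝ) := by exact_mod_cast h0
  have h3 : (∑ m ∈ famF X, Pool.Agent.TLW.gT m) -
      (((famF X).filter (fun m => t7 m < max K 1)).card : ℝ) ≥ c * ((famF X).card : ℝ) := by
    rw [← sub_div, lt_div_iff₀ hN] at hX
    exact hX.le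
  refine h3.le.trans ?_
  rw [sub_le_iff_le_add]
  have h4 : ∑ m ∈ famF X, Pool.Agent.TLW.gT m =
      (((famF X).filter (fun m => Pool.Agent.TLW.gT m = 1)).card : ℝ) := by
    rw [Finset.card_filter]
    push_cast
    refine Finset.sum_congr rfl fun m _ => ?_
    have : Pool.Agent.TLW.gT m = 0 ∨ Pool.Agent.TLW.gT m = 1 := by
      unfold Pool.Agent.TLW.gT
      split_ifs
      · exact Or.inr rfl
      · exact Or.inl rfl
    rcases this with h | h
    · rw [h, if_neg (by norm_num)]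
    · rw [h, if_pos rfl]
  rw [h4]
  have h5 : (famF X).filter (fun m => Pool.Agent.TLW.gT m = 1) ⊆
      ((famF X).filter (fun m : ℕ => mwRank 0 (-4 * (m : ℤ) ^ 2) = 0 ∧ K ≤ t7 m ∧ Even (t7 m) ∧
        (Sel 0 (-4 * (m : ℤ) ^ 2)).ncard = 2 ^ (t7 m + 2) ∧
        (Sel 0 (16 * (m : ℤ) ^ 2)).ncard = 1)) ∪
      ((famF X).filter (fun m => t7 m < max K 1)) := by
    intro m hm
    rw [Finset.mem_filter] at hm
    obtain ⟨hm1, hm2⟩ := hm
    have hF := (famF_iff.1 hm1).1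
    have hn := nice_of_gT hF hm2
    rw [Finset.mem_union, Finset.mem_filter, Finset.mem_filter]
    by_cases h7 : t7 m < max K 1
    · exact Or.inr ⟨hm1, h7⟩
    · push Not at h7
      obtain ⟨h8, h9⟩ := selmer_nice hF hn (by
        have := (le_max_right K 1).trans h7
        omega)
      exact Or.inl ⟨hm1, rank_zero hF hn, (le_max_left K 1).trans h7, t7_even hF, h8, h9⟩
  have h6 := (Finset.card_le_card h5).trans (Finset.card_union_le _ _)
  exact_mod_cast h6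

end Pool.Agent.RZ
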