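import Mathlib

set_option autoImplicit false

/-! `2 + √2` is a square modulo `p = ±1 mod 8` iff `p = ±1 mod 16` -/

namespace Pool.Agent.RZ

/-- an eighth root of `-1` in an algebraic closure adapted to a square root of two -/
theorem PHI_root {K : Type*} [Field K] [IsAlgClosed K] {u : K} (hu : u ^ 2 = 2) :
    ∃ z w : K, z * w = 1 ∧ z ^ 8 = -1 ∧ w ^ 8 = -1 ∧ z ^ 2 + w ^ 2 = u := by
  obtain ⟨z, hz⟩ := IsAlgClosed.exists_pow_nat_eq (-1 : K) (n := 8) (by norm_num)
  have hz0 : z ≠ 0 := by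
    rintro rfl
    norm_num at hz
  set w := z⁻¹ with hw
  have hzw : z * w = 1 := mul_inv_cancel₀ hz0
  have hw8 : w ^ 8 = -1 := by
    have h1 : z ^ 8 * w ^ 8 = 1 := by rw [← mul_pow, hzw, one_pow]
    rw [hz] at h1
    linear_combination -h1
  have h4 : z ^ 4 + w ^ 4 = 0 := by
    have h1 : z ^ 4 * w ^ 4 = 1 := by rw [← mul_pow, hzw, one_pow]
    have h2 : w ^ 4 * (z ^ 8 + 1) = 0 := by rw [hz]; ring
    linear_combination h2 - z ^ 4 * h1
  have hs : (z ^ 2 + w ^ 2) ^ 2 = u ^ 2 := by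
    have h1 : z ^ 2 * w ^ 2 = 1 := by rw [← mul_pow, hzw, one_pow]
    rw [hu]
    linear_combination h4 + 2 * h1
  rcases sq_eq_sq_iff_eq_or_eq_neg.1 hs with h | h
  · exact ⟨z, w, hzw, hz, hw8, h⟩
  · refine ⟨z ^ 3, w ^ 3, by rw [← mul_pow, hzw, one_pow], ?_, ?_, ?_⟩
    · calc (z ^ 3) ^ 8 = (z ^ 8) ^ 3 := by ring
        _ = -1 := by rw [hz]; ring
    · calc (w ^ 3) ^ 8 = (w ^ 8) ^ 3 := by ring
        _ = -1 := by rw [hw8]; ring
    · have h1 : z ^ 2 * w ^ 2 = 1 := by rw [← mul_pow, hzw, one_pow]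
      have e1 : z ^ 6 = - w ^ 2 := by
        have : z ^ 6 = z ^ 8 * w ^ 2 := by linear_combination (-z ^ 6) * h1
        rw [this, hz]; ring
      have e2 : w ^ 6 = - z ^ 2 := by
        have : w ^ 6 = w ^ 8 * z ^ 2 := by linear_combination (-w ^ 6) * h1
        rw [this, hw8]; ring
      calc (z ^ 3) ^ 2 + (w ^ 3) ^ 2 = z ^ 6 + w ^ 6 := by ring
        _ = -(z ^ 2 + w ^ 2) := by rw [e1, e2]; ring
        _ = u := by rw [h]; ring

/-- With `θ = ζ + ζ⁻¹`, `ζ` a primitive 16-th root of unity in an algebraic closure of `ZMod p`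
with `ζ² + ζ⁻² = u`: `θ² = 2 + u`, and `θ ∈ ZMod p` iff `θ ^ p = θ` iff `p = ±1 mod 16`. -/
theorem phi16 {p : ℕ} [Fact p.Prime] (h8 : p % 8 = 1 ∨ p % 8 = 7) {u : ZMod p} (hu : u ^ 2 = 2) :
    IsSquare (2 + u) ↔ (p % 16 = 1 ∨ p % 16 = 15) := by
  have hp : p.Prime := Fact.out
  have hp2 : p ≠ 2 := by rintro rfl; omega
  have h20 : (2 : ZMod p) ≠ 0 := by
    intro h
    have h1 : ((2 : ℕ) : ZMod p) = 0 := by exact_mod_cast h
    rw [ZMod.natCast_eq_zero_iff] at h1
    exact hp2 ((Nat.prime_dvd_prime_iff_eq hp Nat.prime_two).1 h1)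
  have hu0 : (2 : ZMod p) + u ≠ 0 := by
    intro h
    have h1 : u = -2 := by linear_combination h
    rw [h1] at hu
    apply h20
    linear_combination hu
  let K := AlgebraicClosure (ZMod p)
  let φ : ZMod p →+* K := algebraMap (ZMod p) K
  have hφ : Function.Injective φ := φ.injective
  have huK : (φ u) ^ 2 = 2 := by rw [← map_pow, hu]; exact map_ofNat φ 2
  obtain ⟨z, w, hzw, hz, hw, hzu⟩ := PHI_root huK
  have hth : (z + w) ^ 2 = φ (2 + u) := by
    rw [map_add, ← hzu]
    have : φ 2 = 2 := map_ofNat φ 2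
    rw [this]
    linear_combination 2 * hzw
  have hth0 : z + w ≠ 0 := by
    intro h
    rw [h] at hth
    apply hu0
    apply hφ
    rw [← hth, map_zero]
    ring
  have : CharP K p := by infer_instance
  have : ExpChar K p := ExpChar.prime hp
  have hfr : (z + w) ^ p = z ^ p + w ^ p := add_pow_char z w p
  have hodd : p % 2 = 1 := by omega
  have hpow : (φ (2 + u)) ^ (p / 2) * (z + w) = z ^ p + w ^ p := by
    rw [← hth, ← pow_mul, ← pow_succ, ← hfr]
    congr 1
    omega
  have hz16 : z ^ 16 = 1 := by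
    calc z ^ 16 = (z ^ 8) ^ 2 := by ring
      _ = 1 := by rw [hz]; ring
  have hw16 : w ^ 16 = 1 := by
    calc w ^ 16 = (w ^ 8) ^ 2 := by ring
      _ = 1 := by rw [hw]; ring
  have hzp : z ^ p = z ^ (p % 16) := by
    refine (congrArg (fun n : ℕ => z ^ n) (Nat.div_add_mod p 16).symm).trans ?_
    simp only [pow_add, pow_mul, hz16, one_pow, one_mul]
  have hwp : w ^ p = w ^ (p % 16) := by
    refine (congrArg (fun n : ℕ => w ^ n) (Nat.div_add_mod p 16).symm).trans ?_
    simp only [pow_add, pow_mul, hw16, one_pow, one_mul]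
  rw [ZMod.euler_criterion p hu0]
  have hiff : (2 + u) ^ (p / 2) = 1 ↔ z ^ p + w ^ p = z + w := by
    constructor
    · intro h
      rw [← hpow, ← map_pow, h, map_one, one_mul]
    · intro h
      rw [h] at hpow
      apply hφ
      rw [map_pow, map_one]
      exact mul_right_cancel₀ hth0 (by rw [hpow, one_mul])
  rw [hiff, hzp, hwp]
  have hneg : z + w ≠ -(z + w) := by
    intro h
    have h1 : (2 : K) * (z + w) = 0 := by linear_combination h
    rcases mul_eq_zero.1 h1 with h2 | h2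
    · apply h20
      apply hφ
      rw [map_zero]
      have : φ 2 = 2 := map_ofNat φ 2
      rw [this, h2]
    · exact hth0 h2
  have hcase : p % 16 = 1 ∨ p % 16 = 15 ∨ p % 16 = 7 ∨ p % 16 = 9 := by omega
  rcases hcase with h | h | h | h
  · rw [h]; simp
  · rw [h]
    have e1 : z ^ 15 = w := by linear_combination w * hz16 - z ^ 15 * hzw
    have e2 : w ^ 15 = z := by linear_combination z * hw16 - w ^ 15 * hzw
    rw [e1, e2]
    simp [add_comm]
  · rw [h]
    have e1 : z ^ 7 = -w := by linear_combination w * hz - z ^ 7 * hzw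
    have e2 : w ^ 7 = -z := by linear_combination z * hw - w ^ 7 * hzw
    rw [e1, e2]
    constructor
    · intro h1
      exact absurd (by linear_combination -h1) hneg
    · intro h1
      omega
  · rw [h]
    have e1 : z ^ 9 = -z := by linear_combination z * hz
    have e2 : w ^ 9 = -w := by linear_combination w * hw
    rw [e1, e2]
    constructor
    · intro h1
      exact absurd (by linear_combination -h1) hneg
    · intro h1
      omega

end Pool.Agent.RZ
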