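import Pool.Agent.RZ.BAS
import Pool.Agent.H23.Selmer
import Pool.Agent.H35.Local

set_option autoImplicit false

/-! The everywhere locally soluble classes of the curve, one inclusion.

Proof. `b` is squarefree and divides `4m²`, so `b = ±d` or `±2d` with `d ∣ m`. Let `p ∣ m`,
`p = 1 mod 8` (so `-1` is a fourth power and `2` is a square modulo `p`). `p ∤ d`: a primitive `p`-adic
solution of `N² = bM⁴ - (4m²/b)e⁴` has `N² = bM⁴ ≠ 0 mod p`, or `p ∣ M`, `p ∤ e` and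
`(N/p)² = -(2m/p)²/b e⁴ mod p`; so `(b/p) = 1`, `(d/p) = 1`. `p ∣ d`: `p ∣ N`,
`u M⁴ = v e⁴ mod p`, `u = b/p`, `v = 4m²/(bp)`, units, `uv = (2m/p)²`: `(2(m/p)/u)²` is a fourth power, so
`±2(m/p)/u` is a square, `((m/d)/p) = 1`. Tools as in `SL2`. -/

namespace Pool.Agent.RZ

open Pool.Agent.H23

theorem SL1_zmod_dvd {p : ℕ} {x : ℤ} (h : (x : ZMod p) = 0) : (p : ℤ) ∣ x :=
  (ZMod.intCast_zmod_eq_zero_iff_dvd x p).mp h

theorem SL1_lift {p : ℕ} (x : ZMod p) : ∃ n : ℤ, (n : ZMod p) = x := ZMod.intCast_surjective x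

theorem SL1_toZMod {p : ℕ} [Fact p.Prime] {x : ℤ_[p]} (h : (p : ℤ_[p]) ∣ x) :
    PadicInt.toZMod x = 0 := Pool.Agent.H35.toZMod_eq_zero.mpr h

/-- a `p`-adic integral solution, `p ∤ b` -/
theorem SL1_a {p : ℕ} [hp : Fact p.Prime] {b c k : ℤ} (hb : ¬ (p : ℤ) ∣ b) (hk : ¬ (p : ℤ) ∣ k)
    (hbc : b * c = -((p : ℤ) * k) ^ 2)
    (h : ∃ N M e : ℚ_[p], (M ≠ 0 ∨ e ≠ 0) ∧
      N ^ 2 = (b : ℚ_[p]) * M ^ 4 + ((0 : ℤ) : ℚ_[p]) * M ^ 2 * e ^ 2 + (c : ℚ_[p]) * e ^ 4) :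
    jacobiSym b p = 1 ∨ jacobiSym (-b) p = 1 := by
  have hpr : Prime (p : ℤ) := Nat.prime_iff_prime_int.mp hp.out
  have hpp : Prime (p : ℤ_[p]) := PadicInt.prime_p
  have hp0 : (p : ℤ_[p]) ≠ 0 := hpp.ne_zero
  -- p ^ 2 divides c
  have hc1 : (p : ℤ) ^ 2 ∣ c := by
    have hcop : IsCoprime ((p : ℤ) ^ 2) b := (hpr.coprime_iff_not_dvd.mpr hb).pow_left
    apply hcop.dvd_of_dvd_mul_left
    rw [hbc]
    exact ⟨-k ^ 2, by ring⟩
  obtain ⟨c', rfl⟩ := hc1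
  have hbc' : b * c' = -k ^ 2 := by
    have h2 : ((p : ℤ) ^ 2) * (b * c') = (p : ℤ) ^ 2 * (-k ^ 2) := by linear_combination hbc
    exact mul_left_cancel₀ (pow_ne_zero 2 hpr.ne_zero) h2
  obtain ⟨N, M, e, h0, h1⟩ := h
  rcases Pool.Agent.H35.norm_form h0 h1 with ⟨t, n, h3⟩ | ⟨t, n, ht, h3⟩
  · left
    have h4 := congrArg (PadicInt.toZMod (p := p)) h3
    simp only [map_pow, map_add, map_mul, map_intCast] at h4
    obtain ⟨n', hn'⟩ := SL1_lift (PadicInt.toZMod n)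
    have h5 : ((b * 1 ^ 2 - n' ^ 2 : ℤ) : ZMod p) = 0 := by
      have hpz : ((p : ℤ) : ZMod p) = 0 := by simp
      push_cast at h4 ⊢
      rw [hn', h4]
      push_cast at hpz
      simp
    have h6 := SL1_zmod_dvd h5
    refine jac_one hp.out (y := 1) (z := n') ?_ h6
    intro hn
    apply hb
    have h7 : (p : ℤ) ∣ (b * 1 ^ 2 - n' ^ 2) + n' ^ 2 := dvd_add h6 (dvd_pow hn two_ne_zero)
    simpa using h7
  · right
    obtain ⟨u, rfl⟩ := ht
    have hn : (p : ℤ_[p]) ∣ n := by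
      apply hpp.dvd_of_dvd_pow (n := 2)
      rw [h3]
      refine ⟨(b : ℤ_[p]) * p ^ 3 * u ^ 4 + (c' : ℤ_[p]) * p, ?_⟩
      push_cast
      ring
    obtain ⟨n1, rfl⟩ := hn
    have h4 : n1 ^ 2 = (b : ℤ_[p]) * p ^ 2 * u ^ 4 + (c' : ℤ_[p]) := by
      apply mul_left_cancel₀ (pow_ne_zero 2 hp0)
      push_cast at h3
      linear_combination h3
    have h5 := congrArg (PadicInt.toZMod (p := p)) h4
    simp only [map_pow, map_add, map_mul, map_intCast, map_natCast, ZMod.natCast_self] at h5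
    obtain ⟨n', hn'⟩ := SL1_lift (PadicInt.toZMod n1)
    have h6 : (((-b) * n' ^ 2 - k ^ 2 : ℤ) : ZMod p) = 0 := by
      have h7 : ((b * c' : ℤ) : ZMod p) = ((-k ^ 2 : ℤ) : ZMod p) := by rw [hbc']
      push_cast at h7 ⊢
      rw [hn', h5]
      linear_combination (-1 : ZMod p) * h7
    exact jac_one hp.out (y := n') (z := k) hk (SL1_zmod_dvd h6)

/-- a `p`-adic integral solution, `p` divides `b` once -/
theorem SL1_b {p : ℕ} [hp : Fact p.Prime] {b c k : ℤ} (hb : ¬ (p : ℤ) ∣ b) (hk : ¬ (p : ℤ) ∣ k)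
    (hbc : b * c = -k ^ 2)
    (h : ∃ N M e : ℚ_[p], (M ≠ 0 ∨ e ≠ 0) ∧
      N ^ 2 = (((p : ℤ) * b : ℤ) : ℚ_[p]) * M ^ 4 + ((0 : ℤ) : ℚ_[p]) * M ^ 2 * e ^ 2
        + (((p : ℤ) * c : ℤ) : ℚ_[p]) * e ^ 4) :
    jacobiSym (b * k) p = 1 ∨ jacobiSym (-(b * k)) p = 1 := by
  have hpr : Prime (p : ℤ) := Nat.prime_iff_prime_int.mp hp.out
  have hpp : Prime (p : ℤ_[p]) := PadicInt.prime_p
  have hp0 : (p : ℤ_[p]) ≠ 0 := hpp.ne_zero
  have hc : ¬ (p : ℤ) ∣ c := by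
    intro hc
    have : (p : ℤ) ∣ k ^ 2 := by
      have h2 : (p : ℤ) ∣ b * c := Dvd.dvd.mul_left hc b
      rw [hbc] at h2
      exact (dvd_neg.mp h2)
    exact hk (hpr.dvd_of_dvd_pow this)
  obtain ⟨N, M, e, h0, h1⟩ := h
  rcases Pool.Agent.H35.norm_form h0 h1 with ⟨t, n, h3⟩ | ⟨t, n, ht, h3⟩
  · have hn : (p : ℤ_[p]) ∣ n := by
      apply hpp.dvd_of_dvd_pow (n := 2)
      rw [h3]
      refine ⟨(b : ℤ_[p]) + (c : ℤ_[p]) * t ^ 4, ?_⟩
      push_cast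
      ring
    obtain ⟨n1, rfl⟩ := hn
    have h4 : (p : ℤ_[p]) * n1 ^ 2 = (b : ℤ_[p]) + (c : ℤ_[p]) * t ^ 4 := by
      apply mul_left_cancel₀ hp0
      push_cast at h3
      linear_combination h3
    have h5 := congrArg (PadicInt.toZMod (p := p)) h4
    simp only [map_pow, map_add, map_mul, map_intCast, map_natCast, ZMod.natCast_self,
      zero_mul] at h5
    obtain ⟨x, hx⟩ := SL1_lift (PadicInt.toZMod t)
    rw [← hx] at h5
    have h6 : (p : ℤ) ∣ b + c * x ^ 4 := by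
      apply SL1_zmod_dvd
      push_cast
      exact h5.symm
    have h7 : (p : ℤ) ∣ (b - k * x ^ 2) * (b + k * x ^ 2) := by
      have : (b - k * x ^ 2) * (b + k * x ^ 2) = b * (b + c * x ^ 4) := by
        linear_combination (-x ^ 4) * hbc
      rw [this]
      exact Dvd.dvd.mul_left h6 b
    have hx0 : ¬ (p : ℤ) ∣ x := by
      intro hx0
      apply hb
      have h8 : (p : ℤ) ∣ c * x ^ 4 := Dvd.dvd.mul_left (dvd_pow hx0 (by norm_num)) c
      have h9 := dvd_sub h6 h8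
      simpa using h9
    have hkx : ¬ (p : ℤ) ∣ k * x := by
      intro h8
      rcases hpr.dvd_or_dvd h8 with h8 | h8
      · exact hk h8
      · exact hx0 h8
    rcases hpr.dvd_or_dvd h7 with h8 | h8
    · left
      refine jac_one hp.out (y := 1) (z := k * x) hkx ?_
      have : b * k * 1 ^ 2 - (k * x) ^ 2 = k * (b - k * x ^ 2) := by ring
      rw [this]
      exact Dvd.dvd.mul_left h8 k
    · right
      refine jac_one hp.out (y := 1) (z := k * x) hkx ?_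
      have : -(b * k) * 1 ^ 2 - (k * x) ^ 2 = (-k) * (b + k * x ^ 2) := by ring
      rw [this]
      exact Dvd.dvd.mul_left h8 _
  · exfalso
    obtain ⟨u, rfl⟩ := ht
    have hn : (p : ℤ_[p]) ∣ n := by
      apply hpp.dvd_of_dvd_pow (n := 2)
      rw [h3]
      refine ⟨(b : ℤ_[p]) * (p * u) ^ 4 + (c : ℤ_[p]), ?_⟩
      push_cast
      ring
    obtain ⟨n1, rfl⟩ := hn
    have h4 : (p : ℤ_[p]) * n1 ^ 2 = (b : ℤ_[p]) * (p * u) ^ 4 + (c : ℤ_[p]) := by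
      apply mul_left_cancel₀ hp0
      push_cast at h3
      linear_combination h3
    apply hc
    rw [← Pool.Agent.H35.dvd_int_iff (p := p)]
    refine ⟨n1 ^ 2 - (b : ℤ_[p]) * p ^ 3 * u ^ 4, ?_⟩
    linear_combination (-1 : ℤ_[p]) * h4

theorem SL1_neg_one {p : ℕ} (h8 : p % 8 = 1) : jacobiSym (-1) p = 1 := by
  have hodd : Odd p := by rw [Nat.odd_iff]; omega
  rw [jacobiSym.at_neg_one hodd, ZMod.χ₄_nat_one_mod_four (by omega)]

theorem SL1_neg {p : ℕ} (h8 : p % 8 = 1) (x : ℤ) : jacobiSym (-x) p = jacobiSym x p := by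
  rw [← neg_one_mul, jacobiSym.mul_left, SL1_neg_one h8, one_mul]

/-- the shape of a squarefree divisor of `4m²` -/
theorem SL1_shape {m : ℕ} {b : ℤ} (hb : Squarefree b)
    (hd : b ∣ -4 * (m : ℤ) ^ 2) :
    ∃ (s : ℤ) (ε d : ℕ), (s = 1 ∨ s = -1) ∧ (ε = 0 ∨ ε = 1) ∧ d ∣ m ∧ b = s * 2 ^ ε * d := by
  have h1 : b ∣ 2 * (m : ℤ) := by
    apply (hb.dvd_pow_iff_dvd two_ne_zero).mp
    have : (2 * (m : ℤ)) ^ 2 = -(-4 * (m : ℤ) ^ 2) := by ring
    rw [this]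
    exact (dvd_neg).mpr hd
  have h2 : b.natAbs ∣ 2 * m := by
    have := Int.natAbs_dvd_natAbs.mpr h1
    simpa [Int.natAbs_mul] using this
  obtain ⟨s, hs, hbs⟩ : ∃ s : ℤ, (s = 1 ∨ s = -1) ∧ b = s * b.natAbs := by
    rcases Int.natAbs_eq b with h | h
    · exact ⟨1, Or.inl rfl, by rw [one_mul]; exact h⟩
    · exact ⟨-1, Or.inr rfl, by rw [neg_one_mul]; exact h⟩
  by_cases h2b : 2 ∣ b.natAbs
  · obtain ⟨d, hd'⟩ := h2b
    refine ⟨s, 1, d, hs, Or.inr rfl, ?_, ?_⟩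
    · rw [hd'] at h2
      exact (Nat.mul_dvd_mul_iff_left (by norm_num)).mp h2
    · rw [hbs, hd']
      push_cast
      ring
  · refine ⟨s, 0, b.natAbs, hs, Or.inl rfl, ?_, ?_⟩
    · exact Nat.Coprime.dvd_of_dvd_mul_left
        ((Nat.Prime.coprime_iff_not_dvd Nat.prime_two).mpr h2b).symm h2
    · rw [pow_zero, mul_one]
      exact hbs

theorem SL1_sign {p : ℕ} (h8 : p % 8 = 1) {s : ℤ} (hs : s = 1 ∨ s = -1) :
    jacobiSym s p = 1 := by
  rcases hs with rfl | rfl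
  · exact jacobiSym.one_left p
  · exact SL1_neg_one h8

theorem SL1_twopow {p : ℕ} (hp : p.Prime) (h8 : p % 8 = 1) (n : ℕ) :
    jacobiSym (2 ^ n) p = 1 := by
  rw [jacobiSym.pow_left, jac_two hp (Or.inl h8), one_pow]

theorem sel1_nec {m : ℕ} (hm : Fam m) {b : ℤ} (hb : b ∈ Sel 0 (-4 * (m : ℤ) ^ 2)) :
    ∃ (s : ℤ) (ε d : ℕ), (s = 1 ∨ s = -1) ∧ (ε = 0 ∨ ε = 1) ∧ d ∣ m ∧ b = s * 2 ^ ε * d ∧
      CS m d := by
  obtain ⟨hsq, hdvd, -, hloc⟩ := hb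
  obtain ⟨s, ε, d, hs, hε, hdm, hbs⟩ := SL1_shape hsq hdvd
  refine ⟨s, ε, d, hs, hε, hdm, hbs, ?_⟩
  intro p hp hpm h8
  have : Fact p.Prime := ⟨hp⟩
  have hpr : Prime (p : ℤ) := Nat.prime_iff_prime_int.mp hp
  have hp2 : ¬ (p : ℤ) ∣ 2 := by
    intro h
    have h1 : p ∣ 2 := by exact_mod_cast h
    have h2 : p ≤ 2 := Nat.le_of_dvd (by norm_num) h1
    have h3 : 2 ≤ p := hp.two_le
    omega
  have hps : ¬ (p : ℤ) ∣ s := by
    intro h
    have h1 : (p : ℤ) ∣ 1 := by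
      rcases hs with rfl | rfl
      · exact h
      · exact (dvd_neg.mp h)
    exact hpr.not_isUnit (isUnit_of_dvd_one h1)
  have hp2e : ¬ (p : ℤ) ∣ 2 ^ ε := fun h => hp2 (hpr.dvd_of_dvd_pow h)
  have hpse : ¬ (p : ℤ) ∣ s * 2 ^ ε := by
    intro h
    rcases hpr.dvd_or_dvd h with h | h
    · exact hps h
    · exact hp2e h
  obtain ⟨m1, hm1⟩ := hpm
  have hm0 : m ≠ 0 := hm.sqf.ne_zero
  have hpm1 : ¬ p ∣ m1 := by
    rintro ⟨k, rfl⟩
    have h1 : p * p ∣ m := ⟨k, by rw [hm1]; ring⟩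
    exact hp.one_lt.ne' (Nat.isUnit_iff.mp (hm.sqf p h1))
  have hpm1' : ¬ (p : ℤ) ∣ (m1 : ℤ) := by exact_mod_cast hpm1
  have hpk : ¬ (p : ℤ) ∣ 2 * m1 := by
    intro h
    rcases hpr.dvd_or_dvd h with h | h
    · exact hp2 h
    · exact hpm1' h
  have hb0 : b ≠ 0 := hsq.ne_zero
  obtain ⟨c, hc⟩ := hdvd
  have hdiv : (-4 * (m : ℤ) ^ 2) / b = c := by rw [hc]; exact Int.mul_ediv_cancel_left c hb0
  have hl := hloc p
  rw [hdiv] at hl
  have hmz : (m : ℤ) = p * m1 := by rw [hm1]; push_cast; ring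
  constructor
  · intro hpd
    have hpd' : ¬ (p : ℤ) ∣ (d : ℤ) := by exact_mod_cast hpd
    have hpb : ¬ (p : ℤ) ∣ b := by
      rw [hbs]
      intro h
      rcases hpr.dvd_or_dvd h with h | h
      · exact hpse h
      · exact hpd' h
    have h1 : jacobiSym b p = 1 := by
      have h2 := SL1_a hpb hpk (k := 2 * (m1 : ℤ)) (by rw [← hc, hmz]; ring) hl
      rcases h2 with h2 | h2
      · exact h2
      · rw [SL1_neg h8] at h2; exact h2
    rw [hbs, jacobiSym.mul_left, jacobiSym.mul_left, SL1_sign h8 hs, SL1_twopow hp h8, one_mul,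
      one_mul] at h1
    exact h1
  · intro hpd
    obtain ⟨d1, hd1⟩ := hpd
    obtain ⟨m', hm'⟩ := hdm
    have hd0 : 0 < d := Nat.pos_of_ne_zero (fun h => hm0 (by rw [hm', h, zero_mul]))
    have hmd : m / d = m' := by rw [hm']; exact Nat.mul_div_cancel_left m' hd0
    rw [hmd]
    have hm1' : m1 = m' * d1 := by
      have h1 : p * m1 = p * (m' * d1) := by rw [← hm1, hm', hd1]; ring
      exact Nat.eq_of_mul_eq_mul_left hp.pos h1
    have hpd1 : ¬ (p : ℤ) ∣ (d1 : ℤ) := by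
      intro h
      apply hpm1'
      rw [hm1']
      push_cast
      exact Dvd.dvd.mul_left h _
    -- b = p b1, c = p c1
    have hb1 : b = (p : ℤ) * (s * 2 ^ ε * d1) := by rw [hbs, hd1]; push_cast; ring
    have hpb1 : ¬ (p : ℤ) ∣ s * 2 ^ ε * d1 := by
      intro h
      rcases hpr.dvd_or_dvd h with h | h
      · exact hpse h
      · exact hpd1 h
    have hcc : (s * 2 ^ ε * d1) * c = (p : ℤ) * (-(2 * (m1 : ℤ)) ^ 2) := by
      apply mul_left_cancel₀ hpr.ne_zero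
      have : (p : ℤ) * (s * 2 ^ ε * d1 * c) = b * c := by rw [hb1]; ring
      rw [this, ← hc, hmz]
      ring
    have hpc : (p : ℤ) ∣ c := by
      have h1 : (p : ℤ) ∣ (s * 2 ^ ε * d1) * c := ⟨_, hcc⟩
      rcases hpr.dvd_or_dvd h1 with h1 | h1
      · exact absurd h1 hpb1
      · exact h1
    obtain ⟨c1, hc1⟩ := hpc
    have hbc1 : (s * 2 ^ ε * d1) * c1 = -(2 * (m1 : ℤ)) ^ 2 := by
      apply mul_left_cancel₀ hpr.ne_zero
      rw [← hcc, hc1]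
      ring
    rw [hb1, hc1] at hl
    have h1 : jacobiSym ((s * 2 ^ ε * d1) * (2 * (m1 : ℤ))) p = 1 := by
      rcases SL1_b hpb1 hpk hbc1 hl with h2 | h2
      · exact h2
      · rw [SL1_neg h8] at h2; exact h2
    have h2 : (s * 2 ^ ε * d1) * (2 * (m1 : ℤ)) = s * 2 ^ (ε + 1) * (m' : ℤ) * (d1 : ℤ) ^ 2 := by
      rw [hm1']; push_cast; ring
    have h3 : jacobiSym ((d1 : ℤ) ^ 2) p = 1 := by
      refine jac_one hp (y := 1) (z := d1) hpd1 ?_
      simp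
    rw [h2, jacobiSym.mul_left, jacobiSym.mul_left, jacobiSym.mul_left, SL1_sign h8 hs,
      SL1_twopow hp h8, one_mul, one_mul, h3, mul_one] at h1
    exact h1

end Pool.Agent.RZ
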