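import Pool.Agent.RZ.BAS
import Pool.Agent.RZ.SYM

set_option autoImplicit false

/-! `Sys0`: local conditions. `p ∣ a`: `X² = DZ²`, so `(D/p) = 1`. `p ∣ D`: `X² = -8ae²`, so
`(-2a/p) = (-a/p) = 1`. Apply `nine_of`. -/

namespace Pool.Agent.RZ

private lemma v0l_mod {m : ℕ} (hm : Fam m) {p : ℕ} (hp : p.Prime) (h : (p : ℤ) ∣ (m : ℤ)) :
    p % 8 = 1 ∨ p % 8 = 7 :=
  hm.pr p (Nat.mem_primeFactors.2 ⟨hp, Int.natCast_dvd_natCast.1 h, by have := hm.one_lt; omega⟩)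

private lemma v0l_unit {p : ℕ} (hp : p.Prime) {x y : ℤ} (hc : IsCoprime x y) (hx : (p : ℤ) ∣ x)
    (hy : (p : ℤ) ∣ y) : False :=
  (Nat.prime_iff_prime_int.1 hp).not_isUnit (hc.isUnit_of_dvd' hx hy)

theorem sys0_nine_or {m : ℕ} (hm : Fam m) (hn : Nice m) {a D X Y Z e : ℤ}
    (h : Sys0 m a D X Y Z e) : D = 1 ∨ D % 16 = 9 := by
  refine nine_of hm hn h.prod h.D8 ?_ ?_
  · intro p hp hpa
    have hX : ¬ (p : ℤ) ∣ X := fun hX => v0l_unit hp h.cop hX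
      (by rw [mul_assoc]; exact Dvd.dvd.mul_left (Dvd.dvd.mul_right hpa _) _)
    refine jac_one hp (y := Z) hX ?_
    have e1 : D * Z ^ 2 - X ^ 2 = a * (8 * e ^ 2) := by linear_combination -h.e2
    rw [e1]
    exact Dvd.dvd.mul_right hpa _
  · intro p hp hpD
    have hpr : Prime (p : ℤ) := Nat.prime_iff_prime_int.1 hp
    have hpm : (p : ℤ) ∣ (m : ℤ) := by
      rw [← h.prod]; exact Dvd.dvd.mul_left hpD _
    have hX : ¬ (p : ℤ) ∣ X := by
      intro hX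
      refine v0l_unit hp h.cop hX (hpr.dvd_of_dvd_pow (n := 3) ?_)
      have e2 : (2 * a * e) ^ 3 = (D * Z ^ 2 - X ^ 2) * (a ^ 2 * e) := by
        linear_combination (a ^ 2 * e) * h.e2
      rw [e2]
      exact Dvd.dvd.mul_right (dvd_sub (Dvd.dvd.mul_right hpD _) (dvd_pow hX two_ne_zero)) _
    have h1 : jacobiSym (2 * -a) p = 1 := by
      refine jac_one hp (y := 2 * e) hX ?_
      have e1 : 2 * -a * (2 * e) ^ 2 - X ^ 2 = D * (-Z ^ 2) := by linear_combination -h.e2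
      rw [e1]
      exact Dvd.dvd.mul_right hpD _
    rw [jacobiSym.mul_left, jac_two hp (v0l_mod hm hp hpm), one_mul] at h1
    exact h1

end Pool.Agent.RZ
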