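import Pool.Agent.RZ.BAS

set_option autoImplicit false

/-! `Sys0` with `D = 9 mod 16` is impossible.

Proof. A prime `q` of `Z` is odd and prime to `X`, `e`: `Y² = X² - 8ae² = 2X² mod q` (as
`8ae² = -X² mod q`), so `q = ±1 mod 8` (`two_res`); hence `Z² = 1 mod 16` (`sq_mod16`) and
`X² = D Z² - 8ae² = 9 - 8e² mod 16` (`a` odd): `X = ±3 mod 8` if `e` even, `X = ±1 mod 8` if `e` odd.
If `e = 0` then `X² = 1 = D Z²`, impossible. Else `(X - Y)(X + Y) = 8ae²`, `X`, `Y` odd and coprime;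
after `Y → -Y`: `X - Y = 2u`, `X + Y = 4v`, `u v = a e²`, coprime, `u = a₁r²`, `v = a₂s²`, `a₁a₂ = a`,
`rs = e` (`split_sq`), `r` odd, `X = a₁r² + 2a₂s²`, `a₁, a₂ = ±1 mod 8` (`dvd_mod8`) and
`a = 1 mod 8` (as `aD = m`), so `a₁ = a₂ mod 8`: `X = ±1` (`e` even, `s` even) or `±3` (`e` odd)
modulo 8. Contradiction. -/

namespace Pool.Agent.RZ

private lemma v0n_unit {p : ℕ} (hp : p.Prime) {x y : ℤ} (hc : IsCoprime x y) (hx : (p : ℤ) ∣ x)
    (hy : (p : ℤ) ∣ y) : False :=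
  (Nat.prime_iff_prime_int.1 hp).not_isUnit (hc.isUnit_of_dvd' hx hy)

private lemma v0n_mod8 (x : ℤ) : x % 8 = 0 ∨ x % 8 = 1 ∨ x % 8 = 2 ∨ x % 8 = 3 ∨ x % 8 = 4 ∨
    x % 8 = 5 ∨ x % 8 = 6 ∨ x % 8 = 7 := by omega

/-- squares modulo 16 by the class modulo 8 -/
private lemma v0n_sq (x : ℤ) : (x ^ 2 % 16 = 9 → x % 8 = 3 ∨ x % 8 = 5) ∧
    (x ^ 2 % 16 = 1 → x % 8 = 1 ∨ x % 8 = 7) := by
  obtain ⟨k, hk⟩ : ∃ k, x = 8 * k + x % 8 := ⟨x / 8, by omega⟩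
  have e1 : x ^ 2 % 16 = (x % 8) ^ 2 % 16 := by
    have : x ^ 2 = (x % 8) ^ 2 + 16 * (4 * k ^ 2 + k * (x % 8)) := by
      conv_lhs => rw [hk]
      ring
    rw [this, Int.add_mul_emod_self_left]
  rw [e1]
  rcases v0n_mod8 x with h | h | h | h | h | h | h | h <;> rw [h] <;> norm_num

/-- the last step, modulo 8 -/
private lemma v0n_fin {a₁ a₂ r s X : ℤ} (hX : X = a₁ * r ^ 2 + 2 * (a₂ * s ^ 2))
    (h1 : a₁ % 8 = 1 ∨ a₁ % 8 = 7) (h2 : a₂ % 8 = a₁ % 8) (hr : r % 2 = 1) :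
    (s % 2 = 0 → X % 8 = 1 ∨ X % 8 = 7) ∧ (s % 2 = 1 → X % 8 = 3 ∨ X % 8 = 5) := by
  obtain ⟨k, hk⟩ : ∃ k, r = 2 * k + 1 := ⟨r / 2, by omega⟩
  have hr2 : ∃ j, r ^ 2 = 8 * j + 1 := by
    rcases Int.even_mul_succ_self k with ⟨j, hj⟩
    exact ⟨j, by rw [hk]; linear_combination 4 * hj⟩
  obtain ⟨j, hj⟩ := hr2
  obtain ⟨w, hw⟩ : ∃ w, a₂ = a₁ + 8 * w := ⟨(a₂ - a₁) / 8, by omega⟩
  constructor
  · intro hs
    obtain ⟨l, hl⟩ : ∃ l, s = 2 * l := ⟨s / 2, by omega⟩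
    have : X = a₁ + 8 * (a₁ * j + a₂ * l ^ 2) := by rw [hX, hj, hl]; ring
    omega
  · intro hs
    obtain ⟨l, hl⟩ : ∃ l, s = 2 * l + 1 := ⟨s / 2, by omega⟩
    have : X = 3 * a₁ + 8 * (a₁ * j + a₂ * (l ^ 2 + l) + 2 * w) := by
      rw [hX, hj, hl, hw]; ring
    omega

theorem sys0_not_nine {m : ℕ} (hm : Fam m) {a D X Y Z e : ℤ} (h : Sys0 m a D X Y Z e)
    (h9 : D % 16 = 9) : False := by
  have hm8 : (m : ℤ) % 8 = 1 := by have := hm.mod8; omega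
  have ha8 : a % 8 = 1 := by
    obtain ⟨j, hj⟩ : ∃ j, D = 8 * j + 1 := ⟨D / 8, by omega⟩
    have h1 : a = (m : ℤ) + 8 * (-(a * j)) := by rw [← h.prod, hj]; ring
    omega
  -- parity
  have h2X : X % 2 = 1 := by
    by_contra hX
    have hX' : ((2 : ℕ) : ℤ) ∣ X := by push_cast; omega
    exact v0n_unit Nat.prime_two h.cop hX' (by push_cast; rw [mul_assoc]; exact Dvd.intro _ rfl)
  obtain ⟨x, hx⟩ : ∃ x, X = 2 * x + 1 := ⟨X / 2, by omega⟩
  have h2Z : ¬ (2 : ℤ) ∣ Z := by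
    rintro ⟨z, hz⟩
    have h1 : (1 : ℤ) = 2 * (D * (2 * z ^ 2) - 2 * x ^ 2 - 2 * x - 4 * a * e ^ 2) := by
      have := h.e2
      rw [hx, hz] at this
      linear_combination this
    omega
  have h2Y : Y % 2 = 1 := by
    by_contra hY
    obtain ⟨y, hy⟩ : ∃ y, Y = 2 * y := ⟨Y / 2, by omega⟩
    have h1 : (1 : ℤ) = 2 * (2 * y ^ 2 - 2 * x ^ 2 - 2 * x + 4 * a * e ^ 2) := by
      have := h.e1
      rw [hx, hy] at this
      linear_combination this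
    omega
  -- the square of `Z`
  have hZ16 : Z ^ 2 % 16 = 1 := by
    refine sq_mod16 h2Z ?_
    intro p hp hpZ
    have hp2 : p ≠ 2 := by
      rintro rfl
      exact h2Z (by exact_mod_cast hpZ)
    have hpr : Prime (p : ℤ) := Nat.prime_iff_prime_int.1 hp
    refine two_res hp hp2 (X := X) (Y := Y) ?_ ?_
    · intro hX
      refine v0n_unit hp h.cop hX (hpr.dvd_of_dvd_pow (n := 3) ?_)
      have e2 : (2 * a * e) ^ 3 = (D * Z ^ 2 - X ^ 2) * (a ^ 2 * e) := by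
        linear_combination (a ^ 2 * e) * h.e2
      rw [e2]
      exact Dvd.dvd.mul_right (dvd_sub (Dvd.dvd.mul_left (dvd_pow hpZ two_ne_zero) _)
        (dvd_pow hX two_ne_zero)) _
    · have e1 : Y ^ 2 - 2 * X ^ 2 = -D * Z ^ 2 := by linear_combination -h.e1 - h.e2
      rw [e1]
      exact Dvd.dvd.mul_left (dvd_pow hpZ two_ne_zero) _
  -- the square of `X`
  have hX16 : (e % 2 = 0 → X ^ 2 % 16 = 9) ∧ (e % 2 = 1 → X ^ 2 % 16 = 1) := by
    obtain ⟨j, hj⟩ : ∃ j, D = 16 * j + 9 := ⟨D / 16, by omega⟩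
    obtain ⟨k, hk⟩ : ∃ k, Z ^ 2 = 16 * k + 1 := ⟨Z ^ 2 / 16, by omega⟩
    obtain ⟨l, hl⟩ : ∃ l, a = 2 * l + 1 := ⟨a / 2, by omega⟩
    have h0 : X ^ 2 = D * Z ^ 2 - 8 * a * e ^ 2 := by linear_combination h.e2
    constructor
    · intro he
      obtain ⟨f, hf⟩ : ∃ f, e = 2 * f := ⟨e / 2, by omega⟩
      have : X ^ 2 = 9 + 16 * (j * Z ^ 2 + 9 * k - 2 * a * f ^ 2) := by
        rw [h0, hf]
        nth_rewrite 1 [hj]
        linear_combination 9 * hk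
      omega
    · intro he
      obtain ⟨f, hf⟩ : ∃ f, e = 2 * f + 1 := ⟨e / 2, by omega⟩
      have : X ^ 2 = 1 + 16 * (j * Z ^ 2 + 9 * k - l * e ^ 2 - 2 * f ^ 2 - 2 * f) := by
        rw [h0]
        nth_rewrite 1 [hj]
        nth_rewrite 1 [hl]
        have : e ^ 2 = 4 * f ^ 2 + 4 * f + 1 := by rw [hf]; ring
        linear_combination 9 * hk - 8 * this
      omega
  have hsq := v0n_sq X
  -- `e ≠ 0`
  have he0 : e ≠ 0 := by
    rintro rfl
    have hc := h.cop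
    rw [mul_zero, isCoprime_zero_right, Int.isUnit_iff] at hc
    have := hX16.1 (by norm_num)
    rcases hc with hc | hc <;> rw [hc] at this <;> norm_num at this
  -- the key factorisation
  have key : ∀ Y' : ℤ, Y' ^ 2 = Y ^ 2 → (X + Y') % 4 = 0 → (X - Y') % 2 = 0 → False := by
    intro Y' hY' h4 h2
    obtain ⟨v, hv⟩ : ∃ v, X + Y' = 4 * v := ⟨(X + Y') / 4, by omega⟩
    obtain ⟨u, hu⟩ : ∃ u, X - Y' = 2 * u := ⟨(X - Y') / 2, by omega⟩
    have hXuv : X = u + 2 * v := by omega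
    have huv : u * v = a * e ^ 2 := by
      have h1 : (X - Y') * (X + Y') = 8 * a * e ^ 2 := by linear_combination h.e1 - hY'
      rw [hu, hv] at h1
      linarith
    have hc1 : IsCoprime X (u * v) := by
      rw [huv]
      have h1 : IsCoprime X (a * e) := by
        have h2 := h.cop
        rw [mul_assoc] at h2
        exact h2.of_mul_right_right
      exact h1.of_mul_right_left.mul_right (h1.of_mul_right_right.pow_right)
    have hc : IsCoprime u v := by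
      have h1 : IsCoprime (u + 2 * v) v := by rw [← hXuv]; exact hc1.of_mul_right_right
      exact h1.of_add_mul_right_left
    have hadm : a ∣ (m : ℤ) := ⟨D, h.prod.symm⟩
    have hsf : Squarefree a := by
      have h1 : Squarefree ((m : ℕ) : ℤ) := Int.squarefree_natCast.2 hm.sqf
      exact h1.squarefree_of_dvd hadm
    obtain ⟨a₁, a₂, r, s, h5, h6, h7, h8⟩ := split_sq huv hc hsf he0
    have d1 := dvd_mod8 hm (d := a₁) ((Dvd.intro _ h7).trans hadm)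
    have d2 := dvd_mod8 hm (d := a₂) ((Dvd.intro_left _ h7).trans hadm)
    have h12 : a₂ % 8 = a₁ % 8 := by
      have e1 : (a₁ * a₂) % 8 = ((a₁ % 8) * (a₂ % 8)) % 8 := Int.mul_emod _ _ _
      rw [h7, ha8] at e1
      rcases d1 with d1 | d1 <;> rcases d2 with d2 | d2 <;> rw [d1, d2] at e1 <;>
        first | (exfalso; omega) | (rw [d1, d2])
    have hur : r % 2 = 1 := by
      by_contra hr
      obtain ⟨r', hr'⟩ : ∃ r', r = 2 * r' := ⟨r / 2, by omega⟩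
      have : u = 2 * (2 * a₁ * r' ^ 2) := by rw [h5, hr']; ring
      omega
    have hXX : X = a₁ * r ^ 2 + 2 * (a₂ * s ^ 2) := by rw [← h5, ← h6]; exact hXuv
    obtain ⟨f0, f1⟩ := v0n_fin hXX d1 h12 hur
    obtain ⟨ρ, hρ⟩ : ∃ ρ, r = 2 * ρ + 1 := ⟨r / 2, by omega⟩
    rcases Int.emod_two_eq_zero_or_one s with hs | hs
    · have he : e % 2 = 0 := by
        obtain ⟨σ, hσ⟩ : ∃ σ, s = 2 * σ := ⟨s / 2, by omega⟩
        have : e = 2 * (r * σ) := by rw [← h8, hσ]; ring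
        omega
      have := f0 hs
      have := hsq.1 (hX16.1 he)
      omega
    · have he : e % 2 = 1 := by
        obtain ⟨σ, hσ⟩ : ∃ σ, s = 2 * σ + 1 := ⟨s / 2, by omega⟩
        have : e = 2 * (2 * ρ * σ + ρ + σ) + 1 := by rw [← h8, hσ, hρ]; ring
        omega
      have := f1 hs
      have := hsq.2 (hX16.2 he)
      omega
  have h4 : (X + Y) % 4 = 0 ∨ (X - Y) % 4 = 0 := by omega
  rcases h4 with h4 | h4
  · exact key Y rfl h4 (by omega)
  · exact key (-Y) (by ring) (by rw [← sub_eq_add_neg]; exact h4) (by omega)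

end Pool.Agent.RZ
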