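import Pool.Agent.RZ.BAS
import Pool.Agent.RZ.SYM

set_option autoImplicit false

/-! `Sys1`: local conditions. `p ∣ c`: `bX² = 8e²`, so `(2b/p) = (b/p) = 1`. `p ∣ b`:
`-8e² = cY²`, so `(-2c/p) = (-c/p) = 1`. Apply `nine_of` with `a := c`, `D := b`. -/

namespace Pool.Agent.RZ

private lemma v1l_mod {m : ℕ} (hm : Fam m) {p : ℕ} (hp : p.Prime) (h : (p : ℤ) ∣ (m : ℤ)) :
    p % 8 = 1 ∨ p % 8 = 7 :=
  hm.pr p (Nat.mem_primeFactors.2 ⟨hp, Int.natCast_dvd_natCast.1 h, by have := hm.one_lt; omega⟩)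

private lemma v1l_unit {p : ℕ} (hp : p.Prime) {x y : ℤ} (hc : IsCoprime x y) (hx : (p : ℤ) ∣ x)
    (hy : (p : ℤ) ∣ y) : False :=
  (Nat.prime_iff_prime_int.1 hp).not_isUnit (hc.isUnit_of_dvd' hx hy)

theorem sys1_nine_or {m : ℕ} (hm : Fam m) (hn : Nice m) {b c X Y Z e : ℤ}
    (h : Sys1 m b c X Y Z e) : b = 1 ∨ b % 16 = 9 := by
  have hodd : ∀ p : ℕ, p.Prime → (p : ℤ) ∣ (m : ℤ) → ¬ (p : ℤ) ∣ e → ¬ (p : ℤ) ∣ 4 * e := by
    intro p hp hpm hpe h4
    have hpr : Prime (p : ℤ) := Nat.prime_iff_prime_int.1 hp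
    rcases hpr.dvd_or_dvd h4 with h5 | h5
    · have h6 : p ∣ 4 := by exact_mod_cast h5
      have h7 : p ∣ 2 := hp.dvd_of_dvd_pow (n := 2) (by simpa using h6)
      have h8 := (Nat.prime_dvd_prime_iff_eq hp Nat.prime_two).1 h7
      have := v1l_mod hm hp hpm
      omega
    · exact hpe h5
  refine nine_of hm hn (a := c) (D := b) (by rw [← h.prod, mul_comm]) h.b8 ?_ ?_
  · intro p hp hpc
    have hpr : Prime (p : ℤ) := Nat.prime_iff_prime_int.1 hp
    have hpm : (p : ℤ) ∣ (m : ℤ) := by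
      rw [← h.prod]; exact Dvd.dvd.mul_left hpc _
    have he : ¬ (p : ℤ) ∣ e := by
      intro he
      refine v1l_unit hp h.cop (hpr.dvd_of_dvd_pow (n := 2) ?_) (Dvd.dvd.mul_left he _)
      have e2 : (b * X) ^ 2 = (c * Y ^ 2 + 8 * e ^ 2) * b := by
        linear_combination b * h.e1
      rw [e2]
      exact Dvd.dvd.mul_right (dvd_add (Dvd.dvd.mul_right hpc _)
        (Dvd.dvd.mul_left (dvd_pow he two_ne_zero) _)) _
    have h1 : jacobiSym (2 * b) p = 1 := by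
      refine jac_one hp (y := X) (hodd p hp hpm he) ?_
      have e1 : 2 * b * X ^ 2 - (4 * e) ^ 2 = c * (2 * Y ^ 2) := by linear_combination 2 * h.e1
      rw [e1]
      exact Dvd.dvd.mul_right hpc _
    rw [jacobiSym.mul_left, jac_two hp (v1l_mod hm hp hpm), one_mul] at h1
    exact h1
  · intro p hp hpb
    have hpm : (p : ℤ) ∣ (m : ℤ) := by
      rw [← h.prod]; exact Dvd.dvd.mul_right hpb _
    have he : ¬ (p : ℤ) ∣ e := fun he =>
      v1l_unit hp h.cop (Dvd.dvd.mul_right hpb _) (Dvd.dvd.mul_left he _)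
    have h1 : jacobiSym (2 * -c) p = 1 := by
      refine jac_one hp (y := Y) (hodd p hp hpm he) ?_
      have e1 : 2 * -c * Y ^ 2 - (4 * e) ^ 2 = b * (-2 * X ^ 2) := by linear_combination 2 * h.e1
      rw [e1]
      exact Dvd.dvd.mul_right hpb _
    rw [jacobiSym.mul_left, jac_two hp (v1l_mod hm hp hpm), one_mul] at h1
    exact h1

end Pool.Agent.RZ
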