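import Pool.Agent.RZ.BAS

set_option autoImplicit false

/-! `Sys1` with `b = 9 mod 16` is impossible.

Proof. A prime `q` of `X` is odd, prime to `e`: `Z² = 8e² mod q`, so `q = ±1 mod 8` and
`X² = 1 mod 16`, `Z² = b X² + 8e² = 9 + 8e² mod 16`: `Z = ±3 mod 8` if `e` even, `±1` if `e` odd.
On the other hand `(Z - 4e)(Z + 4e) = c Y²` (`Z² - 16e² = bX² - 8e²`), `Z` odd and prime to `e`, the
factors coprime, `Y ≠ 0`: `Z - 4e = c₁g²`, `c₁ ∣ c ∣ m`, `c₁ = ±1 mod 8`, `g` odd, so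
`Z = ±1 + 4e mod 8`: `±1` if `e` even, `±3` if `e` odd. Contradiction. -/

namespace Pool.Agent.RZ

private lemma v1n_unit {p : ℕ} (hp : p.Prime) {x y : ℤ} (hc : IsCoprime x y) (hx : (p : ℤ) ∣ x)
    (hy : (p : ℤ) ∣ y) : False :=
  (Nat.prime_iff_prime_int.1 hp).not_isUnit (hc.isUnit_of_dvd' hx hy)

private lemma v1n_mod8 (x : ℤ) : x % 8 = 0 ∨ x % 8 = 1 ∨ x % 8 = 2 ∨ x % 8 = 3 ∨ x % 8 = 4 ∨
    x % 8 = 5 ∨ x % 8 = 6 ∨ x % 8 = 7 := by omega

/-- squares modulo 16 by the class modulo 8 -/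
private lemma v1n_sq (x : ℤ) : (x ^ 2 % 16 = 9 → x % 8 = 3 ∨ x % 8 = 5) ∧
    (x ^ 2 % 16 = 1 → x % 8 = 1 ∨ x % 8 = 7) := by
  obtain ⟨k, hk⟩ : ∃ k, x = 8 * k + x % 8 := ⟨x / 8, by omega⟩
  have e1 : x ^ 2 % 16 = (x % 8) ^ 2 % 16 := by
    have : x ^ 2 = (x % 8) ^ 2 + 16 * (4 * k ^ 2 + k * (x % 8)) := by
      conv_lhs => rw [hk]
      ring
    rw [this, Int.add_mul_emod_self_left]
  rw [e1]
  rcases v1n_mod8 x with h | h | h | h | h | h | h | h <;> rw [h] <;> norm_num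

theorem sys1_not_nine {m : ℕ} (hm : Fam m) {b c X Y Z e : ℤ} (h : Sys1 m b c X Y Z e)
    (h9 : b % 16 = 9) : False := by
  have hpp : ∀ {p : ℕ}, p.Prime → Prime (p : ℤ) := fun {p} h => Nat.prime_iff_prime_int.1 h
  -- parity of `X`
  have h2X : ¬ (2 : ℤ) ∣ X := by
    intro h2
    exact v1n_unit Nat.prime_two h.cop (by push_cast; exact Dvd.dvd.mul_left h2 _)
      (by push_cast; exact Dvd.intro _ rfl)
  -- `X² = 1 mod 16`
  have hX16 : X ^ 2 % 16 = 1 := by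
    refine sq_mod16 h2X ?_
    intro p hp hpX
    have hp2 : p ≠ 2 := by
      rintro rfl
      exact h2X (by exact_mod_cast hpX)
    have hpr : Prime (p : ℤ) := hpp hp
    have he : ¬ (p : ℤ) ∣ 2 * e := fun he => v1n_unit hp h.cop (Dvd.dvd.mul_left hpX _) he
    refine two_res hp hp2 (X := 2 * e) (Y := Z) he ?_
    have e1 : Z ^ 2 - 2 * (2 * e) ^ 2 = b * X ^ 2 := by linear_combination -h.e2
    rw [e1]
    exact Dvd.dvd.mul_left (dvd_pow hpX two_ne_zero) _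
  -- `Z²` modulo 16
  have hZ16 : (e % 2 = 0 → Z ^ 2 % 16 = 9) ∧ (e % 2 = 1 → Z ^ 2 % 16 = 1) := by
    obtain ⟨j, hj⟩ : ∃ j, b = 16 * j + 9 := ⟨b / 16, by omega⟩
    obtain ⟨k, hk⟩ : ∃ k, X ^ 2 = 16 * k + 1 := ⟨X ^ 2 / 16, by omega⟩
    constructor
    · intro he
      obtain ⟨f, hf⟩ : ∃ f, e = 2 * f := ⟨e / 2, by omega⟩
      have : Z ^ 2 = 9 + 16 * (j * X ^ 2 + 9 * k + 2 * f ^ 2) := by
        rw [← h.e2, hf]
        nth_rewrite 1 [hj]
        linear_combination 9 * hk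
      omega
    · intro he
      obtain ⟨f, hf⟩ : ∃ f, e = 2 * f + 1 := ⟨e / 2, by omega⟩
      have : Z ^ 2 = 1 + 16 * (j * X ^ 2 + 9 * k + 2 * f ^ 2 + 2 * f + 1) := by
        rw [← h.e2, hf]
        nth_rewrite 1 [hj]
        linear_combination 9 * hk
      omega
  have hsq := v1n_sq Z
  have h2Z : Z % 2 = 1 := by
    rcases Int.emod_two_eq_zero_or_one e with he | he
    · have := hsq.1 (hZ16.1 he); omega
    · have := hsq.2 (hZ16.2 he); omega
  -- `Z` is coprime to `e`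
  have hZe : IsCoprime Z e := by
    rw [Int.isCoprime_iff_gcd_eq_one]
    by_contra hg
    obtain ⟨p, hp, hpg⟩ := Nat.exists_prime_and_dvd hg
    have hpZ : (p : ℤ) ∣ Z := (Int.natCast_dvd_natCast.2 hpg).trans (Int.gcd_dvd_left ..)
    have hpe : (p : ℤ) ∣ e := (Int.natCast_dvd_natCast.2 hpg).trans (Int.gcd_dvd_right ..)
    refine v1n_unit hp h.cop ((hpp hp).dvd_of_dvd_pow (n := 2) ?_) (Dvd.dvd.mul_left hpe _)
    have e2 : (b * X) ^ 2 = (Z ^ 2 - 8 * e ^ 2) * b := by linear_combination b * h.e2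
    rw [e2]
    exact Dvd.dvd.mul_right (dvd_sub (dvd_pow hpZ two_ne_zero)
      (Dvd.dvd.mul_left (dvd_pow hpe two_ne_zero) _)) _
  -- the factors are coprime
  have hZ8 : IsCoprime Z (8 * e) := by
    refine IsCoprime.mul_right ?_ hZe
    have h2 : IsCoprime Z 2 := by
      obtain ⟨z, hz⟩ : ∃ z, Z = 2 * z + 1 := ⟨Z / 2, by omega⟩
      exact ⟨1, -z, by rw [hz]; ring⟩
    have : (8 : ℤ) = 2 ^ 3 := by norm_num
    rw [this]
    exact h2.pow_right
  have hfac : (Z - 4 * e) * (Z + 4 * e) = c * Y ^ 2 := by linear_combination h.e1 - h.e2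
  have hc : IsCoprime (Z - 4 * e) (Z + 4 * e) := by
    have h2 : IsCoprime Z 2 := by
      obtain ⟨z, hz⟩ : ∃ z, Z = 2 * z + 1 := ⟨Z / 2, by omega⟩
      exact ⟨1, -z, by rw [hz]; ring⟩
    have h1 : IsCoprime (Z - 4 * e) (2 * Z) := by
      refine IsCoprime.mul_right ?_ ?_
      · obtain ⟨z, hz⟩ : ∃ z, Z = 2 * z + 1 := ⟨Z / 2, by omega⟩
        exact ⟨1, -z + 2 * e, by rw [hz]; ring⟩
      · have h3 : IsCoprime (4 * e) Z := by
          have h8 : IsCoprime Z (2 * (4 * e)) := by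
            have : 2 * (4 * e) = 8 * e := by ring
            rw [this]; exact hZ8
          exact h8.of_mul_right_right.symm
        have h4 : IsCoprime (Z - 4 * e) Z := by
          have h5 : IsCoprime (-(4 * e) + Z * 1) Z := by
            exact (h3.neg_left).add_mul_right_left 1 |> fun h => by simpa [mul_comm] using h
          have e3 : Z - 4 * e = -(4 * e) + Z * 1 := by ring
          rw [e3]; exact h5
        exact h4
    have h6 : IsCoprime (Z - 4 * e) (2 * Z + (Z - 4 * e) * (-1)) := h1.add_mul_left_right (-1)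
    have e4 : Z + 4 * e = 2 * Z + (Z - 4 * e) * (-1) := by ring
    rw [e4]; exact h6
  -- `Y ≠ 0`
  have hcm : c ∣ (m : ℤ) := ⟨b, by rw [← h.prod]; ring⟩
  have hY : Y ≠ 0 := by
    rintro rfl
    have h1 : (Z - 4 * e) * (Z + 4 * e) = 0 := by rw [hfac]; ring
    have hu := hc
    rcases mul_eq_zero.1 h1 with h2 | h2
    · rw [h2, isCoprime_zero_left, Int.isUnit_iff] at hu
      have hZ : Z = 4 * e := by linarith
      omega
    · rw [h2, isCoprime_zero_right, Int.isUnit_iff] at hu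
      have hZ : Z = -(4 * e) := by linarith
      omega
  have hsf : Squarefree c := by
    have h1 : Squarefree ((m : ℕ) : ℤ) := Int.squarefree_natCast.2 hm.sqf
    exact h1.squarefree_of_dvd hcm
  obtain ⟨c₁, c₂, r, s, h5, h6, h7, h8⟩ := split_sq hfac hc hsf hY
  have d1 := dvd_mod8 hm (d := c₁) ((Dvd.intro _ h7).trans hcm)
  have hr : r % 2 = 1 := by
    by_contra hr
    obtain ⟨r', hr'⟩ : ∃ r', r = 2 * r' := ⟨r / 2, by omega⟩
    have : Z = 2 * (2 * c₁ * r' ^ 2 + 2 * e) := by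
      have : Z = c₁ * r ^ 2 + 4 * e := by linear_combination h5
      rw [this, hr']; ring
    omega
  have hr8 : ∃ j, r ^ 2 = 8 * j + 1 := by
    obtain ⟨k, hk⟩ : ∃ k, r = 2 * k + 1 := ⟨r / 2, by omega⟩
    rcases Int.even_mul_succ_self k with ⟨j, hj⟩
    exact ⟨j, by rw [hk]; linear_combination 4 * hj⟩
  obtain ⟨j, hj⟩ := hr8
  have hZ : Z = c₁ + 4 * e + 8 * (c₁ * j) := by
    have : Z = c₁ * r ^ 2 + 4 * e := by linear_combination h5
    rw [this, hj]; ring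
  rcases Int.emod_two_eq_zero_or_one e with he | he
  · have := hsq.1 (hZ16.1 he)
    omega
  · have := hsq.2 (hZ16.2 he)
    omega

end Pool.Agent.RZ
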