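import Pool.Agent.RZ.BAS
import Pool.Agent.RZ.PHI

set_option autoImplicit false

/-! `Sys1` with `b = 1` (so `c = m`) gives a solution of `A 1_{c₁} = lambda`.

Proof. `X² - 8e² = mY²`, `X² + 8e² = Z²`; we may take `X, Z > 0`. `(Z - X)(Z + X) = 8e²`, `e ≠ 0` (else
`m` would be a square), so after `X → -X`: `Z = s² + 2r²`, `e = rs`, `s` odd, `gcd (s, 2r) = 1`, and
`(Z - 4e)(Z + 4e) = mY²` with coprime positive factors `s² - 4rs + 2r² = c₁g²`,
`s² + 4rs + 2r² = c₂h²`, `c₁c₂ = m`. For `p ∣ c₁`: `(s - 2r)² = 2r² mod p`, `s = (2 + u) r`, `u² = 2`,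
`c₂h² = 8rs = 8(2 + u)r²`, so `(c₂/p) = (2 + u / p) = lamS p` (`phi16`, `(2/p) = 1`). For `p ∣ c₂`:
`(s + 2r)² = 2r²`, `s = -(2 + u)r`, `c₁g² = -8rs = 8(2 + u)r²`, `(c₁/p) = lamS p`. -/

namespace Pool.Agent.RZ

/-- the symbol at a prime of `s² - 4rs + 2r²` of the class of `s² + 4rs + 2r²` -/
private theorem v1r_core {p : ℕ} (hp : p.Prime) (h8 : p % 8 = 1 ∨ p % 8 = 7) {c h r s : ℤ}
    (hr : ¬ (p : ℤ) ∣ r) (h0 : (p : ℤ) ∣ s ^ 2 - 4 * r * s + 2 * r ^ 2)
    (h1 : s ^ 2 + 4 * r * s + 2 * r ^ 2 = c * h ^ 2) : jacobiSym c p = lamS p := by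
  have : Fact p.Prime := ⟨hp⟩
  have hR : (r : ZMod p) ≠ 0 := fun h => hr ((ZMod.intCast_zmod_eq_zero_iff_dvd r p).1 h)
  have h0' : (s : ZMod p) ^ 2 - 4 * r * s + 2 * r ^ 2 = 0 := by
    have := (ZMod.intCast_zmod_eq_zero_iff_dvd _ p).2 h0
    push_cast at this
    exact this
  have h1' : (s : ZMod p) ^ 2 + 4 * r * s + 2 * r ^ 2 = c * h ^ 2 := by
    have := congrArg (Int.cast : ℤ → ZMod p) h1
    push_cast at this
    exact this
  have h2 : (2 : ZMod p) ≠ 0 := by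
    intro h
    have h3 : ((2 : ℕ) : ZMod p) = 0 := by exact_mod_cast h
    rw [ZMod.natCast_eq_zero_iff] at h3
    have := Nat.le_of_dvd two_pos h3
    have := hp.two_le
    omega
  obtain ⟨u, hu⟩ : ∃ u : ZMod p, u = (s : ZMod p) / r - 2 := ⟨_, rfl⟩
  have hs : (s : ZMod p) = (2 + u) * r := by rw [hu]; field_simp; ring
  have hu2 : u ^ 2 = 2 := by
    rw [hs] at h0'
    have h3 : (r : ZMod p) ^ 2 * (u ^ 2 - 2) = 0 := by linear_combination h0'
    rcases mul_eq_zero.1 h3 with h4 | h4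
    · exact absurd (pow_eq_zero_iff two_ne_zero |>.1 h4) hR
    · linear_combination h4
  have hu0 : u ≠ 0 := by
    rintro rfl
    apply h2
    rw [← hu2]; ring
  have hv0 : 2 + u ≠ 0 := by
    intro h3
    apply h2
    have : u = -2 := by linear_combination h3
    rw [this] at hu2
    linear_combination hu2
  have hC : (c : ZMod p) * h ^ 2 = (2 + u) * (2 * u * r) ^ 2 := by
    rw [← h1', hs]
    linear_combination (-(4 * u + 7) * (r : ZMod p) ^ 2) * hu2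
  have hw0 : (2 * u * r : ZMod p) ≠ 0 := mul_ne_zero (mul_ne_zero h2 hu0) hR
  have hCh : (c : ZMod p) * h ^ 2 ≠ 0 := by
    rw [hC]
    exact mul_ne_zero hv0 (pow_ne_zero 2 hw0)
  have hc0 : (c : ZMod p) ≠ 0 := left_ne_zero_of_mul hCh
  have hh0 : (h : ZMod p) ≠ 0 := fun h3 => hCh (by rw [h3]; ring)
  have hsq : IsSquare (c : ZMod p) ↔ IsSquare (2 + u) := by
    constructor
    · rintro ⟨y, hy⟩
      refine ⟨y * h / (2 * u * r), ?_⟩
      field_simp
      linear_combination -hC + (h : ZMod p) ^ 2 * hy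
    · rintro ⟨y, hy⟩
      refine ⟨y * (2 * u * r) / h, ?_⟩
      field_simp
      linear_combination hC + (2 * u * r : ZMod p) ^ 2 * hy
  rw [phi16 h8 hu2] at hsq
  rw [← jacobiSym.legendreSym.to_jacobiSym]
  unfold lamS
  split_ifs with h9
  · rw [legendreSym.eq_neg_one_iff, hsq]
    omega
  · rw [legendreSym.eq_one_iff p hc0, hsq]
    omega

/-- two coprime integers have no common prime -/
private theorem v1r_cop {x y : ℤ} (h : ∀ q : ℕ, q.Prime → (q : ℤ) ∣ x → ¬ (q : ℤ) ∣ y) :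
    IsCoprime x y := by
  rw [Int.isCoprime_iff_gcd_eq_one]
  by_contra h1
  obtain ⟨q, hq, hd⟩ := Nat.exists_prime_and_dvd h1
  exact h q hq (dvd_trans (Int.natCast_dvd_natCast.2 hd) (Int.gcd_dvd_left _ _))
    (dvd_trans (Int.natCast_dvd_natCast.2 hd) (Int.gcd_dvd_right _ _))

/-- the second half: from `Z = s² + 2r²`, `e = rs` -/
private theorem v1r_half {m : ℕ} (hm : Fam m) {Y Z e r s : ℤ} (hY : Y ≠ 0) (hZ : 0 < Z)
    (hZo : ¬ (2 : ℤ) ∣ Z) (hZe : IsCoprime Z e) (h1 : Z = s ^ 2 + 2 * r ^ 2) (h2 : e = r * s)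
    (h3 : Z ^ 2 - 16 * e ^ 2 = m * Y ^ 2) : ∃ c₁ : ℕ, c₁ ∣ m ∧ RA m c₁ := by
  have hm0 : 0 < m := by have := hm.one_lt; omega
  have hcop : IsCoprime (Z - 4 * e) (Z + 4 * e) := by
    refine v1r_cop fun q hq h4 h5 => ?_
    have hqp : Prime (q : ℤ) := Nat.prime_iff_prime_int.1 hq
    have h6 : (q : ℤ) ∣ 2 * Z := by
      have := dvd_add h4 h5
      have e1 : Z - 4 * e + (Z + 4 * e) = 2 * Z := by ring
      rwa [e1] at this
    have h7 : (q : ℤ) ∣ 8 * e := by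
      have := dvd_sub h5 h4
      have e1 : Z + 4 * e - (Z - 4 * e) = 8 * e := by ring
      rwa [e1] at this
    by_cases hq2 : q = 2
    · subst hq2
      apply hZo
      have e1 : Z = (Z - 4 * e) + 2 * (2 * e) := by ring
      rw [e1]
      exact dvd_add (by exact_mod_cast h4) (Dvd.intro _ rfl)
    · have hn2 : ¬ (q : ℤ) ∣ 2 := by
        intro h8
        exact hq2 ((Nat.prime_dvd_prime_iff_eq hq Nat.prime_two).1 (by exact_mod_cast h8))
      have h8 : (q : ℤ) ∣ Z := (hqp.dvd_or_dvd h6).resolve_left hn2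
      have h9 : (q : ℤ) ∣ e := by
        have e1 : (8 : ℤ) * e = 2 ^ 3 * e := by norm_num
        rw [e1] at h7
        exact (hqp.dvd_or_dvd h7).resolve_left fun h => hn2 (hqp.dvd_of_dvd_pow h)
      exact hqp.not_isUnit (hZe.isUnit_of_dvd' h8 h9)
  have hsf : Squarefree (m : ℤ) := Int.squarefree_natCast.2 hm.sqf
  have hprod : (Z - 4 * e) * (Z + 4 * e) = m * Y ^ 2 := by rw [← h3]; ring
  obtain ⟨c₁, c₂, g, h, hg, hh, hc, hgh⟩ := split_sq hprod hcop hsf hY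
  have hmY : 0 < (m : ℤ) * Y ^ 2 := by positivity
  have hg0 : g ≠ 0 := by rintro rfl; apply hY; rw [← hgh]; ring
  have hh0 : h ≠ 0 := by rintro rfl; apply hY; rw [← hgh]; ring
  have hpos : 0 < Z - 4 * e ∧ 0 < Z + 4 * e := by
    rw [← hprod] at hmY
    rcases pos_and_pos_or_neg_and_neg_of_mul_pos hmY with h4 | h4
    · exact h4
    · exfalso; linarith [h4.1, h4.2]
  have hc1 : 0 < c₁ := by
    have := hpos.1
    rw [hg] at this
    exact (mul_pos_iff_of_pos_right (by positivity)).1 this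
  have hc2 : 0 < c₂ := by
    have := hpos.2
    rw [hh] at this
    exact (mul_pos_iff_of_pos_right (by positivity)).1 this
  obtain ⟨C, hC⟩ : ∃ C : ℕ, (C : ℤ) = c₁ := ⟨c₁.toNat, Int.toNat_of_nonneg hc1.le⟩
  obtain ⟨D, hD⟩ : ∃ D : ℕ, (D : ℤ) = c₂ := ⟨c₂.toNat, Int.toNat_of_nonneg hc2.le⟩
  have hCD : C * D = m := by
    have : (C : ℤ) * D = m := by rw [hC, hD, hc]
    exact_mod_cast this
  have hC0 : 0 < C := by
    rcases Nat.eq_zero_or_pos C with h4 | h4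
    · rw [h4, zero_mul] at hCD; omega
    · exact h4
  have hmC : m / C = D := by rw [← hCD]; exact Nat.mul_div_cancel_left D hC0
  have hr : ∀ p : ℕ, p.Prime → ((p : ℤ) ∣ Z - 4 * e ∨ (p : ℤ) ∣ Z + 4 * e) → ¬ (p : ℤ) ∣ r := by
    intro p hp h4 h5
    have hpp : Prime (p : ℤ) := Nat.prime_iff_prime_int.1 hp
    have h6 : (p : ℤ) ∣ e := by rw [h2]; exact h5.mul_right s
    have h7 : (p : ℤ) ∣ Z := by
      rcases h4 with h4 | h4
      · have e1 : Z = (Z - 4 * e) + 4 * e := by ring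
        rw [e1]
        exact dvd_add h4 (h6.mul_left 4)
      · have e1 : Z = (Z + 4 * e) - 4 * e := by ring
        rw [e1]
        exact dvd_sub h4 (h6.mul_left 4)
    exact hpp.not_isUnit (hZe.isUnit_of_dvd' h7 h6)
  refine ⟨C, ⟨D, hCD.symm⟩, fun p hp hpm => ?_⟩
  have h8 : p % 8 = 1 ∨ p % 8 = 7 := hm.pr p (Nat.mem_primeFactors.2 ⟨hp, hpm, by omega⟩)
  constructor
  · intro hpC
    have hpD : p ∣ D := by
      rw [← hCD] at hpm
      exact (hp.dvd_mul.1 hpm).resolve_left hpC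
    have hd : (p : ℤ) ∣ Z + 4 * e := by
      rw [hh, ← hD]
      exact (Int.natCast_dvd_natCast.2 hpD).mul_right _
    rw [hC]
    refine v1r_core hp h8 (h := g) (r := r) (s := -s) (hr p hp (Or.inr hd)) ?_ ?_
    · have e1 : (-s) ^ 2 - 4 * r * (-s) + 2 * r ^ 2 = Z + 4 * e := by rw [h1, h2]; ring
      rw [e1]
      exact hd
    · rw [← hg, h1, h2]; ring
  · intro hpC
    have hd : (p : ℤ) ∣ Z - 4 * e := by
      rw [hg, ← hC]
      exact (Int.natCast_dvd_natCast.2 hpC).mul_right _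
    rw [hmC, hD]
    refine v1r_core hp h8 (h := h) (r := r) (s := s) (hr p hp (Or.inl hd)) ?_ ?_
    · have e1 : s ^ 2 - 4 * r * s + 2 * r ^ 2 = Z - 4 * e := by rw [h1, h2]; ring
      rw [e1]
      exact hd
    · rw [← hh, h1, h2]; ring

theorem sys1_RA {m : ℕ} (hm : Fam m) {c X Y Z e : ℤ} (h : Sys1 m 1 c X Y Z e) :
    ∃ c₁ : ℕ, c₁ ∣ m ∧ RA m c₁ := by
  have hm0 : 1 < m := hm.one_lt
  have hc : c = m := by rw [← h.prod, one_mul]
  have e1 : X ^ 2 - 8 * e ^ 2 = m * Y ^ 2 := by rw [← hc, ← h.e1]; ring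
  have e2 : X ^ 2 + 8 * e ^ 2 = Z ^ 2 := by rw [← h.e2]; ring
  have hcop : IsCoprime X (2 * e) := by simpa using h.cop
  have hX2 : ¬ (2 : ℤ) ∣ X := by
    intro h1
    exact Int.prime_two.not_isUnit (hcop.isUnit_of_dvd' h1 (Dvd.intro _ rfl))
  have hXe : ∀ q : ℕ, q.Prime → (q : ℤ) ∣ X → ¬ (q : ℤ) ∣ 2 * e := by
    intro q hq h1 h2
    exact (Nat.prime_iff_prime_int.1 hq).not_isUnit (hcop.isUnit_of_dvd' h1 h2)
  have hX0 : X ≠ 0 := by rintro rfl; exact hX2 (dvd_zero 2)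
  have he0 : e ≠ 0 := by
    rintro rfl
    have h1 : IsUnit X := by
      rw [mul_zero, isCoprime_zero_right] at hcop
      exact hcop
    have h2 : X ^ 2 = 1 := by
      rcases Int.isUnit_iff.1 h1 with h3 | h3 <;> rw [h3] <;> norm_num
    have h3 : (m : ℤ) * Y ^ 2 = 1 := by rw [← e1, h2]; ring
    have h4 : (m : ℤ) ∣ 1 := Dvd.intro _ h3
    have h5 := Int.le_of_dvd one_pos h4
    omega
  have hXo : X % 2 = 1 := by omega
  have hZo : ¬ (2 : ℤ) ∣ Z := by
    intro h1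
    apply hX2
    refine Int.prime_two.dvd_of_dvd_pow (n := 2) ?_
    have : X ^ 2 = Z ^ 2 - 2 * (4 * e ^ 2) := by rw [← e2]; ring
    rw [this]
    exact dvd_sub (dvd_pow h1 two_ne_zero) (Dvd.intro _ rfl)
  have hY : Y ≠ 0 := by
    rintro rfl
    apply hX2
    refine Int.prime_two.dvd_of_dvd_pow (n := 2) ?_
    have : X ^ 2 = 2 * (4 * e ^ 2) := by linear_combination e1
    rw [this]
    exact Dvd.intro _ rfl
  have hZ0 : Z ≠ 0 := by rintro rfl; exact hZo (dvd_zero 2)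
  -- make `Z` positive
  obtain ⟨W, hW, hWZ⟩ : ∃ W : ℤ, 0 < W ∧ W ^ 2 = Z ^ 2 := ⟨|Z|, abs_pos.2 hZ0, sq_abs Z⟩
  have hWo : ¬ (2 : ℤ) ∣ W := by
    intro h1
    apply hZo
    refine Int.prime_two.dvd_of_dvd_pow (n := 2) ?_
    rw [← hWZ]
    exact dvd_pow h1 two_ne_zero
  have e3 : X ^ 2 + 8 * e ^ 2 = W ^ 2 := by rw [hWZ, e2]
  have hWe : IsCoprime W e := by
    refine v1r_cop fun q hq h1 h2 => ?_
    have hqp : Prime (q : ℤ) := Nat.prime_iff_prime_int.1 hq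
    have h3 : (q : ℤ) ∣ X ^ 2 := by
      have : X ^ 2 = W ^ 2 - e * (8 * e) := by rw [← e3]; ring
      rw [this]
      exact dvd_sub (dvd_pow h1 two_ne_zero) (h2.mul_right _)
    exact hXe q hq (hqp.dvd_of_dvd_pow h3) (h2.mul_left 2)
  have e4 : W ^ 2 - 16 * e ^ 2 = m * Y ^ 2 := by rw [← e1, ← e3]; ring
  -- halves of `W - X`, `W + X`
  obtain ⟨u, hu⟩ : ∃ u : ℤ, W - X = 2 * u := ⟨(W - X) / 2, by omega⟩
  obtain ⟨v, hv⟩ : ∃ v : ℤ, W + X = 2 * v := ⟨(W + X) / 2, by omega⟩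
  have huv : u * v = 2 * e ^ 2 := by
    have : 4 * (u * v) = 4 * (2 * e ^ 2) := by
      have h1 : (2 * u) * (2 * v) = 8 * e ^ 2 := by rw [← hu, ← hv]; linear_combination -e3
      linear_combination h1
    linarith
  have hW' : u + v = W := by linarith
  have hcuv : IsCoprime u v := by
    refine v1r_cop fun q hq h1 h2 => ?_
    have hqp : Prime (q : ℤ) := Nat.prime_iff_prime_int.1 hq
    have h3 : (q : ℤ) ∣ W := by rw [← hW']; exact dvd_add h1 h2
    have h4 : (q : ℤ) ∣ X := by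
      have : X = v - u := by linarith
      rw [this]
      exact dvd_sub h2 h1
    have h5 : (q : ℤ) ∣ 2 * e ^ 2 := by rw [← huv]; exact h1.mul_right v
    rcases hqp.dvd_or_dvd h5 with h6 | h6
    · exact hXe q hq h4 (h6.mul_right e)
    · exact hXe q hq h4 ((hqp.dvd_of_dvd_pow h6).mul_left 2)
  obtain ⟨a₁, a₂, r, s, hr, hs, ha, hrs⟩ := split_sq huv hcuv Int.prime_two.squarefree he0
  have hpos : 0 < u * v := by rw [huv]; positivity
  have hup : 0 < u ∧ 0 < v := by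
    rcases pos_and_pos_or_neg_and_neg_of_mul_pos hpos with h4 | h4
    · exact h4
    · exfalso; linarith [h4.1, h4.2]
  have hr0 : r ≠ 0 := by rintro rfl; apply he0; rw [← hrs]; ring
  have hs0 : s ≠ 0 := by rintro rfl; apply he0; rw [← hrs]; ring
  have ha1 : 0 < a₁ := by
    have := hup.1
    rw [hr] at this
    exact (mul_pos_iff_of_pos_right (by positivity)).1 this
  have ha1' : a₁ ∣ 2 := Dvd.intro _ ha
  have ha1'' := Int.le_of_dvd two_pos ha1'
  have hcase : a₁ = 1 ∨ a₁ = 2 := by omega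
  rcases hcase with h1 | h1
  · have h2 : a₂ = 2 := by rw [h1, one_mul] at ha; exact ha
    refine v1r_half hm hY hW hWo hWe (r := s) (s := r) ?_ ?_ e4
    · rw [← hW', hr, hs, h1, h2]; ring
    · rw [← hrs]; ring
  · have h2 : a₂ = 1 := by rw [h1] at ha; linarith
    refine v1r_half hm hY hW hWo hWe (r := r) (s := s) ?_ ?_ e4
    · rw [← hW', hr, hs, h1, h2]; ring
    · rw [← hrs]

end Pool.Agent.RZ
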