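import Pool.Agent.RZ.DES
import Pool.Agent.RZ.CAS
import Pool.Agent.RZ.V0L
import Pool.Agent.RZ.V0N
import Pool.Agent.RZ.V1L
import Pool.Agent.RZ.V1N
import Pool.Agent.RZ.V1R
import Pool.Agent.RZ.E2
import Pool.Agent.RZ.SL1
import Pool.Agent.RZ.SL2
import Pool.Agent.H23.Count

set_option autoImplicit false

/-! Rank zero. `Glob 0 (-4m²) ⊆ {1, -1, 2m, -2m}`, `Glob 0 (16m²) = {1}`, `two_pow_rank`. -/

namespace Pool.Agent.RZ

open Pool.Agent.H23

/-- `Glob` is closed under multiplication modulo squares -/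
private theorem rk_mul {a b : ℤ} (G : Good (a : ℚ) (b : ℚ)) {c d e n : ℤ} (hc : c ∈ Glob a b)
    (hd : d ∈ Glob a b) (he : Squarefree e) (hn : c * d * e = n ^ 2) : e ∈ Glob a b := by
  obtain ⟨P, hP⟩ := icl_mem_range G hc
  obtain ⟨Q, hQ⟩ := icl_mem_range G hd
  obtain ⟨e', he', h⟩ := mem_glob_of_alpha G (P + Q)
  rw [map_add, hP, hQ] at h
  have h1 : icl e = icl c + icl d := by
    rw [icl_eq (int_ne_unit hc.1), icl_eq (int_ne_unit hd.1), icl_eq (int_ne_unit he), ← sqc_mul,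
      eq_comm, sqc_eq_iff]
    refine ⟨n, ?_⟩
    simp only [Units.val_mul, Units.val_mk0]
    exact_mod_cast hn
  have h2 : icl e = icl e' := by rw [h1, h]
  have h3 := icl_injOn he he'.1 h2
  rw [h3]
  exact he'

private theorem rk_neg {x : ℤ} (h : Squarefree x) : Squarefree (-x) := by
  rw [← Int.squarefree_natAbs, Int.natAbs_neg, Int.squarefree_natAbs]
  exact h

/-- the torsion classes -/
private theorem rk_neg_one {m : ℕ} (hm : Fam m) : (-1 : ℤ) ∈ Glob 0 (-4 * (m : ℤ) ^ 2) := by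
  have hm0 : (m : ℚ) ≠ 0 := by have := hm.one_lt; exact_mod_cast (by omega : m ≠ 0)
  refine ⟨?_, ⟨4 * (m : ℤ) ^ 2, by ring⟩, 2 * m, 0, 1, Or.inr one_ne_zero, ?_⟩
  · exact (isUnit_one.neg).squarefree
  · have : -4 * (m : ℤ) ^ 2 / -1 = 4 * (m : ℤ) ^ 2 := by
      rw [Int.ediv_neg, Int.ediv_one]; ring
    rw [this]
    push_cast
    ring

private theorem rk_two_m {m : ℕ} (hm : Fam m) : (2 * (m : ℤ)) ∈ Glob 0 (-4 * (m : ℤ) ^ 2) := by
  have hm0 : (m : ℤ) ≠ 0 := by have := hm.one_lt; omega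
  refine ⟨?_, ⟨-2 * (m : ℤ), by ring⟩, 0, 1, 1, Or.inr one_ne_zero, ?_⟩
  · have h1 : Squarefree (2 * m) := by
      rw [Nat.squarefree_mul_iff]
      refine ⟨?_, Nat.prime_two.prime.squarefree, hm.sqf⟩
      rw [Nat.coprime_two_left, Nat.odd_iff]
      have := hm.mod8
      omega
    have : (2 * (m : ℤ)) = ((2 * m : ℕ) : ℤ) := by push_cast; ring
    rw [this]
    exact Int.squarefree_natCast.2 h1
  · have : -4 * (m : ℤ) ^ 2 / (2 * m) = -2 * (m : ℤ) := by
      have e : -4 * (m : ℤ) ^ 2 = (2 * m) * (-2 * m) := by ring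
      rw [e, Int.mul_ediv_cancel_left _ (mul_ne_zero two_ne_zero hm0)]
    rw [this]
    push_cast
    ring

/-- the classes that are `1` modulo `8` -/
private theorem rk_one {m : ℕ} (hm : Fam m) (hn : Nice m) {b : ℤ}
    (hb : b ∈ Glob 0 (-4 * (m : ℤ) ^ 2)) (h8 : b % 8 = 1) : b = 1 := by
  obtain ⟨δ, a, b', c, d, X, Y, Z, e, hS, hbe⟩ := sys_of_glob hm hb h8
  rw [hbe]
  rcases sys_cases hm hn hS with ⟨a', X', Y', Z', e', h⟩ | ⟨b'', X', Y', Z', e', h⟩
  · rcases sys0_nine_or hm hn h with h1 | h1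
    · exact h1
    · exact (sys0_not_nine hm h h1).elim
  · exfalso
    rcases sys1_nine_or hm hn h with h1 | h1
    · subst h1
      obtain ⟨c₁, hc, hR⟩ := sys1_RA hm h
      exact hn.noR c₁ hc hR
    · exact sys1_not_nine hm h h1

private theorem rk_glob {m : ℕ} (hm : Fam m) (hn : Nice m) :
    Glob 0 (-4 * (m : ℤ) ^ 2) ⊆ ({1, -1, 2 * (m : ℤ), -(2 * (m : ℤ))} : Set ℤ) := by
  have hm0 : (m : ℤ) ≠ 0 := by have := hm.one_lt; omega
  have hb0 : -4 * (m : ℤ) ^ 2 ≠ 0 := mul_ne_zero (by norm_num) (pow_ne_zero 2 hm0)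
  have G : Good (((0 : ℤ)) : ℚ) ((-4 * (m : ℤ) ^ 2 : ℤ) : ℚ) := good_int hb0 (by
    have : (0 : ℤ) ^ 2 - 4 * (-4 * (m : ℤ) ^ 2) = 16 * (m : ℤ) ^ 2 := by ring
    rw [this]
    exact mul_ne_zero (by norm_num) (pow_ne_zero 2 hm0))
  have hmsq : Squarefree (m : ℤ) := Int.squarefree_natCast.2 hm.sqf
  -- odd classes
  have hodd : ∀ x : ℤ, x ∈ Glob 0 (-4 * (m : ℤ) ^ 2) → x ∣ m → x = 1 ∨ x = -1 := by
    intro x hx hxm
    rcases dvd_mod8 hm hxm with h | h
    · left; exact rk_one hm hn hx h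
    · right
      have h1 : -x ∈ Glob 0 (-4 * (m : ℤ) ^ 2) :=
        rk_mul G (c := x) (d := -1) (n := x) hx (rk_neg_one hm) (rk_neg hx.1) (by ring)
      have h2 := rk_one hm hn h1 (by omega)
      omega
  intro b hb
  obtain ⟨s, ε, d, hs, hε, hd, hbe, -⟩ := sel1_nec hm (glob_subset_sel _ _ hb)
  have hdz : (d : ℤ) ∣ m := by exact_mod_cast hd
  obtain ⟨n, hn'⟩ := hdz
  have hd0 : (d : ℤ) ≠ 0 := by rintro h; rw [h, zero_mul] at hn'; exact hm0 hn'
  simp only [Set.mem_insert_iff, Set.mem_singleton_iff]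
  rcases hε with rfl | rfl
  · rw [pow_zero, mul_one] at hbe
    have hbm : b ∣ m := by
      rw [hbe, hn']
      rcases hs with rfl | rfl
      · rw [one_mul]; exact dvd_mul_right _ _
      · rw [neg_one_mul, neg_dvd]; exact dvd_mul_right _ _
    rcases hodd b hb hbm with h | h
    · exact Or.inl h
    · exact Or.inr (Or.inl h)
  · rw [pow_one] at hbe
    have hsn : s * n ∈ Glob 0 (-4 * (m : ℤ) ^ 2) := by
      refine rk_mul G (c := b) (d := 2 * m) (n := 2 * m) hb (rk_two_m hm) ?_ ?_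
      · have h1 : Squarefree n := hmsq.squarefree_of_dvd ⟨d, by rw [hn']; ring⟩
        rcases hs with rfl | rfl
        · rwa [one_mul]
        · rw [neg_one_mul]; exact rk_neg h1
      · have hs2 : s * s = 1 := by rcases hs with rfl | rfl <;> norm_num
        rw [hbe]
        calc s * 2 * d * (2 * m) * (s * n) = (s * s) * (4 * (d * n) * m) := by ring
          _ = (2 * m) ^ 2 := by rw [hs2, ← hn']; ring
    have hsnm : s * n ∣ m := by
      rw [hn']
      rcases hs with rfl | rfl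
      · rw [one_mul]; exact dvd_mul_left _ _
      · rw [neg_one_mul, neg_dvd]; exact dvd_mul_left _ _
    have h1 := hodd _ hsn hsnm
    have h2 : b = 2 * m ∨ b = -(2 * m) := by
      rw [hbe, hn']
      rcases hs with rfl | rfl
      · rcases h1 with h | h
        · left
          have : n = 1 := by omega
          rw [this]; ring
        · right
          have : n = -1 := by omega
          rw [this]; ring
      · rcases h1 with h | h
        · left
          have : n = -1 := by omega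
          rw [this]; ring
        · right
          have : n = 1 := by omega
          rw [this]; ring
    rcases h2 with h | h
    · exact Or.inr (Or.inr (Or.inl h))
    · exact Or.inr (Or.inr (Or.inr h))

private theorem rk_glob' {m : ℕ} (hm : Fam m) (hn : Nice m) :
    Glob 0 (16 * (m : ℤ) ^ 2) ⊆ ({1} : Set ℤ) := by
  intro b hb
  obtain ⟨d, hd, hbd, h1, hK⟩ := sel2_nec hm (glob_subset_sel _ _ hb)
  rw [Set.mem_singleton_iff]
  rcases hn.ker d hd hK with h | h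
  · rw [hbd, h]; norm_num
  · exfalso
    subst h
    rw [hbd] at hb
    exact not_qsol hm hn h1 hb.2.2

theorem rank_zero {m : ℕ} (hm : Fam m) (hn : Nice m) : mwRank 0 (-4 * (m : ℤ) ^ 2) = 0 := by
  have hm0 : (m : ℤ) ≠ 0 := by have := hm.one_lt; omega
  have hb0 : -4 * (m : ℤ) ^ 2 ≠ 0 := mul_ne_zero (by norm_num) (pow_ne_zero 2 hm0)
  have e1 : (0 : ℤ) ^ 2 - 4 * (-4 * (m : ℤ) ^ 2) = 16 * (m : ℤ) ^ 2 := by ring
  have hd0 : (0 : ℤ) ^ 2 - 4 * (-4 * (m : ℤ) ^ 2) ≠ 0 := by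
    rw [e1]; exact mul_ne_zero (by norm_num) (pow_ne_zero 2 hm0)
  have h := two_pow_rank hb0 hd0
  rw [e1, mul_zero] at h
  have h1 : (Glob 0 (-4 * (m : ℤ) ^ 2)).ncard ≤ 4 := by
    refine (Set.ncard_le_ncard (rk_glob hm hn) (Set.toFinite _)).trans ?_
    refine (Set.ncard_insert_le _ _).trans ?_
    have h2 := Set.ncard_insert_le (-1 : ℤ) ({2 * (m : ℤ), -(2 * (m : ℤ))} : Set ℤ)
    have h3 := Set.ncard_insert_le (2 * (m : ℤ)) ({-(2 * (m : ℤ))} : Set ℤ)
    rw [Set.ncard_singleton] at h3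
    omega
  have h2 : (Glob 0 (16 * (m : ℤ) ^ 2)).ncard ≤ 1 := by
    refine (Set.ncard_le_ncard (rk_glob' hm hn) (Set.toFinite _)).trans ?_
    rw [Set.ncard_singleton]
  have h3 : 2 ^ (mwRank 0 (-4 * (m : ℤ) ^ 2) + 2) ≤ 4 := by
    rw [h]
    exact (Nat.mul_le_mul h1 h2).trans (by norm_num)
  by_contra hne
  have h4 : 3 ≤ mwRank 0 (-4 * (m : ℤ) ^ 2) + 2 := by omega
  have h5 : 2 ^ 3 ≤ 2 ^ (mwRank 0 (-4 * (m : ℤ) ^ 2) + 2) := Nat.pow_le_pow_right two_pos h4
  omega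

end Pool.Agent.RZ
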